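import Pool.Agent.H66.MB.BrDef

/-!
# The branching step runs in polynomial time

Proof: combine the closure properties of `Pool/Agent/H80/Poly/{Comb,Lists,Nat,More}.lean`:
`PolyTime.fst, .snd, .pair, .const, .map, .filter, .append, .cons, .cond, .ite, .optCase, .listCase,
.optElim, .sumCase, .length, .list_getD, .getElem?, .lt, .eq, .mem, .range, .head?, .zipIdx,
.headD, .reverse, .flatMap, .not, .and, .or`, and `PolyTime.congr` to change the function. In `map`
and `filter` the function takes the pair (context, element).

`adj M i j = (M.getD i []).getD j false`: `PolyTime.list_getD` twice.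
`dg`: `PolyTime.filter` and `PolyTime.length`.
`pick C b`: a fold over `C` with state (rest of `b`, selected so far); or: `zipIdx` of `C`, `filter`
by `b.getD i false`, `map` the first components (prove that this equals `pick C b`, for all lists:
`pick` stops at the end of the shorter list, and beyond the end of `b` the value is `false`).
`(List.range z.1.1.length).map ...`: `PolyTime.range` needs a bound of the number by the size of the
input (see its statement), `PolyTime.mem` for the test.
-/

set_option autoImplicit false

namespace Pool.Agent.H66.MB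

open Pool.Agent.H80.Poly

theorem polyTime_adj {α : Type} [BEnc α] {f : α → Mat} {i j : α → ℕ} (hf : PolyTime f)
    (hi : PolyTime i) (hj : PolyTime j) : PolyTime (fun a => adj (f a) (i a) (j a)) :=
  (hf.list_getD hi (PolyTime.const [])).list_getD hj (PolyTime.const false)

theorem polyTime_dg {α : Type} [BEnc α] {f : α → Mat} {C : α → List ℕ} {v : α → ℕ}
    (hf : PolyTime f) (hC : PolyTime C) (hv : PolyTime v) :
    PolyTime (fun a => dg (f a) (C a) (v a)) := by
  have hw : PolyTime (fun w : α × ℕ => w) := PolyTime.id
  exact (PolyTime.filter hC (g := fun w : α × ℕ => adj (f w.1) (v w.1) w.2)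
    (polyTime_adj (hf.comp hw.fst) (hv.comp hw.fst) hw.snd)).length

theorem polyTime_sub {α : Type} [BEnc α] {f : α → Mat} {C : α → List ℕ}
    (hf : PolyTime f) (hC : PolyTime C) : PolyTime (fun a => sub (f a) (C a)) := by
  have hw : PolyTime (fun w : (α × ℕ) × ℕ => w) := PolyTime.id
  have hv : PolyTime (fun w : α × ℕ => w) := PolyTime.id
  exact PolyTime.map hC (g := fun w : α × ℕ => (C w.1).map (fun j => adj (f w.1) w.2 j))
    (PolyTime.map (hC.comp hv.fst) (g := fun w : (α × ℕ) × ℕ => adj (f w.1.1) w.1.2 w.2)
      (polyTime_adj (hf.comp hw.fst.fst) hw.fst.snd hw.snd))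

theorem polyTime_big (D : ℕ) {α : Type} [BEnc α] {f : α → Mat} {C : α → List ℕ}
    (hf : PolyTime f) (hC : PolyTime C) : PolyTime (fun a => big D (f a) (C a)) := by
  have hw : PolyTime (fun w : α × ℕ => w) := PolyTime.id
  exact (PolyTime.filter hC (g := fun w : α × ℕ => decide (D < dg (f w.1) (C w.1) w.2))
    (PolyTime.lt (PolyTime.const D)
      (polyTime_dg (hf.comp hw.fst) (hC.comp hw.fst) hw.snd))).head?

theorem polyTime_pick {α : Type} [BEnc α] {C : α → List ℕ} {b : α → List Bool}
    (hC : PolyTime C) (hb : PolyTime b) : PolyTime (fun a => pick (C a) (b a)) := by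
  have hw : PolyTime (fun w : α × ℕ × Bool => w) := PolyTime.id
  exact PolyTime.map (PolyTime.filter (PolyTime.zip hC hb) (g := fun w : α × ℕ × Bool => w.2.2)
    hw.snd.snd) (g := fun w : α × ℕ × Bool => w.2.1) hw.snd.fst

theorem polyTime_better {α : Type} [BEnc α] {a b : α → List ℕ}
    (ha : PolyTime a) (hb : PolyTime b) : PolyTime (fun x => better (a x) (b x)) :=
  PolyTime.ite (c := fun x => (a x).length < (b x).length) (PolyTime.lt ha.length hb.length) hb ha

theorem polyTime_ne {α : Type} [BEnc α] {a b : α → ℕ}
    (ha : PolyTime a) (hb : PolyTime b) : PolyTime (fun x => decide (a x ≠ b x)) :=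
  (PolyTime.eq ha hb).not.congr (fun x => by simp)

theorem polyTime_del {α : Type} [BEnc α] {v : α → ℕ} {C : α → List ℕ}
    (hv : PolyTime v) (hC : PolyTime C) : PolyTime (fun a => del (v a) (C a)) := by
  have hw : PolyTime (fun w : α × ℕ => w) := PolyTime.id
  exact PolyTime.filter hC (g := fun w : α × ℕ => decide (w.2 ≠ v w.1))
    (polyTime_ne hw.snd (hv.comp hw.fst))

theorem polyTime_nbr {α : Type} [BEnc α] {f : α → Mat} {v : α → ℕ} {C : α → List ℕ}
    (hf : PolyTime f) (hv : PolyTime v) (hC : PolyTime C) :
    PolyTime (fun a => nbr (f a) (v a) (C a)) := by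
  have hw : PolyTime (fun w : α × ℕ => w) := PolyTime.id
  exact PolyTime.filter hC
    (g := fun w : α × ℕ => decide (w.2 ≠ v w.1) && !(adj (f w.1) (v w.1) w.2))
    ((polyTime_ne hw.snd (hv.comp hw.fst)).and
      (polyTime_adj (hf.comp hw.fst) (hv.comp hw.fst) hw.snd).not)

theorem polyTime_query (D : ℕ) : PolyTime (fun s : State => query D s) := by
  have hs : PolyTime (fun s : State => s) := PolyTime.id
  have h : PolyTime (fun w : (Item × List Item) × State => w) := PolyTime.id
  have h2 : PolyTime (fun w : ℕ × ((Item × List Item) × State) => w) := PolyTime.id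
  have hM : PolyTime (fun w : (Item × List Item) × State => w.2.1) := h.snd.fst
  have hC : PolyTime (fun w : (Item × List Item) × State => w.1.1.1) := h.fst.fst.fst
  have hin : PolyTime (fun w : (Item × List Item) × State =>
      (big D w.2.1 w.1.1.1).elim (sub w.2.1 w.1.1.1)
        (fun _ => ([] : Mat))) :=
    PolyTime.optElim (g := fun _ : ℕ × ((Item × List Item) × State) => ([] : Mat))
      (polyTime_big D hM hC) (polyTime_sub hM hC) (PolyTime.const _)
  refine (PolyTime.listCase (l := fun s : State => s.2.1) (f := fun _ : State => ([] : Mat))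
    hs.snd.fst (PolyTime.const _) hin).congr ?_
  rintro ⟨M, items, best⟩
  cases items with
  | nil => rfl
  | cons x r =>
    simp only [uncons, Option.elim, query]
    cases big D M x.1 <;> rfl

theorem polyTime_next (D : ℕ) : PolyTime (fun z : State × List Bool => next D z) := by
  have hs : PolyTime (fun z : State × List Bool => z) := PolyTime.id
  have h : PolyTime (fun w : (Item × List Item) × (State × List Bool) => w) := PolyTime.id
  have h2 : PolyTime (fun w : ℕ × ((Item × List Item) × (State × List Bool)) => w) := PolyTime.id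
  have hM : PolyTime (fun w : (Item × List Item) × (State × List Bool) => w.2.1.1) :=
    h.snd.fst.fst
  have hC : PolyTime (fun w : (Item × List Item) × (State × List Bool) => w.1.1.1) :=
    h.fst.fst.fst
  have hI : PolyTime (fun w : (Item × List Item) × (State × List Bool) => w.1.1.2) :=
    h.fst.fst.snd
  have hbest : PolyTime (fun w : (Item × List Item) × (State × List Bool) => w.2.1.2.2) :=
    h.snd.fst.snd.snd
  -- the case of a task without a vertex of large degree
  have hA : PolyTime (fun w : (Item × List Item) × (State × List Bool) =>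
      (Sum.inl (w.2.1.1, w.1.2, better w.2.1.2.2 (w.1.1.2 ++ pick w.1.1.1 w.2.2)) :
        State ⊕ List Bool)) :=
    PolyTime.inl'.comp (hM.pair (h.fst.snd.pair
      (polyTime_better hbest (hI.append (polyTime_pick hC h.snd.snd)))))
  -- branching
  have hv : PolyTime (fun w : ℕ × ((Item × List Item) × (State × List Bool)) => w.1) := h2.fst
  have hB : PolyTime (fun w : ℕ × ((Item × List Item) × (State × List Bool)) =>
      (Sum.inl (w.2.2.1.1, (del w.1 w.2.1.1.1, w.2.1.1.2) ::
        (nbr w.2.2.1.1 w.1 w.2.1.1.1, w.1 :: w.2.1.1.2) :: w.2.1.2, w.2.2.1.2.2) :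
        State ⊕ List Bool)) :=
    PolyTime.inl'.comp ((hM.comp h2.snd).pair
      ((PolyTime.cons ((polyTime_del hv (hC.comp h2.snd)).pair (hI.comp h2.snd))
        (PolyTime.cons ((polyTime_nbr (hM.comp h2.snd) hv (hC.comp h2.snd)).pair
          (PolyTime.cons hv (hI.comp h2.snd))) h2.snd.fst.snd)).pair (hbest.comp h2.snd)))
  have hin : PolyTime (fun w : (Item × List Item) × (State × List Bool) =>
      (big D w.2.1.1 w.1.1.1).elim
        (Sum.inl (w.2.1.1, w.1.2, better w.2.1.2.2 (w.1.1.2 ++ pick w.1.1.1 w.2.2)) :
          State ⊕ List Bool)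
        (fun v => (Sum.inl (w.2.1.1, (del v w.1.1.1, w.1.1.2) ::
          (nbr w.2.1.1 v w.1.1.1, v :: w.1.1.2) :: w.1.2, w.2.1.2.2) : State ⊕ List Bool))) :=
    PolyTime.optElim (polyTime_big D hM hC) hA hB
  -- the empty stack
  have hr : PolyTime (fun z : State × List Bool => List.range z.1.1.length) := by
    have h3 : PolyTime (fun z : State × List Bool => UNat.ofNat z.1.1.length) :=
      PolyTime.lengthU hs.fst.fst
    exact PolyTime.rangeU h3
  have h4 : PolyTime (fun w : (State × List Bool) × ℕ => w) := PolyTime.id
  have hN : PolyTime (fun z : State × List Bool =>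
      (Sum.inr ((List.range z.1.1.length).map (fun i => decide (i ∈ z.1.2.2))) :
        State ⊕ List Bool)) :=
    PolyTime.inr'.comp (PolyTime.map hr
      (g := fun w : (State × List Bool) × ℕ => decide (w.2 ∈ w.1.1.2.2))
      (PolyTime.mem h4.snd h4.fst.fst.snd.snd))
  refine (PolyTime.listCase (l := fun z : State × List Bool => z.1.2.1)
    hs.fst.snd.fst hN hin).congr ?_
  rintro ⟨⟨M, items, best⟩, b⟩
  cases items with
  | nil => rfl
  | cons x r =>
    simp only [uncons, Option.elim, next]
    cases big D M x.1 <;> rfl

end Pool.Agent.H66.MB
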