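import Pool.Agent.H66.MB.CoreDef
import Pool.Agent.H66.MB.BrPoly

/-!
# The reduction is computed in polynomial time

`D, a, b` are constants. See `BrPoly` and `GadPoly` for the methods (`PolyTime.range` needs a
polynomial bound: `cN D a b k ≤ b * (k + D + 1) + a` and `M.length ≤ size M`).
-/

set_option autoImplicit false

namespace Pool.Agent.H66.MB

open Pool.Agent.H80.Poly

private theorem pt_cN (D a b : ℕ) : PolyTime (fun M : Mat => cN D a b M.length) := by
  have h : PolyTime (fun M : Mat => M.length) := PolyTime.length PolyTime.id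
  exact ((((PolyTime.const b).mul ((h.add (PolyTime.const D)).add (PolyTime.const 1))).add
    (PolyTime.const a)).sub (PolyTime.const 1)).div (PolyTime.const a)

private theorem cN_bd (D a b : ℕ) (M : Mat) :
    cN D a b M.length ≤ b * (size M + D + 1) + a := by
  unfold cN
  have h1 := length_le_size M
  have h2 : b * (M.length + D + 1) ≤ b * (size M + D + 1) :=
    Nat.mul_le_mul_left b (by omega)
  have h3 := Nat.div_le_self (b * (M.length + D + 1) + a - 1) a
  omega

private theorem pt_rgN (D a b : ℕ) :
    PolyTime (fun M : Mat => List.range (cN D a b M.length)) :=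
  PolyTime.range (pt_cN D a b) ⟨fun n => b * (n + D + 1) + a,
    (((PB.const b).mul ((PB.id.add (PB.const D)).add (PB.const 1))).add (PB.const a)),
    fun M => cN_bd D a b M⟩

/-- the adjacency of `cliq` -/
private def ce (w : (Mat × ℕ) × ℕ) : Bool :=
  if w.1.2 < w.1.1.length then (if w.2 < w.1.1.length then adj w.1.1 w.1.2 w.2 else false)
    else (if w.2 < w.1.1.length then false else decide (w.1.2 ≠ w.2))

private theorem pt_ce : PolyTime ce := by
  have hw : PolyTime (fun w : (Mat × ℕ) × ℕ => w) := PolyTime.id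
  have hM : PolyTime (fun w : (Mat × ℕ) × ℕ => w.1.1) := hw.fst.fst
  have hp : PolyTime (fun w : (Mat × ℕ) × ℕ => w.1.2) := hw.fst.snd
  have hq : PolyTime (fun w : (Mat × ℕ) × ℕ => w.2) := hw.snd
  have hL : PolyTime (fun w : (Mat × ℕ) × ℕ => w.1.1.length) := hM.length
  have c1 := PolyTime.lt hp hL
  have c2 := PolyTime.lt hq hL
  unfold ce
  refine PolyTime.ite (c := fun w : (Mat × ℕ) × ℕ => w.1.2 < w.1.1.length) c1 ?_ ?_
  · exact PolyTime.ite (c := fun w : (Mat × ℕ) × ℕ => w.2 < w.1.1.length) c2
      (polyTime_adj hM hp hq) (PolyTime.const false)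
  · exact PolyTime.ite (c := fun w : (Mat × ℕ) × ℕ => w.2 < w.1.1.length) c2
      (PolyTime.const false) (polyTime_ne hp hq)

theorem polyTime_cliq (D a b : ℕ) : PolyTime (fun M : Mat => cliq M (cN D a b M.length)) := by
  have hw : PolyTime (fun w : Mat × ℕ => w) := PolyTime.id
  have hR := pt_rgN D a b
  have h1 := PolyTime.map hR (g := fun w : Mat × ℕ =>
    (List.range (cN D a b w.1.length)).map (fun j => ce (w, j)))
    (PolyTime.map (hR.comp hw.fst) (g := fun w : (Mat × ℕ) × ℕ => ce w) pt_ce)
  exact h1

end Pool.Agent.H66.MB
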