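import Mathlib

/-!
# Limits of the exponents (plain real analysis)

PROOFS. `⌊κ d⌋₊ / d → κ` (`tendsto_nat_floor_mul_div_atTop` or squeeze `κ d - 1 < ⌊κ d⌋₊ ≤ κ d`).
`lim_x`: divide numerator and denominator by `d`: `x = q / (q + 1 - D / d)` with
`q = ⌊κ d⌋₊ / d → κ`. `lim_y`: `(r + 1) / ((q + (1 - r) / d) r - 1) → (r + 1) / (κ r - 1)`
(`κ r > 1`). `lim_r`: `(r + 1) / (κ r - 1) → 1 / κ` as `r → ∞` along the odd numbers `2 k + 3`.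
`exists_pow`: `(1 + η) ^ (D + 1) * η ≥ 1` for large `D`.
-/

set_option autoImplicit false

namespace Pool.Agent.H66.MB

open Filter Topology

/-- exponent of the upper bound -/
noncomputable def xx (κ : ℝ) (D d : ℕ) : ℝ := (⌊κ * d⌋₊ : ℝ) / (⌊κ * d⌋₊ + d - D)

/-- exponent of the lower bound -/
noncomputable def yy (κ : ℝ) (r d : ℕ) : ℝ :=
  1 + (r + 1) * d / (((⌊κ * d⌋₊ : ℝ) + 1 - r) * r - d)

/-- the floor quotient -/
private theorem lim_q (κ : ℝ) (hκ : 1 ≤ κ) :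
    Tendsto (fun d : ℕ => (⌊κ * (d : ℝ)⌋₊ : ℝ) / (d : ℝ)) atTop (𝓝 κ) :=
  (tendsto_nat_floor_mul_div_atTop (R := ℝ) (a := κ) (by linarith)).comp
    tendsto_natCast_atTop_atTop

private theorem lim_c (c : ℝ) : Tendsto (fun d : ℕ => c / (d : ℝ)) atTop (𝓝 0) :=
  tendsto_const_div_atTop_nhds_zero_nat c

theorem lim_x (κ : ℝ) (hκ : 1 ≤ κ) (D : ℕ) :
    Tendsto (fun d => xx κ D d) atTop (𝓝 (κ / (κ + 1))) := by
  have h1 := lim_q κ hκ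
  have h2 := lim_c (D : ℝ)
  have h3 : Tendsto (fun d : ℕ => ((⌊κ * (d : ℝ)⌋₊ : ℝ) / (d : ℝ)) /
      (((⌊κ * (d : ℝ)⌋₊ : ℝ) / (d : ℝ)) + 1 - (D : ℝ) / (d : ℝ))) atTop
      (𝓝 (κ / (κ + 1 - 0))) :=
    h1.div ((h1.add_const 1).sub h2) (by linarith)
  rw [sub_zero] at h3
  refine h3.congr' ?_
  filter_upwards [eventually_gt_atTop 0] with d hd
  have hd' : (0 : ℝ) < (d : ℝ) := by exact_mod_cast hd
  have hne : (d : ℝ) ≠ 0 := hd'.ne'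
  unfold xx
  rw [show ((⌊κ * (d : ℝ)⌋₊ : ℝ) / (d : ℝ)) + 1 - (D : ℝ) / (d : ℝ) =
    ((⌊κ * (d : ℝ)⌋₊ : ℝ) + d - D) / (d : ℝ) by field_simp]
  rw [div_div_div_cancel_right₀ hne]

theorem lim_y (κ : ℝ) (hκ : 1 ≤ κ) (r : ℕ) (hr : 3 ≤ r) :
    Tendsto (fun d => yy κ r d) atTop (𝓝 (1 + (r + 1) / (κ * r - 1))) := by
  have hr' : (3 : ℝ) ≤ (r : ℝ) := by exact_mod_cast hr
  have hpos : 0 < κ * r - 1 := by nlinarith
  have h1 := lim_q κ hκ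
  have h2 := lim_c (1 - (r : ℝ))
  have h3 : Tendsto (fun d : ℕ => 1 + ((r : ℝ) + 1) /
      ((((⌊κ * (d : ℝ)⌋₊ : ℝ) / (d : ℝ)) + (1 - (r : ℝ)) / (d : ℝ)) * r - 1)) atTop
      (𝓝 (1 + ((r : ℝ) + 1) / ((κ + 0) * r - 1))) := by
    refine Tendsto.const_add 1 (tendsto_const_nhds.div (((h1.add h2).mul_const _).sub_const 1) ?_)
    rw [add_zero]
    exact hpos.ne'
  rw [add_zero] at h3
  refine h3.congr' ?_
  filter_upwards [eventually_gt_atTop 0] with d hd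
  have hd' : (0 : ℝ) < (d : ℝ) := by exact_mod_cast hd
  have hne : (d : ℝ) ≠ 0 := hd'.ne'
  unfold yy
  congr 1
  rw [show (((⌊κ * (d : ℝ)⌋₊ : ℝ) / (d : ℝ)) + (1 - (r : ℝ)) / (d : ℝ)) * r - 1 =
    (((⌊κ * (d : ℝ)⌋₊ : ℝ) + 1 - r) * r - d) / (d : ℝ) by field_simp; ring]
  rw [div_div_eq_mul_div]

theorem lim_r (κ : ℝ) (hκ : 1 ≤ κ) :
    Tendsto (fun k : ℕ => 1 + ((2 * k + 3 : ℝ) + 1) / (κ * (2 * k + 3) - 1)) atTop
      (𝓝 ((κ + 1) / κ)) := by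
  have hκ0 : 0 < κ := by linarith
  have h2 : Tendsto (fun k : ℕ => (2 * (k : ℝ) + 3)) atTop atTop := by
    apply tendsto_atTop_add_const_right
    exact tendsto_natCast_atTop_atTop.const_mul_atTop (by norm_num)
  have h4 : Tendsto (fun k : ℕ => (2 * (k : ℝ) + 3)⁻¹) atTop (𝓝 0) :=
    tendsto_inv_atTop_zero.comp h2
  have h3 : Tendsto (fun k : ℕ => 1 + (1 + (2 * (k : ℝ) + 3)⁻¹) /
      (κ - (2 * (k : ℝ) + 3)⁻¹)) atTop (𝓝 (1 + (1 + 0) / (κ - 0))) := by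
    refine Tendsto.const_add 1 ((h4.const_add 1).div (tendsto_const_nhds.sub h4) ?_)
    rw [sub_zero]
    exact hκ0.ne'
  have h5 : 1 + (1 + 0) / (κ - 0) = (κ + 1) / κ := by
    rw [add_zero, sub_zero, add_div, div_self hκ0.ne']
  rw [h5] at h3
  refine h3.congr fun k => ?_
  have hk : (0 : ℝ) < 2 * (k : ℝ) + 3 := by positivity
  have hk3 : (3 : ℝ) ≤ 2 * (k : ℝ) + 3 := by
    have : (0 : ℝ) ≤ k := Nat.cast_nonneg k
    linarith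
  have hne : κ * (2 * (k : ℝ) + 3) - 1 ≠ 0 := by nlinarith
  congr 1
  rw [show 1 + (2 * (k : ℝ) + 3)⁻¹ = ((2 * (k : ℝ) + 3) + 1) / (2 * (k : ℝ) + 3) by
    field_simp]
  rw [show κ - (2 * (k : ℝ) + 3)⁻¹ = (κ * (2 * (k : ℝ) + 3) - 1) / (2 * (k : ℝ) + 3) by
    field_simp]
  rw [div_div_div_cancel_right₀ hk.ne']

theorem exists_pow (η : ℝ) (hη : 0 < η) :
    ∃ D : ℕ, (1 + η) ^ (D + 1) + 1 ≤ (1 + η) ^ (D + 2) := by
  obtain ⟨n, hn⟩ := exists_nat_gt (1 / (η * η))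
  refine ⟨n, ?_⟩
  have hb : 1 + ((n + 1 : ℕ) : ℝ) * η ≤ (1 + η) ^ (n + 1) :=
    one_add_mul_le_pow (by linarith) (n + 1)
  have h1 : 1 < (n : ℝ) * (η * η) := by
    rw [div_lt_iff₀ (by positivity)] at hn
    exact hn
  have h2 : 1 ≤ η * (1 + η) ^ (n + 1) := by
    have h3 : η * (1 + ((n + 1 : ℕ) : ℝ) * η) ≤ η * (1 + η) ^ (n + 1) :=
      mul_le_mul_of_nonneg_left hb hη.le
    push_cast at h3
    nlinarith
  rw [show n + 2 = (n + 1) + 1 by rfl, pow_succ (1 + η) (n + 1)]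
  nlinarith

end Pool.Agent.H66.MB
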