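import Pool.Agent.H66.MB.EpsL
import Pool.Agent.H66.MB.LimX

/-!
# The bound in terms of the largest induced subgraph of small maximum degree

PROOF of `inst`. Let `c = 1 + eps allG + η`, so `InTime allG c` (`inTime_of_gt`) and
`ITM (fun _ => True) c` (`inTime_all`): a clean program `A0` with cost `C c ^ n`. Choose `D` with
`(1 + η / 2) ^ (D + 1) + 1 ≤ (1 + η / 2) ^ (D + 2)` (`exists_pow`). `appA` with `ρ = 1 + η / 2` gives
`p`, `P` with cost `2 ρ ^ n (C c ^ h + P(n) + C)`, for every `h` such that every list `L` of distinct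
vertices with inner degrees at most `D` has length at most `h`. For `M = mat G` this follows from the
hypothesis on `G`: take the finset of the elements of `Fin n` whose value is in `L`
(`dg_mat_finset`). As `P(n) ≤ a θ ^ n` with `θ = (1 + η) / (1 + η / 2) > 1` (`poly_le`) and
`c ^ h ≥ 1`, the cost is at most `K (1 + η) ^ n c ^ h`. Then `runs_iff`, `SolC.toM`.
-/

set_option autoImplicit false

namespace Pool.Agent.H66.MB

open Pool.Agent.H80.Poly

private theorem inst_card {n : ℕ} (C : List ℕ) (hC : C.Nodup) (hn : ∀ x ∈ C, x < n) :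
    (Finset.univ.filter (fun u : Fin n => (u : ℕ) ∈ C)).card = C.length := by
  rw [← List.toFinset_card_of_nodup hC, ← Finset.card_image_of_injective _ Fin.val_injective]
  congr 1
  ext x
  simp only [Finset.mem_image, Finset.mem_filter, Finset.mem_univ, true_and, List.mem_toFinset]
  constructor
  · rintro ⟨u, hu, rfl⟩
    exact hu
  · intro hx
    exact ⟨⟨x, hn x hx⟩, hx, rfl⟩

theorem inst (η : ℝ) (hη : 0 < η) : ∃ (D : ℕ) (p : Prog) (K : ℝ),
    ∀ (n : ℕ) (G : SimpleGraph (Fin n)) (h : ℕ),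
      (∀ C : Finset (Fin n), (∀ v ∈ C, (G.neighborSet v ∩ C).ncard ≤ D) → C.card ≤ h) →
      Runs p G (K * (1 + η) ^ n * (1 + eps allG + η) ^ h) := by
  have he := eps_nonneg allG
  have hc1 : 1 ≤ 1 + eps allG + η := by linarith
  obtain ⟨A0, C0, hC0, hA⟩ := (inTime_all hc1).mp (inTime_of_gt (by linarith))
  obtain ⟨D, hD⟩ := exists_pow (η / 2) (by linarith)
  obtain ⟨p, P, hp⟩ := appA D (1 + η / 2) (by linarith) hD A0 C0 (1 + eps allG + η) hC0 hc1
    (fun M hM => hA M hM trivial)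
  have hρ : (0 : ℝ) < 1 + η / 2 := by linarith
  have hθ : 1 < (1 + η) / (1 + η / 2) := by
    rw [lt_div_iff₀ hρ]
    linarith
  obtain ⟨a, ha, haP⟩ := poly_le P _ hθ
  refine ⟨D, p, 2 * (C0 + a + C0), fun n G h hG => ?_⟩
  rw [runs_iff]
  have key := hp (mat G) (valid_mat G) h (fun C hC hn hdg => by
    rw [mat_length] at hn
    rw [← inst_card C hC hn]
    refine hG _ fun v hv => ?_
    have hv' : (v : ℕ) ∈ C := by simpa using hv
    have h1 := hdg v hv'
    rw [dg_mat_finset G C hC hn v] at h1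
    refine le_trans (le_of_eq ?_) h1
    congr 1
    ext u
    simp)
  rw [mat_length] at key
  refine SolM.mono key.toM ?_
  set ρ : ℝ := 1 + η / 2 with hρd
  set c : ℝ := 1 + eps allG + η with hcd
  have e1 : ρ * ((1 + η) / ρ) = 1 + η := by
    field_simp
  have h1 : 1 ≤ ((1 + η) / ρ) ^ n := one_le_pow₀ hθ.le
  have h2 : 1 ≤ c ^ h := one_le_pow₀ hc1
  have h3 : C0 * c ^ h ≤ C0 * (((1 + η) / ρ) ^ n * c ^ h) := by
    refine mul_le_mul_of_nonneg_left ?_ hC0
    nlinarith
  have h4 : ((P.eval n : ℕ) : ℝ) ≤ a * (((1 + η) / ρ) ^ n * c ^ h) := by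
    refine (haP n).trans (mul_le_mul_of_nonneg_left ?_ ha)
    nlinarith
  have h5 : C0 ≤ C0 * (((1 + η) / ρ) ^ n * c ^ h) := by
    refine le_mul_of_one_le_right hC0 ?_
    nlinarith
  have h6 : (0 : ℝ) ≤ ρ ^ n := by positivity
  calc 2 * ρ ^ n * (C0 * c ^ h + (P.eval n : ℕ) + C0)
      ≤ 2 * ρ ^ n * (C0 * (((1 + η) / ρ) ^ n * c ^ h) + a * (((1 + η) / ρ) ^ n * c ^ h) +
        C0 * (((1 + η) / ρ) ^ n * c ^ h)) := by
        refine mul_le_mul_of_nonneg_left ?_ (by positivity)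
        linarith
    _ = 2 * (C0 + a + C0) * (ρ ^ n * ((1 + η) / ρ) ^ n) * c ^ h := by ring
    _ = 2 * (C0 + a + C0) * (1 + η) ^ n * c ^ h := by rw [← mul_pow, e1]

end Pool.Agent.H66.MB
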