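import Pool.Agent.H66.MB.Branch

/-!
# Two applications of the branching algorithm

PROOF of `appA`. `Φ k = (2 ρ ^ k - 1) X` with `X = c b ^ h + P(n) + t0` (`P` from `branch`,
`n = M.length`, `t0 = c` as `A0` solves the empty matrix with cost `c b ^ 0`). `Φ` is monotone as
`ρ ≥ 1`, `X ≥ 0`. Leaves: a candidate set `C` with inner degrees `≤ D` has at most `h` elements,
`sub M C` is valid of length `|C|`, so the cost is at most `c b ^ |C| ≤ c b ^ h` and
`c b ^ h + P(n) ≤ X ≤ Φ |C|`. Branchings: `ρ ^ (k - 1) + ρ ^ (k - (D + 2)) ≤ ρ ^ k` (multiply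
`hρ` by `ρ ^ (k - (D + 2))`), so
`Φ (k-1) + Φ (k-(D+2)) + P(n) + t0 ≤ (2 ρ ^ k - 2) X + X = Φ k`.
The result is `Φ n + P(n) + t0 ≤ 2 ρ ^ n X ≤ 2 ρ ^ n (c b ^ h + P(n) + c)`.

PROOF of `appB`. `Φ k = (2 b ^ k - 1) X` with `X = c + P(n) + t0`, `t0 = c`. Leaves: `sub M C` has all
degrees `≤ D` (`dg_sub`), the cost is at most `c b ^ k`, and
`c b ^ k + P(n) ≤ (2 b ^ k - 1) (c + P(n))` as `2 b ^ k - 1 ≥ b ^ k ≥ 1`. Branchings as above.
-/

set_option autoImplicit false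

namespace Pool.Agent.H66.MB

open Pool.Agent.H80.Poly

private theorem app_valid_nil : Valid [] := by
  refine ⟨fun r hr => ?_, fun i j => ?_, fun i => ?_⟩
  · simp at hr
  · simp [adj]
  · simp [adj]

private theorem app_mono {p : Prog} {M : Mat} {t t' : ℝ} (h : SolC p M t) (ht : t ≤ t') :
    SolC p M t' := by
  obtain ⟨b, s, h1, h2, h3⟩ := h
  exact ⟨b, s, h1, h2, h3.trans ht⟩

private theorem app_phi {ρ X : ℝ} (h1 : 1 ≤ ρ) (hX : 0 ≤ X) :
    Monotone fun k : ℕ => (2 * ρ ^ k - 1) * X := by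
  intro i j hij
  have h2 : ρ ^ i ≤ ρ ^ j := pow_le_pow_right₀ h1 hij
  show (2 * ρ ^ i - 1) * X ≤ (2 * ρ ^ j - 1) * X
  exact mul_le_mul_of_nonneg_right (by linarith) hX

private theorem app_step {D : ℕ} {ρ X w : ℝ} (h1 : 1 ≤ ρ) (hX : 0 ≤ X) (hw : w ≤ X)
    (hρ : ρ ^ (D + 1) + 1 ≤ ρ ^ (D + 2)) (k : ℕ) (hk : D + 2 ≤ k) :
    (2 * ρ ^ (k - 1) - 1) * X + (2 * ρ ^ (k - (D + 2)) - 1) * X + w ≤ (2 * ρ ^ k - 1) * X := by
  obtain ⟨j, rfl⟩ := Nat.exists_eq_add_of_le hk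
  have e1 : D + 2 + j - 1 = j + (D + 1) := by omega
  have e2 : D + 2 + j - (D + 2) = j := by omega
  have e3 : D + 2 + j = j + (D + 2) := by omega
  rw [e1, e2, e3]
  have h2 : ρ ^ (j + (D + 1)) + ρ ^ j ≤ ρ ^ (j + (D + 2)) := by
    have h3 : 0 ≤ ρ ^ j := pow_nonneg (by linarith) j
    have h4 := mul_le_mul_of_nonneg_left hρ h3
    rw [pow_add ρ j (D + 1), pow_add ρ j (D + 2)]
    linarith
  have h3 := mul_le_mul_of_nonneg_right h2 hX
  nlinarith [h3]

theorem appA (D : ℕ) (ρ : ℝ) (h1 : 1 ≤ ρ) (hρ : ρ ^ (D + 1) + 1 ≤ ρ ^ (D + 2)) (A0 : Prog)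
    (c b : ℝ) (hc : 0 ≤ c) (hb : 1 ≤ b)
    (hA : ∀ M, Valid M → SolC A0 M (c * b ^ M.length)) :
    ∃ (p : Prog) (P : Polynomial ℕ), ∀ (M : Mat), Valid M → ∀ h : ℕ,
      (∀ C : List ℕ, C.Nodup → (∀ x ∈ C, x < M.length) → (∀ v ∈ C, dg M C v ≤ D) →
        C.length ≤ h) →
      SolC p M (2 * ρ ^ M.length * (c * b ^ h + (P.eval M.length : ℕ) + c)) := by
  obtain ⟨p, P, hp⟩ := branch D A0
  refine ⟨p, P, fun M hM h hC => ?_⟩
  have hPn : (0 : ℝ) ≤ (P.eval M.length : ℕ) := Nat.cast_nonneg _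
  have hbh : (1 : ℝ) ≤ b ^ h := one_le_pow₀ hb
  have hcb : 0 ≤ c * b ^ h := mul_nonneg hc (by linarith)
  have hX : 0 ≤ c * b ^ h + (P.eval M.length : ℕ) + c := by linarith
  have ht0 : SolC A0 [] c := by
    have h2 := hA [] app_valid_nil
    simpa using h2
  have key := hp M hM c (fun k => (2 * ρ ^ k - 1) * (c * b ^ h + (P.eval M.length : ℕ) + c)) ht0
    (app_phi h1 hX) ?_ ?_
  · refine app_mono key ?_
    linarith
  · intro C hnd hlt hdg
    have hlen := hC C hnd hlt hdg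
    refine ⟨c * b ^ C.length, ?_, ?_⟩
    · have h2 := hA (sub M C) (valid_sub hM C)
      rwa [sub_length] at h2
    · have h3 : b ^ C.length ≤ b ^ h := pow_le_pow_right₀ hb hlen
      have h4 : c * b ^ C.length ≤ c * b ^ h := mul_le_mul_of_nonneg_left h3 hc
      have h5 : (1 : ℝ) ≤ ρ ^ C.length := one_le_pow₀ h1
      have h6 : 1 * (c * b ^ h + (P.eval M.length : ℕ) + c) ≤
          (2 * ρ ^ C.length - 1) * (c * b ^ h + (P.eval M.length : ℕ) + c) :=
        mul_le_mul_of_nonneg_right (by linarith) hX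
      show c * b ^ C.length + (P.eval M.length : ℕ) ≤
        (2 * ρ ^ C.length - 1) * (c * b ^ h + (P.eval M.length : ℕ) + c)
      linarith
  · intro k hk _
    have h2 := app_step h1 hX
      (show (P.eval M.length : ℕ) + c ≤ c * b ^ h + (P.eval M.length : ℕ) + c by linarith) hρ k hk
    show (2 * ρ ^ (k - 1) - 1) * (c * b ^ h + (P.eval M.length : ℕ) + c) +
      (2 * ρ ^ (k - (D + 2)) - 1) * (c * b ^ h + (P.eval M.length : ℕ) + c) +
      (P.eval M.length : ℕ) + c ≤ (2 * ρ ^ k - 1) * (c * b ^ h + (P.eval M.length : ℕ) + c)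
    linarith

theorem appB (D : ℕ) (b : ℝ) (h1 : 1 ≤ b) (hb : b ^ (D + 1) + 1 ≤ b ^ (D + 2)) (A0 : Prog)
    (c : ℝ) (hc : 0 ≤ c)
    (hA : ∀ M, Valid M → DegLe M D → SolC A0 M (c * b ^ M.length)) :
    ∃ (p : Prog) (P : Polynomial ℕ), ∀ (M : Mat), Valid M →
      SolC p M (2 * b ^ M.length * (c + (P.eval M.length : ℕ) + c)) := by
  obtain ⟨p, P, hp⟩ := branch D A0
  refine ⟨p, P, fun M hM => ?_⟩
  have hPn : (0 : ℝ) ≤ (P.eval M.length : ℕ) := Nat.cast_nonneg _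
  have hX : 0 ≤ c + (P.eval M.length : ℕ) + c := by linarith
  have ht0 : SolC A0 [] c := by
    have h2 := hA [] app_valid_nil (fun v hv => by simp at hv)
    simpa using h2
  have key := hp M hM c (fun k => (2 * b ^ k - 1) * (c + (P.eval M.length : ℕ) + c)) ht0
    (app_phi h1 hX) ?_ ?_
  · refine app_mono key ?_
    linarith
  · intro C _ _ hdg
    refine ⟨c * b ^ C.length, ?_, ?_⟩
    · have h2 := hA (sub M C) (valid_sub hM C) (fun v hv => by
        rw [sub_length] at hv ⊢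
        rw [dg_sub M C hv]
        exact hdg _ (List.getElem_mem hv))
      rwa [sub_length] at h2
    · have h5 : (1 : ℝ) ≤ b ^ C.length := one_le_pow₀ h1
      show c * b ^ C.length + (P.eval M.length : ℕ) ≤
        (2 * b ^ C.length - 1) * (c + (P.eval M.length : ℕ) + c)
      have h6 : 1 * (P.eval M.length : ℕ) ≤ (2 * b ^ C.length - 1) * ((P.eval M.length : ℕ) : ℝ) :=
        mul_le_mul_of_nonneg_right (by linarith) hPn
      have h7 : b ^ C.length * c ≤ (2 * b ^ C.length - 1) * c :=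
        mul_le_mul_of_nonneg_right (by linarith) hc
      have h8 : 0 ≤ (2 * b ^ C.length - 1) * c := mul_nonneg (by linarith) hc
      linarith
  · intro k hk _
    have h2 := app_step h1 hX
      (show (P.eval M.length : ℕ) + c ≤ c + (P.eval M.length : ℕ) + c by linarith) hb k hk
    show (2 * b ^ (k - 1) - 1) * (c + (P.eval M.length : ℕ) + c) +
      (2 * b ^ (k - (D + 2)) - 1) * (c + (P.eval M.length : ℕ) + c) +
      (P.eval M.length : ℕ) + c ≤ (2 * b ^ k - 1) * (c + (P.eval M.length : ℕ) + c)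
    linarith

end Pool.Agent.H66.MB
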