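import Pool.Agent.H66.MB.App

/-!
# A first algorithm for all graphs

PROOF. A valid matrix with `DegLe M 0` has no `true` entry (`adj_lt`), so the all-ones vector
`M.map (fun _ => true)` is a maximum vector. It is computed in polynomial time (`PolyTime.map`,
`PolyTime.const`), with cost at most `P1.eval (size M)`, `size M ≤ n (6 n + 1)`
(`size_mat_le`), which is at most `c 2 ^ n` for some `c` (`poly_le`: every polynomial is
`O(b ^ n)` for `b > 1`). `appB` with `D = 0`, `b = 2` (`2 + 1 ≤ 4`) gives the cost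
`2 * 2 ^ n (2 c + P(n)) ≤ C 3 ^ n`, as `P(n) 2 ^ n = O(3 ^ n)`.
`poly_le`: for instance `Polynomial` bounds by `a (n+1) ^ k` and
`tendsto_pow_const_div_const_pow_of_one_lt`, then the sequence `P(n) / b ^ n` is bounded.
-/

set_option autoImplicit false

namespace Pool.Agent.H66.MB

open Pool.Agent.H80.Poly

private theorem pow_le_c (b : ℝ) (hb : 1 < b) (k : ℕ) : ∃ c : ℝ, 0 ≤ c ∧
    ∀ n : ℕ, (n : ℝ) ^ k ≤ c * b ^ n := by
  have h := (tendsto_pow_const_div_const_pow_of_one_lt k hb).bddAbove_range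
  obtain ⟨c, hc⟩ := h
  refine ⟨max c 0, le_max_right _ _, fun n => ?_⟩
  have h1 : (n : ℝ) ^ k / b ^ n ≤ c := hc ⟨n, rfl⟩
  have hp : 0 < b ^ n := pow_pos (by linarith) n
  rw [div_le_iff₀ hp] at h1
  exact h1.trans (mul_le_mul_of_nonneg_right (le_max_left _ _) hp.le)

theorem poly_le (P : Polynomial ℕ) (b : ℝ) (hb : 1 < b) : ∃ c : ℝ, 0 ≤ c ∧
    ∀ n : ℕ, ((P.eval n : ℕ) : ℝ) ≤ c * b ^ n := by
  induction P using Polynomial.induction_on' with
  | add p q hp hq =>
    obtain ⟨c1, h1, h1'⟩ := hp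
    obtain ⟨c2, h2, h2'⟩ := hq
    refine ⟨c1 + c2, add_nonneg h1 h2, fun n => ?_⟩
    rw [Polynomial.eval_add, Nat.cast_add, add_mul]
    exact add_le_add (h1' n) (h2' n)
  | monomial k a =>
    obtain ⟨c, hc, h⟩ := pow_le_c b hb k
    refine ⟨a * c, mul_nonneg (Nat.cast_nonneg a) hc, fun n => ?_⟩
    rw [Polynomial.eval_monomial, Nat.cast_mul, Nat.cast_pow, mul_assoc]
    exact mul_le_mul_of_nonneg_left (h n) (Nat.cast_nonneg a)

private theorem deg0 {M : Mat} (hM : Valid M) (h0 : DegLe M 0) (i j : ℕ) : adj M i j = false := by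
  by_contra h
  rw [Bool.not_eq_false] at h
  obtain ⟨hi, hj⟩ := adj_lt hM h
  have h1 := h0 i hi
  unfold dg at h1
  have h2 : j ∈ (List.range M.length).filter (fun u => adj M i u) := by
    rw [List.mem_filter]
    exact ⟨List.mem_range.mpr hj, h⟩
  have h3 := List.length_pos_of_mem h2
  omega

private theorem ones_max {M : Mat} (hM : Valid M) (h0 : DegLe M 0) :
    MaxV M (M.map (fun _ => true)) := by
  refine ⟨by simp, fun i j _ _ => deg0 hM h0 i j, fun b' hb' _ => ?_⟩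
  have h1 : (M.map (fun _ => true)).count true = M.length := by
    rw [List.count_eq_length.mpr]
    · simp
    · intro x hx
      simp only [List.mem_map] at hx
      obtain ⟨_, _, rfl⟩ := hx
      rfl
  rw [h1, ← hb']
  exact List.count_le_length

private theorem solC_mono {p : Prog} {M : Mat} {t t' : ℝ} (h : SolC p M t) (ht : t ≤ t') :
    SolC p M t' := by
  obtain ⟨b, s, h1, h2, h3⟩ := h
  exact ⟨b, s, h1, h2, h3.trans ht⟩

theorem base : ∃ (p : Prog) (C : ℝ), 0 ≤ C ∧ ∀ M, Valid M → SolC p M (C * 3 ^ M.length) := by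
  have hpt : PolyTime (fun M : Mat => M.map (fun _ => true)) :=
    PolyTime.map PolyTime.id (PolyTime.const true)
  obtain ⟨A0, P1, hA0⟩ := hpt.poly
  have hPB : PB (fun n => P1.eval (n * (2 * (3 * n) + 1))) :=
    PB.evalComp P1 (PB.id.mul (((PB.const 2).mul ((PB.const 3).mul PB.id)).add (PB.const 1)))
  obtain ⟨Q, hQ⟩ := hPB
  obtain ⟨c, hc, hcb⟩ := poly_le Q 2 (by norm_num)
  have hA : ∀ M, Valid M → DegLe M 0 → SolC A0 M (c * 2 ^ M.length) := by
    intro M hM h0
    obtain ⟨n, hn, hex⟩ := hA0 M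
    refine ⟨M.map (fun _ => true), n, ones_max hM h0, hex, ?_⟩
    have h1 : n ≤ Q.eval M.length :=
      hn.trans ((eval_mono P1 (size_mat_le hM)).trans (hQ M.length))
    calc (n : ℝ) ≤ ((Q.eval M.length : ℕ) : ℝ) := by exact_mod_cast h1
      _ ≤ c * 2 ^ M.length := hcb M.length
  obtain ⟨p, P, hp⟩ := appB 0 2 (by norm_num) (by norm_num) A0 c hc hA
  obtain ⟨c2, hc2, hcb2⟩ := poly_le P (3 / 2) (by norm_num)
  refine ⟨p, 4 * c + 2 * c2, by positivity, fun M hM => solC_mono (hp M hM) ?_⟩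
  have h1 := hcb2 M.length
  have h2 : (2 : ℝ) ^ M.length ≤ 3 ^ M.length := pow_le_pow_left₀ (by norm_num) (by norm_num) _
  have h3 : (2 : ℝ) ^ M.length * (3 / 2) ^ M.length = 3 ^ M.length := by
    rw [← mul_pow]; norm_num
  have h4 : (2 : ℝ) ^ M.length * ((P.eval M.length : ℕ) : ℝ) ≤ c2 * 3 ^ M.length := by
    calc (2 : ℝ) ^ M.length * ((P.eval M.length : ℕ) : ℝ)
        ≤ (2 : ℝ) ^ M.length * (c2 * (3 / 2) ^ M.length) :=
          mul_le_mul_of_nonneg_left h1 (by positivity)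
      _ = c2 * ((2 : ℝ) ^ M.length * (3 / 2) ^ M.length) := by ring
      _ = c2 * 3 ^ M.length := by rw [h3]
  have h5 : c * (2 : ℝ) ^ M.length ≤ c * 3 ^ M.length := mul_le_mul_of_nonneg_left h2 hc
  calc 2 * (2 : ℝ) ^ M.length * (c + ((P.eval M.length : ℕ) : ℝ) + c)
      = 4 * (c * 2 ^ M.length) + 2 * (2 ^ M.length * ((P.eval M.length : ℕ) : ℝ)) := by ring
    _ ≤ 4 * (c * 3 ^ M.length) + 2 * (c2 * 3 ^ M.length) := by linarith
    _ = (4 * c + 2 * c2) * 3 ^ M.length := by ring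

end Pool.Agent.H66.MB
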