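import Pool.Agent.H66.MB.MatA

/-!
# The branching algorithm

State: `(M, items, best)`. An item `(C, I)` stands for the task: find the best independent set
`I ∪ J` with `J ⊆ C`. If some vertex of `C` has more than `D` neighbours in `C`, branch on it;
otherwise ask the subroutine for a maximum independent set of the submatrix on `C`.
-/

set_option autoImplicit false

namespace Pool.Agent.H66.MB

open Pool.Agent.H80.Poly

/-- a task: candidates and chosen vertices -/
abbrev Item : Type := List ℕ × List ℕ

/-- matrix, stack of tasks, best set found so far -/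
abbrev State : Type := Mat × List Item × List ℕ

/-- a vertex of `C` with more than `D` neighbours in `C` -/
def big (D : ℕ) (M : Mat) (C : List ℕ) : Option ℕ :=
  (C.filter (fun v => decide (D < dg M C v))).head?

/-- the question asked to the subroutine in the state `s` -/
def query (D : ℕ) (s : State) : Mat :=
  match s.2.1 with
  | [] => []
  | x :: _ => match big D s.1 x.1 with
    | none => sub s.1 x.1
    | some _ => []

/-- the elements of `C` selected by the 0/1 vector `b` -/
def pick (C : List ℕ) (b : List Bool) : List ℕ := ((C.zip b).filter (fun x => x.2)).map Prod.fst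

/-- the longer one -/
def better (a b : List ℕ) : List ℕ := if a.length < b.length then b else a

/-- `C` without `v` -/
def del (v : ℕ) (C : List ℕ) : List ℕ := C.filter (fun u => decide (u ≠ v))

/-- `C` without `v` and its neighbours -/
def nbr (M : Mat) (v : ℕ) (C : List ℕ) : List ℕ :=
  C.filter (fun u => decide (u ≠ v) && !(adj M v u))

/-- the next state or the final result -/
def next (D : ℕ) (z : State × List Bool) : State ⊕ List Bool :=
  match z.1.2.1 with
  | [] => Sum.inr ((List.range z.1.1.length).map (fun i => decide (i ∈ z.1.2.2)))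
  | x :: r => match big D z.1.1 x.1 with
    | none => Sum.inl (z.1.1, r, better z.1.2.2 (x.2 ++ pick x.1 z.2))
    | some v => Sum.inl (z.1.1, (del v x.1, x.2) :: (nbr z.1.1 v x.1, v :: x.2) :: r, z.1.2.2)

theorem big_none {D : ℕ} {M : Mat} {C : List ℕ} (h : big D M C = none) :
    ∀ v ∈ C, dg M C v ≤ D := by
  intro v hv
  have h1 : C.filter (fun v => decide (D < dg M C v)) = [] := List.head?_eq_none_iff.1 h
  rw [List.filter_eq_nil_iff] at h1
  have h2 := h1 v hv
  rw [decide_eq_true_eq] at h2
  omega

theorem big_some {D : ℕ} {M : Mat} {C : List ℕ} {v : ℕ} (h : big D M C = some v) :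
    v ∈ C ∧ D < dg M C v := by
  have h1 : v ∈ C.filter (fun v => decide (D < dg M C v)) := List.mem_of_head? h
  rw [List.mem_filter, decide_eq_true_eq] at h1
  exact h1

/-! ### valid tasks -/

/-- `J` is an independent set -/
def Ind (M : Mat) (J : Finset ℕ) : Prop := ∀ x ∈ J, ∀ y ∈ J, adj M x y = false

/-- a correct task for the matrix `M` -/
def OkI (M : Mat) (x : Item) : Prop :=
  (x.2 ++ x.1).Nodup ∧ (∀ i ∈ x.2 ++ x.1, i < M.length) ∧
    ∀ i ∈ x.2, ∀ j ∈ x.2 ++ x.1, adj M i j = false

/-- an independent set of the matrix `M` as a list -/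
def OkB (M : Mat) (b : List ℕ) : Prop :=
  b.Nodup ∧ (∀ i ∈ b, i < M.length) ∧ ∀ i ∈ b, ∀ j ∈ b, adj M i j = false

/-- a correct state -/
def OkS (s : State) : Prop :=
  Valid s.1 ∧ (∀ x ∈ s.2.1, OkI s.1 x) ∧ OkB s.1 s.2.2 ∧ s.2.1.length ≤ s.1.length + 1

end Pool.Agent.H66.MB
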