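import Pool.Agent.H66.MB.BrDef

/-!
# Correct states are small

PROOF. Let `n = s.1.length`. A number below `n` has size at most `n` (`size_nat_le_self`,
`size_nat_mono`). A list without repetitions of numbers below `n` has length at most `n`
(`List.Nodup.length_le_card`-like: it is a sublist up to permutation of `range n`; for instance
`(l.toFinset ⊆ range n)` and `List.toFinset_card_of_nodup`), so its size is at most `n (2 n + 1)`
(`size_list_le`). The matrix has `n` rows of length `n` with entries of size 1
(`size_bool`, `size_list_le` twice). A task has size at most `2 n (2 n + 1) + 1 + n (2 n + 1)`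
(`size_prod`), there are at most `n + 1` tasks. The answer `a` of the subroutine has length at most
`n` and size at most `3 n`.
See `Pool/Agent/H80/Poly/Lists.lean` for `size_prod`, `size_list_le`, `size_append`, `size_cons`.
-/

set_option autoImplicit false

namespace Pool.Agent.H66.MB

open Pool.Agent.H80.Poly

/-- the length of a list of distinct numbers below `n` -/
theorem length_le_of_nodup {l : List ℕ} {n : ℕ} (h : l.Nodup) (hn : ∀ i ∈ l, i < n) :
    l.length ≤ n := by
  have h1 : l.toFinset ⊆ Finset.range n := by
    intro i hi
    rw [Finset.mem_range]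
    exact hn i (List.mem_toFinset.1 hi)
  have h2 := Finset.card_le_card h1
  rwa [List.toFinset_card_of_nodup h, Finset.card_range] at h2

theorem size_list_nat_le {l : List ℕ} {n : ℕ} (h : l.Nodup) (hn : ∀ i ∈ l, i < n) :
    size l ≤ n * (2 * n + 1) := by
  have h1 : ∀ x ∈ l, size x ≤ n := fun x hx => (size_nat_le_self x).trans (hn x hx).le
  have h2 := size_list_le l h1
  exact h2.trans (Nat.mul_le_mul_right _ (length_le_of_nodup h hn))

theorem size_mat_le {M : Mat} (h : Valid M) :
    size M ≤ M.length * (2 * (3 * M.length) + 1) := by
  refine size_list_le M ?_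
  intro r hr
  have h1 : ∀ x ∈ r, size x ≤ 1 := fun x _ => (size_bool x).le
  have h2 := size_list_le r h1
  rw [h.1 r hr] at h2
  omega

theorem size_state : ∃ Q : Polynomial ℕ, ∀ (s : State) (a : List Bool), OkS s →
    a.length ≤ s.1.length → size s + size a ≤ Q.eval s.1.length := by
  let X : Polynomial ℕ := Polynomial.X
  let QL : Polynomial ℕ := X * (2 * X + 1)
  let QM : Polynomial ℕ := X * (6 * X + 1)
  let QI : Polynomial ℕ := (X + 1) * (2 * (2 * QL + 1 + QL) + 1)
  refine ⟨2 * QM + 1 + (2 * QI + 1 + QL) + 3 * X, ?_⟩
  rintro ⟨M, items, best⟩ a ⟨hM, hI, hB, hlen⟩ ha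
  simp only at hM hI hB hlen ha ⊢
  have hL : QL.eval M.length = M.length * (2 * M.length + 1) := by
    simp [QL, X]
  have hQM : QM.eval M.length = M.length * (6 * M.length + 1) := by
    simp [QM, X]
  have hQI : QI.eval M.length = (M.length + 1) *
      (2 * (2 * (M.length * (2 * M.length + 1)) + 1 + M.length * (2 * M.length + 1)) + 1) := by
    simp [QI, QL, X]
  have h1 : size M ≤ M.length * (6 * M.length + 1) := by
    have := size_mat_le hM
    rw [← mul_assoc] at this
    norm_num at this
    exact this
  have h2 : size items ≤ (M.length + 1) *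
      (2 * (2 * (M.length * (2 * M.length + 1)) + 1 + M.length * (2 * M.length + 1)) + 1) := by
    have h3 : ∀ x ∈ items, size x ≤
        2 * (M.length * (2 * M.length + 1)) + 1 + M.length * (2 * M.length + 1) := by
      intro x hx
      obtain ⟨hn, hlt, -⟩ := hI x hx
      rw [List.nodup_append] at hn
      have h4 := size_list_nat_le hn.2.1 (fun i hi => hlt i (List.mem_append_right _ hi))
      have h5 := size_list_nat_le hn.1 (fun i hi => hlt i (List.mem_append_left _ hi))
      rw [size_prod]
      omega
    exact (size_list_le items h3).trans (Nat.mul_le_mul_right _ hlen)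
  have h6 : size best ≤ M.length * (2 * M.length + 1) := size_list_nat_le hB.1 hB.2.1
  have h7 : size a ≤ 3 * M.length := by
    have h8 : ∀ x ∈ a, size x ≤ 1 := fun x _ => (size_bool x).le
    have h9 := size_list_le a h8
    omega
  rw [size_pair, size_pair]
  have h10 : (2 * QM + 1 + (2 * QI + 1 + QL) + 3 * X).eval M.length =
      2 * QM.eval M.length + 1 + (2 * QI.eval M.length + 1 + QL.eval M.length) + 3 * M.length := by
    simp [X]
  rw [h10, hL, hQM, hQI]
  omega

end Pool.Agent.H66.MB
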