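import Pool.Agent.H66.MB.Defs

/-!
# One step of an algorithm that uses another program as a subroutine

`F1 s = (keep, question)`, the subroutine `A0` answers the question by `a`, and the new value is
`F2 (keep, a)`.

PROOF of `body`. `F1` is computed by a program `p1` with polynomial cost `t1`, `F2` by `p2` with
cost `t2` (`PolyTime.poly`). Let `m` be larger than `bnd A0` and positive. The program `B` is:
* `p1` (now stack 0 is `enc (F1 s) = pr (enc keep) (enc question)`, `enc_prod`);
* `unEsc 0 m` (`unEsc_spec`: stack 0 is `false :: enc question`, stack `m` is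
  `(enc keep).reverse`; cost `5 |enc keep| + 1`);
* `pop 0` (stack 0 is `enc question`);
* `A0`, via `Ex.callHi` (the state is `hi m (enc question) (enc keep).reverse [] []`);
  now stack 0 is `enc a`;
* `push 0 false`, then `mvEsc m 0` (`mvEsc_spec`: stack 0 is
  `esc (enc keep) ++ false :: enc a = pr (enc keep) (enc a) = enc (keep, a)`, stack `m` is empty;
  cost `5 |enc keep| + 1`);
* `p2`, which computes `F2 (keep, a)`; its cost is at most
  `t2 (2 |enc keep| + 1 + |enc a|)`.
The states are `hi m _ _ [] []`, see `hi_ini`, `hi_u0`, `hi_um`, `hi_0`, `hi_m` in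
`Pool/Agent/H80/Poly/Basic.lean`. Sizes: `|enc (F1 s)| ≤ |enc s| + t1(|enc s|)` (`Ex.length_le`), and
`|enc keep| ≤ |enc (F1 s)|`. All bounds are polynomials in `size s + size a`; `eval_mono`.
-/

set_option autoImplicit false

namespace Pool.Agent.H66.MB

open Pool.Agent.H80.Poly

theorem body {σ τ α β ω : Type} [BEnc σ] [BEnc τ] [BEnc α] [BEnc β] [BEnc ω]
    {F1 : σ → τ × α} {F2 : τ × β → ω} (h1 : PolyTime F1) (h2 : PolyTime F2) (A0 : Prog) :
    ∃ (B : Prog) (P : Polynomial ℕ), ∀ (s : σ) (a : β) (t : ℕ),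
      Ex A0 (ini (enc (F1 s).2)) (ini (enc a)) t →
      ∃ t', t' ≤ P.eval (size s + size a) + t ∧
        Ex B (ini (enc s)) (ini (enc (F2 ((F1 s).1, a)))) t' := by
  obtain ⟨p1, t1, hp1⟩ := h1.poly
  obtain ⟨p2, t2, hp2⟩ := h2.poly
  set m := max (bnd A0) 1 with hm
  have hm0 : 0 < m := by omega
  have hAm : bnd A0 ≤ m := by omega
  refine ⟨Prog.seq p1 (Prog.seq (unEsc 0 m) (Prog.seq (Prog.pop 0) (Prog.seq A0
    (Prog.seq (Prog.push 0 false) (Prog.seq (mvEsc m 0) p2))))),
    t1 + Polynomial.C 10 * (Polynomial.X + t1) + Polynomial.C 4 +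
      t2.comp (Polynomial.C 2 * (Polynomial.X + t1) + Polynomial.C 1 + Polynomial.X), ?_⟩
  intro s a t hA0
  obtain ⟨n1, hn1, e1⟩ := hp1 s
  obtain ⟨n2, hn2, e2⟩ := hp2 ((F1 s).1, a)
  set k := enc (F1 s).1 with hk
  set qn := enc (F1 s).2 with hqn
  have hF1 : enc (F1 s) = pr k qn := rfl
  have hF2 : enc ((F1 s).1, a) = pr k (enc a) := rfl
  rw [hF1] at e1
  rw [hF2] at e2 hn2
  have s2 : Ex (unEsc 0 m) (ini (pr k qn)) (hi m (false :: qn) k.reverse [] [])
      (5 * k.length + 1) := by
    have := unEsc_spec (i := 0) (j := m) (by omega) qn k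
      (hi m (pr k qn) [] [] []) (hi_0 _ _ _ _ _)
    rw [hi_u0, hi_m hm0, hi_um hm0, List.append_nil] at this
    rwa [hi_ini] at this
  have s3 : Ex (Prog.pop 0) (hi m (false :: qn) k.reverse [] [])
      (hi m qn k.reverse [] []) 1 := by
    have := Ex.pop 0 (hi m (false :: qn) k.reverse [] [])
    rwa [hi_0, hi_u0, List.tail_cons] at this
  have s4 : Ex A0 (hi m qn k.reverse [] []) (hi m (enc a) k.reverse [] []) t :=
    hA0.callHi hAm _ _ _
  have s5 : Ex (Prog.push 0 false) (hi m (enc a) k.reverse [] [])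
      (hi m (false :: enc a) k.reverse [] []) 1 := by
    have := Ex.push 0 false (hi m (enc a) k.reverse [] [])
    rwa [hi_u0, hi_0] at this
  have s6 : Ex (mvEsc m 0) (hi m (false :: enc a) k.reverse [] []) (ini (pr k (enc a)))
      (5 * k.length + 1) := by
    have := mvEsc_spec (i := m) (j := 0) (by omega) k.reverse
      (hi m (false :: enc a) k.reverse [] []) (hi_m hm0 _ _ _ _)
    rw [hi_0, hi_um hm0, hi_u0, List.reverse_reverse, List.length_reverse] at this
    rwa [hi_ini] at this
  refine ⟨_, ?_, Ex.seq e1 (Ex.seq s2 (Ex.seq s3 (Ex.seq s4 (Ex.seq s5 (Ex.seq s6 e2)))))⟩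
  have hl : (pr k qn).length ≤ (enc s).length + n1 := by
    have := e1.length_le 0
    simpa [ini] using this
  rw [length_pr] at hl
  rw [length_pr] at hn2
  set N := size s + size a with hN
  have hsN : (enc s).length ≤ N := by
    have : size s = (enc s).length := rfl
    omega
  have haN : (enc a).length ≤ N := by
    have : size a = (enc a).length := rfl
    omega
  have h3 : n1 ≤ t1.eval N := hn1.trans (eval_mono t1 hsN)
  have h4 : k.length ≤ N + t1.eval N := by omega
  have h5 : n2 ≤ t2.eval (2 * (N + t1.eval N) + 1 + N) := hn2.trans (eval_mono t2 (by omega))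
  simp only [Polynomial.eval_add, Polynomial.eval_mul, Polynomial.eval_C, Polynomial.eval_X,
    Polynomial.eval_comp]
  omega

end Pool.Agent.H66.MB
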