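import Pool.Agent.H66.MB.BrDef

/-!
# The final vector

PROOF of `maxV_of_best`. Let `b = (range n).map (fun i => decide (i ∈ best))`, `n = M.length`.
`b.getD i false = true` iff `i < n ∧ i ∈ best`, so `IndV M b`. `b.count true` is the number of
`i < n` in `best`, which is `best.length`, as `best` has no repetitions and only elements `< n`
(`List.toFinset_card_of_nodup`). If `b'` has length `n` and `IndV M b'`, let `J` be the set of
`i < n` with `b'.getD i false = true`; `b'.count true = J.card` and `Ind M J`, so the hypothesis
gives `b'.count true ≤ best.length`.
-/

set_option autoImplicit false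

namespace Pool.Agent.H66.MB

open Pool.Agent.H80.Poly

/-- counting `true` in a 0/1 vector -/
theorem count_true (b : List Bool) :
    b.count true = ((Finset.range b.length).filter (fun i => b.getD i false = true)).card := by
  induction b with
  | nil => simp
  | cons a b ih =>
    rw [Finset.card_filter, List.length_cons, Finset.sum_range_succ', List.count_cons, ih,
      Finset.card_filter]
    congr 1
    cases a <;> simp

private theorem getD_map (n : ℕ) (p : ℕ → Bool) (i : ℕ) :
    ((List.range n).map p).getD i false = (decide (i < n) && p i) := by
  by_cases h : i < n
  · simp [h, List.getD_eq_getElem?_getD]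
  · simp [h, List.getD_eq_getElem?_getD]

theorem maxV_of_best {M : Mat} (hM : Valid M) {best : List ℕ} (hb : OkB M best)
    (hmax : ∀ J : Finset ℕ, (∀ x ∈ J, x ∈ List.range M.length) → Ind M J →
      J.card ≤ best.length) :
    MaxV M ((List.range M.length).map (fun i => decide (i ∈ best))) := by
  have hg : ∀ i, ((List.range M.length).map (fun i => decide (i ∈ best))).getD i false = true ↔
      i < M.length ∧ i ∈ best := by
    intro i
    rw [getD_map]
    simp
  refine ⟨by simp, ?_, ?_⟩
  · intro i j hi hj
    rw [hg] at hi hj
    exact hb.2.2 i hi.2 j hj.2
  · intro b' hl hI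
    have h1 : ((List.range M.length).map (fun i => decide (i ∈ best))).count true =
        best.length := by
      rw [count_true, List.length_map, List.length_range]
      have h2 : (Finset.range M.length).filter (fun i =>
          ((List.range M.length).map (fun i => decide (i ∈ best))).getD i false = true) =
          best.toFinset := by
        ext i
        rw [Finset.mem_filter, hg, List.mem_toFinset, Finset.mem_range]
        constructor
        · rintro ⟨_, _, h⟩; exact h
        · intro h; exact ⟨hb.2.1 i h, hb.2.1 i h, h⟩
      rw [h2, List.toFinset_card_of_nodup hb.1]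
    rw [h1, count_true, hl]
    refine hmax _ ?_ ?_
    · intro x hx
      rw [Finset.mem_filter, Finset.mem_range] at hx
      rw [List.mem_range]; exact hx.1
    · intro x hx y hy
      rw [Finset.mem_filter] at hx hy
      exact hI x y hx.2 hy.2

/-- a vector of the right length is maximum iff no independent set is larger; sets version -/
theorem maxV_card {M : Mat} {b : List Bool} (hb : MaxV M b) (J : Finset ℕ)
    (hJ : ∀ x ∈ J, x < M.length) (hI : Ind M J) : J.card ≤ b.count true := by
  have hg : ∀ i, ((List.range M.length).map (fun i => decide (i ∈ J))).getD i false = true ↔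
      i < M.length ∧ i ∈ J := by
    intro i
    rw [getD_map]
    simp
  have h := hb.2.2 ((List.range M.length).map (fun i => decide (i ∈ J))) (by simp) (by
    intro i j hi hj
    rw [hg] at hi hj
    exact hI i hi.2 j hj.2)
  refine le_trans (le_of_eq ?_) h
  rw [count_true, List.length_map, List.length_range]
  congr 1
  ext i
  rw [Finset.mem_filter, hg, Finset.mem_range]
  constructor
  · intro hi; exact ⟨hJ i hi, hJ i hi, hi⟩
  · rintro ⟨_, _, hi⟩; exact hi

end Pool.Agent.H66.MB
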