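import Pool.Agent.H66.MB.Tree
import Pool.Agent.H66.MB.BrPoly
import Pool.Agent.H66.MB.BrSize
import Pool.Agent.H66.MB.VecB
import Pool.Agent.H66.MB.Call

/-!
# The branching algorithm: correctness and cost

PROOF of `branch`. `body` (file `Call`) with `F1 s = (s, query D s)`, `F2 = next D`
(`polyTime_query`, `polyTime_next`, `PolyTime.pair`, `PolyTime.id`) gives `B` and a polynomial `P1`;
`loop_spec` gives `L`; let `p0` compute `M ↦ (M, [(range n, [])], [])` with polynomial cost
(`PolyTime.range` needs `M.length ≤ size M`, `length_le_size`), and `p = seq p0 L`.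
`Q` from `size_state`. Take `P` such that `P.eval n` bounds the cost of `p0` (a polynomial in
`size M ≤ n (6 n + 1)`, `size_mat_le`) plus `2 * (P1.eval (Q.eval n) + 4)` (`eval_mono`).
For a valid `M` with `n = M.length` apply `tree` with `w = P1.eval (Q.eval n) + 2`
(the hypothesis `hB`: `size s + size a ≤ Q.eval n`), to `C = range n`, `I = []`,
`rest = []`, `best = []`. It leads to `(M, [], best')`; in this state the question is `[]`, the
answer of `A0` costs at most `t0`, and the last step of `B` gives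
`inr ((range n).map (· ∈ best'))`, which is a maximum vector by `maxV_of_best`.
-/

set_option autoImplicit false

namespace Pool.Agent.H66.MB

open Pool.Agent.H80.Poly

theorem branch (D : ℕ) (A0 : Prog) : ∃ (p : Prog) (P : Polynomial ℕ), ∀ (M : Mat), Valid M →
    ∀ (t0 : ℝ) (Φ : ℕ → ℝ), SolC A0 [] t0 → Monotone Φ →
    (∀ C : List ℕ, C.Nodup → (∀ x ∈ C, x < M.length) → (∀ v ∈ C, dg M C v ≤ D) →
      ∃ t : ℝ, SolC A0 (sub M C) t ∧ t + (P.eval M.length : ℕ) ≤ Φ C.length) →
    (∀ k, D + 2 ≤ k → k ≤ M.length →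
      Φ (k - 1) + Φ (k - (D + 2)) + (P.eval M.length : ℕ) + t0 ≤ Φ k) →
    SolC p M (Φ M.length + (P.eval M.length : ℕ) + t0) := by
  have hid : PolyTime (fun s : State => s) := PolyTime.id
  obtain ⟨B, P1, hB⟩ := body (hid.pair (polyTime_query D)) (polyTime_next D) A0
  obtain ⟨L, hL⟩ := loop_spec (σ := State) (ω := List Bool) B
  have hidM : PolyTime (fun M : Mat => M) := PolyTime.id
  have h0 : PolyTime (fun M : Mat => ((M, [(List.range M.length, ([] : List ℕ))],
      ([] : List ℕ)) : State)) :=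
    hidM.pair (((((PolyTime.length hidM).range ⟨fun n => n, PB.id,
      fun M => length_le_size M⟩).pair (PolyTime.const ([] : List ℕ))).cons
        (PolyTime.const ([] : List Item))).pair (PolyTime.const ([] : List ℕ)))
  obtain ⟨p0, tp, hp0⟩ := h0.poly
  obtain ⟨Q, hQ⟩ := size_state
  have hPB : PB (fun n => tp.eval (n * (2 * (3 * n) + 1)) + 2 * (P1.eval (Q.eval n) + 4)) :=
    (PB.evalComp tp (PB.id.mul (((PB.const 2).mul ((PB.const 3).mul PB.id)).add
      (PB.const 1)))).add ((PB.const 2).mul ((PB.evalComp P1 (PB.eval Q)).add (PB.const 4)))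
  obtain ⟨P, hP⟩ := hPB
  refine ⟨Prog.seq p0 L, P, fun M hM t0 Φ hA hΦ h1 h2 => ?_⟩
  have hPn : ((tp.eval (M.length * (2 * (3 * M.length) + 1)) : ℕ) : ℝ) +
      2 * (((P1.eval (Q.eval M.length) : ℕ) : ℝ) + 4) ≤ ((P.eval M.length : ℕ) : ℝ) := by
    exact_mod_cast hP M.length
  have hn1 : (0 : ℝ) ≤ ((tp.eval (M.length * (2 * (3 * M.length) + 1)) : ℕ) : ℝ) :=
    Nat.cast_nonneg _
  have hn2 : (0 : ℝ) ≤ ((P1.eval (Q.eval M.length) : ℕ) : ℝ) := Nat.cast_nonneg _
  have hBt : ∀ (s : State) (a : List Bool) (t : ℕ), OkS s → s.1 = M → a.length ≤ M.length →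
      Ex A0 (ini (enc (query D s))) (ini (enc a)) t →
      ∃ t' : ℕ, t' ≤ P1.eval (Q.eval M.length) + t ∧
        Ex B (ini (enc s)) (ini (enc (next D (s, a)))) t' := by
    intro s a t hs hsM ha hE
    obtain ⟨t', ht', hE'⟩ := hB s a t hE
    refine ⟨t', ht'.trans (Nat.add_le_add_right (eval_mono P1 ?_) _), hE'⟩
    have := hQ s a hs (by rw [hsM]; exact ha)
    rwa [hsM] at this
  have hs0 : OkS ((M, (List.range M.length, ([] : List ℕ)) :: [], ([] : List ℕ)) : State) := by
    refine ⟨hM, ?_, ⟨List.nodup_nil, by simp, by simp⟩, by simp⟩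
    intro x hx
    rw [List.mem_singleton] at hx
    subst hx
    refine ⟨by simpa using List.nodup_range, by simp, by simp⟩
  obtain ⟨best, T, hT, hTle, hbest, -, hmax⟩ := tree D A0 B
    (((P1.eval (Q.eval M.length) : ℕ) : ℝ) + 2) M hM
    (fun s a t hs hsM ha hE => by
      obtain ⟨t', ht', hE'⟩ := hBt s a t hs hsM ha hE
      refine ⟨t', ?_, hE'⟩
      have : (t' : ℝ) ≤ ((P1.eval (Q.eval M.length) : ℕ) : ℝ) + t := by exact_mod_cast ht'
      linarith)
    t0 hA Φ hΦ
    (fun C hC hCn hCD => by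
      obtain ⟨t, ht, htl⟩ := h1 C hC hCn hCD
      exact ⟨t, ht, by linarith⟩)
    (fun k hk hkn => by
      have := h2 k hk hkn
      linarith)
    M.length (List.range M.length) [] [] [] (by simp) hs0 (by simp)
  obtain ⟨a, s, ha, hEa, hst⟩ := hA
  have ha0 : a.length = 0 := ha.1
  have hs1 : OkS ((M, ([] : List Item), best) : State) :=
    ⟨hM, by simp, hbest, by simp⟩
  obtain ⟨t', ht', hE'⟩ := hBt (M, [], best) a s hs1 rfl (by omega) hEa
  have hfin := hL _ _ ((List.range M.length).map (fun i => decide (i ∈ best))) T t' hT hE'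
  obtain ⟨m0, hm0, hE0⟩ := hp0 M
  refine ⟨(List.range M.length).map (fun i => decide (i ∈ best)), m0 + (T + t' + 2),
    maxV_of_best hM hbest (fun J hJ hI => by simpa using hmax J hJ hI), Ex.seq hE0 hfin, ?_⟩
  have e1 : m0 ≤ tp.eval (M.length * (2 * (3 * M.length) + 1)) :=
    hm0.trans (eval_mono tp (size_mat_le hM))
  have e1' : (m0 : ℝ) ≤ ((tp.eval (M.length * (2 * (3 * M.length) + 1)) : ℕ) : ℝ) :=
    Nat.cast_le.2 e1
  have e2 : (t' : ℝ) ≤ ((P1.eval (Q.eval M.length) : ℕ) : ℝ) + s := by exact_mod_cast ht'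
  rw [List.length_range] at hTle
  push_cast
  linarith

end Pool.Agent.H66.MB
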