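import Pool.Agent.H66.MB.Defs

/-!
# Graphs on `Fin n` and their adjacency matrices

Everything here is elementary: `List.ofFn`, `List.getD`, `List.count`, `Set.ncard`.
-/

set_option autoImplicit false

namespace Pool.Agent.H66.MB

open Pool.Agent.H80.Poly

theorem mat_length {n : ℕ} (G : SimpleGraph (Fin n)) : (mat G).length = n := by
  simp [mat]

private theorem adj_mat_fin {n : ℕ} (G : SimpleGraph (Fin n)) (i j : ℕ) (hi : i < n) (hj : j < n) :
    adj (mat G) i j = true ↔ G.Adj ⟨i, hi⟩ ⟨j, hj⟩ := by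
  unfold adj mat
  simp [List.getD_eq_getElem?_getD, hi, hj]

private theorem adj_mat_lt {n : ℕ} (G : SimpleGraph (Fin n)) (i j : ℕ)
    (h : adj (mat G) i j = true) : i < n ∧ j < n := by
  unfold adj mat at h
  rw [List.getD_eq_getElem?_getD, List.getD_eq_getElem?_getD] at h
  by_cases hi : i < n
  · by_cases hj : j < n
    · exact ⟨hi, hj⟩
    · simp [hi, hj] at h
  · simp [hi] at h

theorem adj_mat {n : ℕ} (G : SimpleGraph (Fin n)) (i j : Fin n) :
    adj (mat G) i j = true ↔ G.Adj i j := adj_mat_fin G i j i.2 j.2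

theorem valid_mat {n : ℕ} (G : SimpleGraph (Fin n)) : Valid (mat G) := by
  refine ⟨?_, ?_, ?_⟩
  · intro r hr
    rw [mat_length]
    unfold mat at hr
    rw [List.mem_ofFn] at hr
    obtain ⟨i, rfl⟩ := hr
    simp
  · intro i j
    rw [Bool.eq_iff_iff]
    constructor
    · intro h
      obtain ⟨h1, h2⟩ := adj_mat_lt G i j h
      rw [adj_mat_fin G i j h1 h2] at h
      rw [adj_mat_fin G j i h2 h1]
      exact h.symm
    · intro h
      obtain ⟨h1, h2⟩ := adj_mat_lt G j i h
      rw [adj_mat_fin G j i h1 h2] at h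
      rw [adj_mat_fin G i j h2 h1]
      exact h.symm
  · intro i
    rw [← Bool.not_eq_true]
    intro h
    obtain ⟨h1, _⟩ := adj_mat_lt G i i h
    rw [adj_mat_fin G i i h1 h1] at h
    exact G.loopless.irrefl _ h

private theorem mat_getElem {n : ℕ} (G : SimpleGraph (Fin n)) (i j : ℕ) (h1 : i < (mat G).length)
    (h2 : j < ((mat G)[i]).length) : (mat G)[i][j] = adj (mat G) i j := by
  unfold adj
  simp [List.getD_eq_getElem?_getD, List.getElem?_eq_getElem h1, List.getElem?_eq_getElem h2]

/-- every valid matrix is the matrix of a graph -/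
theorem exists_graph (M : Mat) (hM : Valid M) : ∃ G : SimpleGraph (Fin M.length), mat G = M := by
  let G : SimpleGraph (Fin M.length) := ⟨fun i j => adj M i j = true,
    ⟨fun i j h => by rw [hM.2.1]; exact h⟩,
    ⟨fun i h => by rw [hM.2.2] at h; exact Bool.false_ne_true h⟩⟩
  refine ⟨G, ?_⟩
  apply List.ext_getElem
  · rw [mat_length]
  · intro i h1 h2
    apply List.ext_getElem
    · rw [(valid_mat G).1 _ (List.getElem_mem h1), hM.1 _ (List.getElem_mem h2), mat_length]
    · intro j h3 h4
      have h5 : j < M.length := by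
        rw [← hM.1 _ (List.getElem_mem h2)]
        exact h4
      rw [mat_getElem G i j h1 h3, Bool.eq_iff_iff, adj_mat_fin G i j h2 h5]
      change adj M i j = true ↔ _
      unfold adj
      simp [List.getD_eq_getElem?_getD, List.getElem?_eq_getElem h2, List.getElem?_eq_getElem h4]

theorem vec_length {n : ℕ} (S : Finset (Fin n)) : (vec S).length = n := by
  simp [vec]

private theorem getD_vec {n : ℕ} (S : Finset (Fin n)) (i : ℕ) (hi : i < n) :
    (vec S).getD i false = true ↔ (⟨i, hi⟩ : Fin n) ∈ S := by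
  simp [vec, List.getD_eq_getElem?_getD, hi]

private theorem getD_vec_lt {n : ℕ} (S : Finset (Fin n)) (i : ℕ)
    (h : (vec S).getD i false = true) : i < n := by
  by_contra hi
  simp [vec, List.getD_eq_getElem?_getD, hi] at h

theorem exists_vec {n : ℕ} (b : List Bool) (h : b.length = n) : ∃ S : Finset (Fin n), vec S = b := by
  refine ⟨Finset.univ.filter (fun i : Fin n => b.getD i false = true), ?_⟩
  unfold vec
  apply List.ext_getElem
  · rw [List.length_ofFn, h]
  · intro i h1 h2
    rw [List.getElem_ofFn]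
    simp [List.getD_eq_getElem?_getD, List.getElem?_eq_getElem h2]

theorem count_vec {n : ℕ} (S : Finset (Fin n)) : (vec S).count true = S.card := by
  unfold vec
  rw [List.ofFn_eq_map, List.count_eq_countP, List.countP_map, List.countP_eq_length_filter]
  rw [← List.toFinset_card_of_nodup ((List.nodup_finRange n).filter _)]
  congr 1
  ext u
  simp

theorem indV_vec {n : ℕ} (G : SimpleGraph (Fin n)) (S : Finset (Fin n)) :
    IndV (mat G) (vec S) ↔ G.IsIndepSet (S : Set (Fin n)) := by
  constructor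
  · intro h i hi j hj _ hij
    have := h i j ((getD_vec S i i.2).mpr hi) ((getD_vec S j j.2).mpr hj)
    rw [← Bool.not_eq_true] at this
    exact this ((adj_mat G i j).mpr hij)
  · intro h i j hi hj
    have h1 := getD_vec_lt S i hi
    have h2 := getD_vec_lt S j hj
    rw [getD_vec S i h1] at hi
    rw [getD_vec S j h2] at hj
    rw [← Bool.not_eq_true]
    intro hij
    rw [adj_mat_fin G i j h1 h2] at hij
    exact h hi hj hij.ne hij

theorem maxV_vec {n : ℕ} (G : SimpleGraph (Fin n)) (S : Finset (Fin n)) :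
    MaxV (mat G) (vec S) ↔ G.IsMaximumIndepSet S := by
  constructor
  · intro h
    refine ⟨(indV_vec G S).mp h.2.1, ?_⟩
    intro T hT
    have := h.2.2 (vec T) (by rw [vec_length, mat_length]) ((indV_vec G T).mpr hT)
    rw [count_vec, count_vec] at this
    exact this
  · intro h
    refine ⟨by rw [vec_length, mat_length], (indV_vec G S).mpr h.1, ?_⟩
    intro b' hb' hi
    rw [mat_length] at hb'
    obtain ⟨T, rfl⟩ := exists_vec b' hb'
    rw [count_vec, count_vec]
    exact h.2 T ((indV_vec G T).mp hi)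

theorem runs_iff {n : ℕ} (G : SimpleGraph (Fin n)) (p : Prog) (t : ℝ) :
    Runs p G t ↔ SolM p (mat G) t := by
  constructor
  · rintro ⟨S, T, s, hS, hE, hT, hs⟩
    exact ⟨vec S, T, s, (maxV_vec G S).mpr hS, hE, hT, hs⟩
  · rintro ⟨b, T, s, hb, hE, hT, hs⟩
    obtain ⟨S, rfl⟩ := exists_vec b (by rw [hb.1, mat_length])
    exact ⟨S, T, s, (maxV_vec G S).mp hb, hE, hT, hs⟩

/-- degrees inside a set of vertices -/
private theorem dg_aux {n : ℕ} (G : SimpleGraph (Fin n)) (C : List ℕ) (hC : C.Nodup)
    (v : Fin n) :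
    dg (mat G) C v = (G.neighborSet v ∩ {u | (u : ℕ) ∈ C}).ncard := by
  unfold dg
  rw [← List.toFinset_card_of_nodup (hC.filter _)]
  have h1 : ((G.neighborSet v ∩ {u | (u : ℕ) ∈ C}).image (fun u : Fin n => (u : ℕ)))
      = (((List.filter (fun u => adj (mat G) (v : ℕ) u) C).toFinset : Finset ℕ) : Set ℕ) := by
    ext u
    simp only [Set.mem_image, Set.mem_inter_iff, SimpleGraph.mem_neighborSet, Set.mem_ofPred_eq,
      Finset.mem_coe, List.mem_toFinset, List.mem_filter]
    constructor
    · rintro ⟨w, ⟨h1, h2⟩, rfl⟩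
      exact ⟨h2, (adj_mat G v w).mpr h1⟩
    · rintro ⟨h1, h2⟩
      have hu := (adj_mat_lt G v u h2).2
      exact ⟨⟨u, hu⟩, ⟨(adj_mat_fin G v u v.2 hu).mp h2, h1⟩, rfl⟩
  rw [← Set.ncard_image_of_injective _ Fin.val_injective, h1, Set.ncard_coe_finset]

/-- degrees -/
theorem dg_mat {n : ℕ} (G : SimpleGraph (Fin n)) (v : Fin n) :
    dg (mat G) (List.range n) v = (G.neighborSet v).ncard := by
  rw [dg_aux G _ List.nodup_range v]
  congr 1
  ext u
  simp

/-- degrees inside a set of vertices -/
theorem dg_mat_finset {n : ℕ} (G : SimpleGraph (Fin n)) (C : List ℕ) (hC : C.Nodup)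
    (hn : ∀ x ∈ C, x < n) (v : Fin n) :
    dg (mat G) C v = (G.neighborSet v ∩ {u | (u : ℕ) ∈ C}).ncard := dg_aux G C hC v

end Pool.Agent.H66.MB
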