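import Pool.Agent.H66.MB.Defs

/-!
# Cleaning up: all stacks except stack 0 are emptied

PROOF of `clean`. Let `m = bnd p` and `q = seq p (clrs m)`, where `clrs m` empties the stacks
`1, ..., m` one after the other.
(a) `Ex p S S' n` implies `S' i = S i` for all `i` with `bnd p ≤ i` (induction on `Ex`; in the cases
`push`/`pop` use `Function.update_of_ne`). So after `p`, started in `ini x`, all stacks `i ≥ m`,
`i ≠ 0` are empty.
(b) `clrs m` from a state `T`: leads to the state that equals `T` on `0` and on all `i > m`, and is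
`[]` on `1, ..., m`; its cost is at most `1 + m (2 L + 1)` if all stacks of `T` have length at
most `L` (induction on `m`, `clr_spec`).
(c) after `p` every stack `i ≠ 0` has length at most `t` and stack `0` at most `|x| + t`
(`Ex.length_le`).
(d) so the total cost is at most `t + 1 + m (2 t + 1)`, take `K = 2 m + 2`.
-/

set_option autoImplicit false

namespace Pool.Agent.H66.MB

open Pool.Agent.H80.Poly

/-- emptying the stacks `1, ..., m` -/
def clrs : ℕ → Prog
  | 0 => Prog.skip
  | m + 1 => Prog.seq (clrs m) (clr (m + 1))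

/-- stacks beyond the bound are not touched -/
theorem Ex_eq_of_le {p : Prog} {S S' : Stt} {n : ℕ} (h : Ex p S S' n) :
    ∀ i, bnd p ≤ i → S' i = S i := by
  induction h with
  | skip S => intro i _; rfl
  | push j b S =>
    intro i hi
    have hij : i ≠ j := by
      simp only [bnd] at hi
      omega
    exact Function.update_of_ne hij _ _
  | pop j S =>
    intro i hi
    have hij : i ≠ j := by
      simp only [bnd] at hi
      omega
    exact Function.update_of_ne hij _ _
  | seq _ _ ih1 ih2 =>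
    intro i hi
    simp only [bnd, max_le_iff] at hi
    exact (ih2 i hi.2).trans (ih1 i hi.1)
  | iteT _ _ ih =>
    intro i hi
    simp only [bnd, max_le_iff] at hi
    exact ih i hi.2.1
  | iteF _ _ ih =>
    intro i hi
    simp only [bnd, max_le_iff] at hi
    exact ih i hi.2.2
  | loopF _ => intro i _; rfl
  | loopT _ _ _ ih1 ih2 =>
    intro i hi
    have hi' := hi
    simp only [bnd, max_le_iff] at hi
    exact (ih2 i hi').trans (ih1 i hi.2)

/-- emptying the stacks `1, ..., m` -/
private theorem clrs_spec (L : ℕ) : ∀ (m : ℕ) (T : Stt), (∀ i, i ≠ 0 → (T i).length ≤ L) →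
    ∃ s, s ≤ 1 + m * (2 * L + 1) ∧
      Ex (clrs m) T (fun i => if i ≠ 0 ∧ i ≤ m then [] else T i) s := by
  intro m
  induction m with
  | zero =>
    intro T _
    refine ⟨1, by omega, ?_⟩
    have h : (fun i => if i ≠ 0 ∧ i ≤ 0 then [] else T i) = T := by
      funext i
      rw [if_neg]
      rintro ⟨h1, h2⟩
      exact h1 (by omega)
    rw [h]
    exact Ex.skip T
  | succ m ih =>
    intro T hT
    obtain ⟨s, hs, h1⟩ := ih T hT
    have hval : (fun i => if i ≠ 0 ∧ i ≤ m then [] else T i) (m + 1) = T (m + 1) := by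
      show (if (m + 1) ≠ 0 ∧ (m + 1) ≤ m then [] else T (m + 1)) = T (m + 1)
      rw [if_neg]
      rintro ⟨_, h2⟩
      omega
    have h2 := clr_spec (m + 1) (T (m + 1)) (fun i => if i ≠ 0 ∧ i ≤ m then [] else T i) hval
    have h3 := Ex.seq h1 h2
    have hst : Function.update (fun i => if i ≠ 0 ∧ i ≤ m then [] else T i) (m + 1) [] =
        fun i => if i ≠ 0 ∧ i ≤ m + 1 then [] else T i := by
      funext i
      by_cases hi : i = m + 1
      · subst hi
        rw [Function.update_self, if_pos ⟨by omega, le_rfl⟩]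
      · rw [Function.update_of_ne hi]
        by_cases hc : i ≠ 0 ∧ i ≤ m
        · rw [if_pos hc, if_pos ⟨hc.1, by omega⟩]
        · rw [if_neg hc, if_neg]
          rintro ⟨h4, h5⟩
          exact hc ⟨h4, by omega⟩
    rw [hst] at h3
    refine ⟨s + (2 * (T (m + 1)).length + 1), ?_, h3⟩
    have hL := hT (m + 1) (by omega)
    have : (m + 1) * (2 * L + 1) = m * (2 * L + 1) + (2 * L + 1) := by ring
    rw [this]
    omega

theorem clean (p : Prog) : ∃ (q : Prog) (K : ℕ), ∀ (x : List Bool) (T : Stt) (t : ℕ),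
    Ex p (ini x) T t → ∃ s, s ≤ K * (t + 1) ∧ Ex q (ini x) (ini (T 0)) s := by
  refine ⟨Prog.seq p (clrs (bnd p)), 2 * bnd p + 2, ?_⟩
  intro x T t h
  have hL : ∀ i, i ≠ 0 → (T i).length ≤ t := by
    intro i hi
    have h1 := h.length_le i
    have h2 : ini x i = [] := by
      unfold ini
      rw [if_neg hi]
    rw [h2] at h1
    simpa using h1
  obtain ⟨s, hs, hex⟩ := clrs_spec t (bnd p) T hL
  have hst : (fun i => if i ≠ 0 ∧ i ≤ bnd p then [] else T i) = ini (T 0) := by
    funext i
    unfold ini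
    by_cases hi : i = 0
    · subst hi
      simp
    · rw [if_neg hi]
      by_cases hb : i ≤ bnd p
      · rw [if_pos ⟨hi, hb⟩]
      · rw [if_neg (fun hc => hb hc.2)]
        have h1 := Ex_eq_of_le h i (by omega)
        rw [h1]
        unfold ini
        rw [if_neg hi]
  rw [hst] at hex
  refine ⟨t + s, ?_, Ex.seq h hex⟩
  have h1 : (2 * bnd p + 2) * (t + 1) = (1 + bnd p * (2 * t + 1)) + t + (bnd p + t + 1) := by ring
  rw [h1]
  omega

/-- the clean version of a program that solves instances -/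
theorem clean_sol (p : Prog) : ∃ (q : Prog) (K : ℝ), 0 ≤ K ∧ ∀ (M : Mat) (t : ℝ),
    SolM p M t → SolC q M (K * (t + 1)) := by
  obtain ⟨q, K, h⟩ := clean p
  refine ⟨q, (K : ℝ), Nat.cast_nonneg K, ?_⟩
  rintro M t ⟨b, T, s, hb, hex, hT, hs⟩
  obtain ⟨s', hs', hex'⟩ := h _ _ _ hex
  rw [hT] at hex'
  refine ⟨b, s', hb, hex', ?_⟩
  have h1 : (s' : ℝ) ≤ (K : ℝ) * ((s : ℝ) + 1) := by exact_mod_cast hs'
  have h2 : (K : ℝ) * ((s : ℝ) + 1) ≤ (K : ℝ) * (t + 1) :=
    mul_le_mul_of_nonneg_left (by linarith) (Nat.cast_nonneg K)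
  exact h1.trans h2

theorem SolC.toM {p : Prog} {M : Mat} {t : ℝ} (h : SolC p M t) : SolM p M t := by
  obtain ⟨b, s, hb, hex, hs⟩ := h
  exact ⟨b, ini (enc b), s, hb, hex, by simp [ini], hs⟩

theorem SolM.mono {p : Prog} {M : Mat} {t t' : ℝ} (h : SolM p M t) (ht : t ≤ t') :
    SolM p M t' := by
  obtain ⟨b, T, s, hb, hex, hT, hs⟩ := h
  exact ⟨b, T, s, hb, hex, hT, hs.trans ht⟩

theorem SolC.mono {p : Prog} {M : Mat} {t t' : ℝ} (h : SolC p M t) (ht : t ≤ t') :
    SolC p M t' := by
  obtain ⟨b, s, hb, hex, hs⟩ := h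
  exact ⟨b, s, hb, hex, hs.trans ht⟩

end Pool.Agent.H66.MB
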