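import Pool.Agent.H66.MB.Bridge
import Pool.Agent.H66.MB.Clean

/-!
# From graphs to matrices

PROOF of the three equivalences. From right to left: `Runs p G t` is `SolM p (mat G) t`
(`runs_iff`), which follows from `SolC` (`SolC.toM`); `mat G` is valid (`valid_mat`), has length `n`
(`mat_length`) and the right degrees (`dg_mat`; for `degIn` use
`Nat.le_floor_iff`: `(k : ℝ) ≤ κ d ↔ k ≤ ⌊κ d⌋₊`). From left to right: take the clean
version `q` of `p` with constant `K` (`clean_sol`). A valid matrix `M` is `mat G` for a graph `G` on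
`Fin M.length` (`exists_graph`), so
`SolM p M (C c ^ n)`, hence `SolC q M (K (C c ^ n + 1))` and
`K (C c ^ n + 1) ≤ K (|C| + 1) c ^ n` as `c ≥ 1` (`SolC.mono`).
-/

set_option autoImplicit false

namespace Pool.Agent.H66.MB

open Pool.Agent.H80.Poly

/-- maximum independent set on the matrices with the property `𝒜` can be solved in time
`O(c ^ n)` by a clean program -/
def ITM (𝒜 : Mat → Prop) (c : ℝ) : Prop := ∃ (p : Prog) (C : ℝ), 0 ≤ C ∧
  ∀ M, Valid M → 𝒜 M → SolC p M (C * c ^ M.length)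

private theorem conv_gen {c : ℝ} (hc : 1 ≤ c) (𝒢 : Cls) (𝒜 : Mat → Prop)
    (h : ∀ (n : ℕ) (G : SimpleGraph (Fin n)), 𝒢 n G ↔ 𝒜 (mat G)) :
    InTime 𝒢 c ↔ ITM 𝒜 c := by
  constructor
  · rintro ⟨p, C, hp⟩
    obtain ⟨q, K, hK, hq⟩ := clean_sol p
    refine ⟨q, K * (|C| + 1), by positivity, fun M hM hA => ?_⟩
    obtain ⟨G, hG⟩ := exists_graph M hM
    have h1 := hp M.length G ((h _ G).mpr (by rw [hG]; exact hA))
    rw [runs_iff, hG] at h1
    refine (hq M _ h1).mono ?_
    have h2 : 1 ≤ c ^ M.length := one_le_pow₀ hc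
    have h3 : C * c ^ M.length + 1 ≤ (|C| + 1) * c ^ M.length := by
      have h4 : C * c ^ M.length ≤ |C| * c ^ M.length :=
        mul_le_mul_of_nonneg_right (le_abs_self C) (by positivity)
      linarith
    calc K * (C * c ^ M.length + 1) ≤ K * ((|C| + 1) * c ^ M.length) :=
          mul_le_mul_of_nonneg_left h3 hK
      _ = K * (|C| + 1) * c ^ M.length := by ring
  · rintro ⟨p, C, -, hp⟩
    refine ⟨p, C, fun n G hG => ?_⟩
    rw [runs_iff]
    have h1 := (hp (mat G) (valid_mat G) ((h n G).mp hG)).toM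
    rw [mat_length] at h1
    exact h1

theorem inTime_all {c : ℝ} (hc : 1 ≤ c) : InTime allG c ↔ ITM (fun _ => True) c :=
  conv_gen hc _ _ fun _ _ => Iff.rfl

theorem inTime_degLe {c : ℝ} (hc : 1 ≤ c) (D : ℕ) :
    InTime (degLe D) c ↔ ITM (fun M => DegLe M D) c := by
  apply conv_gen hc
  intro n G
  unfold degLe DegLe
  rw [mat_length]
  constructor
  · intro h v hv
    have h1 := dg_mat G ⟨v, hv⟩
    simp only at h1
    rw [h1]
    exact h ⟨v, hv⟩
  · intro h v
    rw [← dg_mat G v]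
    exact h v v.2

theorem inTime_degIn {c : ℝ} (hc : 1 ≤ c) (d : ℕ) (κ : ℝ) (hκ : 0 ≤ κ) :
    InTime (degIn d κ) c ↔ ITM (fun M => DegIn M d ⌊κ * d⌋₊) c := by
  apply conv_gen hc
  intro n G
  unfold degIn DegIn
  rw [mat_length]
  have h0 : (0 : ℝ) ≤ κ * d := by positivity
  constructor
  · intro h v hv
    have h1 := dg_mat G ⟨v, hv⟩
    simp only at h1
    rw [h1, Nat.le_floor_iff h0]
    exact h ⟨v, hv⟩
  · intro h v
    have h1 := h v v.2
    rw [dg_mat G v, Nat.le_floor_iff h0] at h1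
    exact h1

end Pool.Agent.H66.MB
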