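import Pool.Agent.H66.MB.VecB
import Pool.Agent.H66.MB.Conv

/-!
# Graphs without large induced subgraphs of small maximum degree
-/

set_option autoImplicit false

namespace Pool.Agent.H66.MB

open Pool.Agent.H80.Poly

/-- Graphs in which every set of vertices that induces a subgraph of maximum degree at most `D` has
at most `θ n` elements. -/
def coreLe (D : ℕ) (θ : ℝ) : Cls := fun n G =>
  ∀ C : Finset (Fin n), (∀ v ∈ C, (G.neighborSet v ∩ C).ncard ≤ D) → (C.card : ℝ) ≤ θ * n

/-- The same for matrices, with the bound `(a / b) n`. -/
def HasCore (D a b : ℕ) (M : Mat) : Prop :=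
  ∀ C : List ℕ, C.Nodup → (∀ x ∈ C, x < M.length) → (∀ v ∈ C, dg M C v ≤ D) →
    b * C.length ≤ a * M.length

/-- order of the graph obtained from a graph with `k` vertices -/
def cN (D a b k : ℕ) : ℕ := (b * (k + D + 1) + a - 1) / a

/-- `M` and a disjoint clique, `n` vertices in total -/
def cliq (M : Mat) (n : ℕ) : Mat :=
  mk n (fun i j => if i < M.length then (if j < M.length then adj M i j else false)
    else (if j < M.length then false else decide (i ≠ j)))

end Pool.Agent.H66.MB
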