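import Pool.Agent.H66.MB.Conv
import Pool.Agent.H66.MB.Base

/-!
# First facts on the infimum

PROOF. `InTime 𝒢 c → InTime 𝒢 c'` for `0 ≤ c ≤ c'`: replace `C` by `|C|`. `InTime allG 3` from
`base` and `inTime_all`. So the set in the definition of `eps 𝒢` contains `2` and is bounded below
by `0`. `csInf_le`, `le_csInf`, `exists_lt_of_csInf_lt`.
-/

set_option autoImplicit false

namespace Pool.Agent.H66.MB

open Pool.Agent.H80.Poly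

theorem InTime.mono {𝒢 : Cls} {c c' : ℝ} (h : InTime 𝒢 c) (h0 : 0 ≤ c) (hc : c ≤ c') :
    InTime 𝒢 c' := by
  obtain ⟨p, C, hp⟩ := h
  refine ⟨p, |C|, fun n G hG => ?_⟩
  obtain ⟨S, T, s, h1, h2, h3, h4⟩ := hp n G hG
  refine ⟨S, T, s, h1, h2, h3, h4.trans ?_⟩
  have h5 : c ^ n ≤ c' ^ n := pow_le_pow_left₀ h0 hc n
  calc C * c ^ n ≤ |C| * c ^ n := mul_le_mul_of_nonneg_right (le_abs_self C) (pow_nonneg h0 n)
    _ ≤ |C| * c' ^ n := mul_le_mul_of_nonneg_left h5 (abs_nonneg C)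

theorem InTime.of_all {𝒢 : Cls} {c : ℝ} (h : InTime allG c) : InTime 𝒢 c := by
  obtain ⟨p, C, hp⟩ := h
  exact ⟨p, C, fun n G _ => hp n G trivial⟩

private theorem inTime_three (𝒢 : Cls) : InTime 𝒢 3 := by
  refine InTime.of_all ((inTime_all (by norm_num)).mpr ?_)
  obtain ⟨p, C, hC, h⟩ := base
  exact ⟨p, C, hC, fun M hM _ => h M hM⟩

private theorem bdd (𝒢 : Cls) : BddBelow {e : ℝ | 0 ≤ e ∧ InTime 𝒢 (1 + e)} :=
  ⟨0, fun _ h => h.1⟩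

private theorem nonem (𝒢 : Cls) : {e : ℝ | 0 ≤ e ∧ InTime 𝒢 (1 + e)}.Nonempty :=
  ⟨2, by norm_num, by
    have h := inTime_three 𝒢
    have h3 : (1 + 2 : ℝ) = 3 := by norm_num
    rwa [h3]⟩

theorem eps_nonneg (𝒢 : Cls) : 0 ≤ eps 𝒢 := by
  exact le_csInf (nonem 𝒢) (fun _ h => h.1)

theorem inTime_of_gt {𝒢 : Cls} {c : ℝ} (h : 1 + eps 𝒢 < c) : InTime 𝒢 c := by
  have h1 : sInf {e : ℝ | 0 ≤ e ∧ InTime 𝒢 (1 + e)} < c - 1 := by
    have h2 : eps 𝒢 < c - 1 := by linarith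
    exact h2
  obtain ⟨e, ⟨he0, he⟩, hec⟩ := exists_lt_of_csInf_lt (nonem 𝒢) h1
  exact he.mono (by linarith) (by linarith)

theorem eps_le {𝒢 : Cls} {c : ℝ} (hc : 1 ≤ c) (h : InTime 𝒢 c) : 1 + eps 𝒢 ≤ c := by
  have h1 : c - 1 ∈ {e : ℝ | 0 ≤ e ∧ InTime 𝒢 (1 + e)} := by
    refine ⟨by linarith, ?_⟩
    have h3 : 1 + (c - 1) = c := by ring
    rwa [h3]
  have h2 : eps 𝒢 ≤ c - 1 := csInf_le (bdd 𝒢) h1
  linarith

end Pool.Agent.H66.MB
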