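import Pool.Agent.H66.MB.Conv
import Pool.Agent.H66.MB.Base
import Pool.Agent.H66.MB.Call

/-!
# Using a reduction

PROOF of `reduce`. Let `q`, `C` be the program and constant for `𝒬` (from `ITM 𝒬 b`). Apply `body`
with `σ = Mat`, `τ = Mat`, `F1 M = (M, g M)`, `F2 (M, b') = b'.take M.length`
(`PolyTime` of `take`: for instance `((b'.zipIdx).filter (fun x => x.2 < M.length)).map Prod.fst`, or
a `PolyTime` lemma of `Lists.lean`/`Nat.lean`). For valid `M` with `𝒜 M`: `q` answers the question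
`g M` by a maximum vector `b'` within `C b ^ |g M|` steps, `|g M| ≤ y n + K`, so
`C b ^ |g M| ≤ C b ^ K (b ^ y) ^ n`. The polynomial overhead is
`P.eval (size M + size b')`, `size M ≤ n (6 n + 1)`
(`size_mat_le`), `size b' ≤ 3 |g M| ≤ 3 (⌈y⌉ n + K)`: a polynomial in `n`, so
at most `a (1 + η) ^ n` (`poly_le`). Total at most `C' ((b ^ y) (1 + η)) ^ n`.
-/

set_option autoImplicit false

namespace Pool.Agent.H66.MB

open Pool.Agent.H80.Poly

theorem reduce {𝒜 𝒬 : Mat → Prop} (g : Mat → Mat) (hg : PolyTime g) (y : ℝ) (hy : 0 ≤ y) (K : ℕ)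
    (h : ∀ M, Valid M → 𝒜 M → Valid (g M) ∧ 𝒬 (g M) ∧ ((g M).length : ℝ) ≤ y * M.length + K ∧
      ∀ b, MaxV (g M) b → MaxV M (b.take M.length))
    (b : ℝ) (hb : 1 ≤ b) (hQ : ITM 𝒬 b) (η : ℝ) (hη : 0 < η) :
    ITM 𝒜 (b ^ y * (1 + η)) := by
  obtain ⟨q, C, hC, hq⟩ := hQ
  have hF1 : PolyTime (fun M : Mat => (M, g M)) := PolyTime.id.pair hg
  have hw : PolyTime (fun z : Mat × List Bool => z) := PolyTime.id
  have hF2 : PolyTime (fun z : Mat × List Bool => z.2.take z.1.length) :=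
    PolyTime.take hw.snd (PolyTime.length hw.fst)
  obtain ⟨B, P, hB⟩ := body hF1 hF2 q
  have hPB : PB (fun n => P.eval (n * (2 * (3 * n) + 1) + (⌈y⌉₊ * n + K) * 3)) :=
    PB.evalComp P ((PB.id.mul (((PB.const 2).mul ((PB.const 3).mul PB.id)).add (PB.const 1))).add
      ((((PB.const ⌈y⌉₊).mul PB.id).add (PB.const K)).mul (PB.const 3)))
  obtain ⟨P', hP'⟩ := hPB
  obtain ⟨c, hc, hcn⟩ := poly_le P' (1 + η) (by linarith)
  have hby : (1 : ℝ) ≤ b ^ y := Real.one_le_rpow hb hy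
  have hb0 : (0 : ℝ) < b := by linarith
  refine ⟨B, c + C * b ^ K, by positivity, fun M hM hA => ?_⟩
  obtain ⟨hV, hQ', hlen, hmax⟩ := h M hM hA
  obtain ⟨b', s, hb', hEx, hs⟩ := hq (g M) hV hQ'
  obtain ⟨t', ht', hEx'⟩ := hB M b' s hEx
  refine ⟨b'.take M.length, t', hmax b' hb', hEx', ?_⟩
  have h1 : size M ≤ M.length * (2 * (3 * M.length) + 1) := size_mat_le hM
  have hlen' : (g M).length ≤ ⌈y⌉₊ * M.length + K := by
    have h2 : ((g M).length : ℝ) ≤ ((⌈y⌉₊ * M.length + K : ℕ) : ℝ) := by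
      push_cast
      have h3 : y ≤ (⌈y⌉₊ : ℝ) := Nat.le_ceil y
      have h4 : y * (M.length : ℝ) ≤ (⌈y⌉₊ : ℝ) * (M.length : ℝ) :=
        mul_le_mul_of_nonneg_right h3 (Nat.cast_nonneg _)
      linarith
    exact_mod_cast h2
  have h2 : size b' ≤ (⌈y⌉₊ * M.length + K) * 3 := by
    have h3 : size b' ≤ b'.length * (2 * 1 + 1) := size_list_le b' (fun x _ => (size_bool x).le)
    rw [hb'.1] at h3
    have h4 : (g M).length * (2 * 1 + 1) ≤ (⌈y⌉₊ * M.length + K) * 3 :=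
      Nat.mul_le_mul_right 3 hlen'
    omega
  have h3 : P.eval (size M + size b') ≤ P'.eval M.length :=
    (eval_mono P (Nat.add_le_add h1 h2)).trans (hP' M.length)
  have h4 : ((P.eval (size M + size b') : ℕ) : ℝ) ≤ c * (1 + η) ^ M.length :=
    (Nat.cast_le.2 h3).trans (hcn M.length)
  have h5 : (b : ℝ) ^ (g M).length ≤ b ^ K * (b ^ y) ^ M.length := by
    rw [← Real.rpow_natCast b (g M).length, ← Real.rpow_natCast b K,
      ← Real.rpow_natCast (b ^ y) M.length, ← Real.rpow_mul hb0.le, ← Real.rpow_add hb0]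
    exact Real.rpow_le_rpow_of_exponent_le hb (by linarith)
  have h6 : (t' : ℝ) ≤ ((P.eval (size M + size b') : ℕ) : ℝ) + s := by exact_mod_cast ht'
  have e1 : (1 : ℝ) ≤ (1 + η) ^ M.length := one_le_pow₀ (by linarith)
  have e2 : (1 : ℝ) ≤ (b ^ y) ^ M.length := one_le_pow₀ hby
  have e3 : (0 : ℝ) ≤ b ^ K := by positivity
  calc (t' : ℝ) ≤ ((P.eval (size M + size b') : ℕ) : ℝ) + s := h6
    _ ≤ c * (1 + η) ^ M.length + C * (b ^ K * (b ^ y) ^ M.length) := by
        have := mul_le_mul_of_nonneg_left h5 hC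
        linarith
    _ ≤ c * ((b ^ y) ^ M.length * (1 + η) ^ M.length) +
        C * (b ^ K * ((b ^ y) ^ M.length * (1 + η) ^ M.length)) := by
        gcongr
        · nlinarith
        · nlinarith
    _ = (c + C * b ^ K) * (b ^ y * (1 + η)) ^ M.length := by rw [mul_pow]; ring

end Pool.Agent.H66.MB
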