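import Pool.Agent.H66.MB.CoreG
import Pool.Agent.H66.MB.CorePoly
import Pool.Agent.H66.MB.Leaf
import Pool.Agent.H66.MB.EpsL
import Pool.Agent.H66.MB.Inst

/-!
# The exact law for graphs without large sparse induced subgraphs

PROOF of `inTime_core`: as `inTime_degIn` in `Conv`: a valid matrix `M` with `HasCore D a b M` is `mat G`
for a graph `G` on `Fin M.length` (`exists_graph`); `G` is in `coreLe D θ` as `a / b ≤ θ`: a
finset `C` of `Fin n` gives the list of its values, `dg_mat_finset`. Clean version: `clean_sol`.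

PROOF of `core_low`. Let `u = 1 + eps (coreLe D θ) ≥ 1` and let `a / b ≤ θ` be a positive rational
with `a ≤ b`. For every `η > 0`, `InTime (coreLe D θ) (u + η)` (`inTime_of_gt`), so
`ITM (HasCore D a b) (u + η)`. `reduce` with `g M = cliq M (cN D a b M.length)`, `y = b / a`
(`polyTime_cliq`, `cliq_valid`, `cliq_core`, `cN_le`, `cliq_back`, `mk_length`) gives
`ITM (fun _ => True) ((u + η) ^ (b / a) (1 + η))`, so
`1 + eps allG ≤ (u + η) ^ (b / a) (1 + η)` (`inTime_all`, `eps_le`). Let `η → 0`, then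
`a / b → θ` from below: `1 + eps allG ≤ u ^ (1 / θ)`.

PROOF of `core_up`. `inst` with `η` gives `D`, `p`, `K`; for `G` in `coreLe D' θ`, `D' ≥ D`, the
condition holds with `h = ⌊θ n⌋₊`, and
`K (1 + η) ^ n (c + η) ^ h ≤ |K| ((1 + η) (c + η) ^ θ) ^ n`. So
`1 + eps (coreLe D' θ) ≤ (1 + η) (1 + eps allG + η) ^ θ`.

PROOF of `core_main`: for `θ = 0` the lower bound is `eps_nonneg`; otherwise `core_low` gives
`(1 + eps allG) ^ θ ≤ 1 + eps (coreLe D θ)` for every `D`. The upper bound tends to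
`(1 + eps allG) ^ θ` for `η → 0`.
-/

set_option autoImplicit false

namespace Pool.Agent.H66.MB

open Pool.Agent.H80.Poly Filter Topology

theorem inTime_core {c : ℝ} (hc : 1 ≤ c) (D a b : ℕ) (hb : 0 < b) (θ : ℝ)
    (hθ : (a : ℝ) / b ≤ θ) (h : InTime (coreLe D θ) c) : ITM (HasCore D a b) c := by
  obtain ⟨p, C, hp⟩ := h
  obtain ⟨q, K, hK, hq⟩ := clean_sol p
  refine ⟨q, K * (|C| + 1), by positivity, fun M hM hA => ?_⟩
  obtain ⟨G, hG⟩ := exists_graph M hM
  have hA' : HasCore D a b (mat G) := by rw [hG]; exact hA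
  have hcore : coreLe D θ M.length G := by
    intro C' hC'
    have hnod : (C'.toList.map (fun u : Fin M.length => (u : ℕ))).Nodup :=
      (C'.nodup_toList).map Fin.val_injective
    have hmem : ∀ w : Fin M.length, (w : ℕ) ∈ C'.toList.map (fun u : Fin M.length => (u : ℕ)) ↔
        w ∈ C' := by
      intro w
      constructor
      · intro hw
        obtain ⟨u, hu, huw⟩ := List.mem_map.mp hw
        have h1 : u = w := Fin.val_injective huw
        rw [← h1]
        exact Finset.mem_toList.mp hu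
      · intro hw
        exact List.mem_map.mpr ⟨w, Finset.mem_toList.mpr hw, rfl⟩
    have hlt : ∀ x ∈ C'.toList.map (fun u : Fin M.length => (u : ℕ)), x < M.length := by
      intro x hx
      obtain ⟨u, _, rfl⟩ := List.mem_map.mp hx
      exact u.2
    have h1 := hA' (C'.toList.map (fun u : Fin M.length => (u : ℕ))) hnod
      (by rw [mat_length]; exact hlt) (by
        intro v hv
        obtain ⟨u, hu, rfl⟩ := List.mem_map.mp hv
        rw [dg_mat_finset G _ hnod hlt u]
        have h2 := hC' u (Finset.mem_toList.mp hu)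
        refine le_trans (le_of_eq ?_) h2
        congr 2
        ext w
        exact hmem w)
    rw [mat_length, List.length_map, Finset.length_toList] at h1
    have h2 : (b : ℝ) * C'.card ≤ a * M.length := by exact_mod_cast h1
    have hb' : (0 : ℝ) < b := by exact_mod_cast hb
    have h3 : (C'.card : ℝ) ≤ (a : ℝ) / b * M.length := by
      rw [div_mul_eq_mul_div, le_div_iff₀ hb']
      linarith
    exact h3.trans (mul_le_mul_of_nonneg_right hθ (Nat.cast_nonneg _))
  have h1 := hp M.length G hcore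
  rw [runs_iff, hG] at h1
  refine (hq M _ h1).mono ?_
  have h2 : 1 ≤ c ^ M.length := one_le_pow₀ hc
  have h3 : C * c ^ M.length + 1 ≤ (|C| + 1) * c ^ M.length := by
    have h4 : C * c ^ M.length ≤ |C| * c ^ M.length :=
      mul_le_mul_of_nonneg_right (le_abs_self C) (by positivity)
    linarith
  calc K * (C * c ^ M.length + 1) ≤ K * ((|C| + 1) * c ^ M.length) :=
        mul_le_mul_of_nonneg_left h3 hK
    _ = K * (|C| + 1) * c ^ M.length := by ring

private theorem low_aux (D : ℕ) (θ : ℝ) (a b : ℕ) (ha : 0 < a) (hab : a ≤ b)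
    (hθ : (a : ℝ) / b ≤ θ) (η : ℝ) (hη : 0 < η) :
    1 + eps allG ≤ (1 + eps (coreLe D θ) + η) ^ ((b : ℝ) / a) * (1 + η) := by
  have he := eps_nonneg (coreLe D θ)
  have hb : 0 < b := lt_of_lt_of_le ha hab
  have hc : (1 : ℝ) ≤ 1 + eps (coreLe D θ) + η := by linarith
  have h1 : InTime (coreLe D θ) (1 + eps (coreLe D θ) + η) := inTime_of_gt (by linarith)
  have h2 : ITM (HasCore D a b) (1 + eps (coreLe D θ) + η) := inTime_core hc D a b hb θ hθ h1
  obtain ⟨K, hK⟩ := cN_le (b := b) ha D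
  have hy : (0 : ℝ) ≤ (b : ℝ) / a := by positivity
  have h3 : ITM (fun _ => True) ((1 + eps (coreLe D θ) + η) ^ ((b : ℝ) / a) * (1 + η)) := by
    refine reduce (fun M => cliq M (cN D a b M.length)) (polyTime_cliq D a b) ((b : ℝ) / a) hy K
      (fun M hM _ => ⟨cliq_valid hM _, cliq_core ha hab D, ?_, fun b' hb' => ?_⟩)
      _ hc h2 η hη
    · have h4 : (cliq M (cN D a b M.length)).length = cN D a b M.length := mk_length _ _
      rw [h4]
      exact hK M.length
    · refine cliq_back hM ?_ b' hb'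
      have h5 := (cN_gt ha hab D M.length).1
      omega
  have h4 : (1 : ℝ) ≤ (1 + eps (coreLe D θ) + η) ^ ((b : ℝ) / a) * (1 + η) := by
    have h5 : (1 : ℝ) ≤ (1 + eps (coreLe D θ) + η) ^ ((b : ℝ) / a) := Real.one_le_rpow hc hy
    nlinarith
  exact eps_le h4 ((inTime_all h4).mpr h3)

private theorem low_aux2 (D : ℕ) (θ : ℝ) (a b : ℕ) (ha : 0 < a) (hab : a ≤ b)
    (hθ : (a : ℝ) / b ≤ θ) :
    1 + eps allG ≤ (1 + eps (coreLe D θ)) ^ ((b : ℝ) / a) := by
  have he := eps_nonneg (coreLe D θ)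
  have h1 : Tendsto (fun η : ℝ => (1 + eps (coreLe D θ) + η) ^ ((b : ℝ) / a) * (1 + η))
      (𝓝[>] 0) (𝓝 ((1 + eps (coreLe D θ) + 0) ^ ((b : ℝ) / a) * (1 + 0))) := by
    have h2 : ContinuousAt (fun η : ℝ => (1 + eps (coreLe D θ) + η) ^ ((b : ℝ) / a) * (1 + η)) 0 := by
      refine ContinuousAt.mul ?_ (by fun_prop)
      refine ContinuousAt.rpow_const (by fun_prop) ?_
      left
      have : (0 : ℝ) < 1 + eps (coreLe D θ) + 0 := by linarith
      exact this.ne'
    exact h2.tendsto.mono_left nhdsWithin_le_nhds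
  rw [add_zero, add_zero, mul_one] at h1
  refine ge_of_tendsto h1 ?_
  filter_upwards [self_mem_nhdsWithin] with η hη
  exact low_aux D θ a b ha hab hθ η hη

private theorem low_aux3 (D : ℕ) (θ : ℝ) (h1 : θ ≤ 1) (r : ℝ) (hr : 0 < r) (hrθ : r < θ) :
    1 + eps allG ≤ (1 + eps (coreLe D θ)) ^ (1 / r) := by
  have he := eps_nonneg (coreLe D θ)
  obtain ⟨t, ht1, ht2⟩ := exists_rat_btwn hrθ
  have ht0 : (0 : ℝ) < t := hr.trans ht1
  have ht0' : 0 < t := by exact_mod_cast ht0
  have hnum : 0 < t.num := Rat.num_pos.mpr ht0'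
  have hnat : ((t.num.toNat : ℕ) : ℤ) = t.num := Int.toNat_of_nonneg hnum.le
  have hcast : ((t.num.toNat : ℕ) : ℝ) / (t.den : ℝ) = t := by
    have h2 : ((t.num.toNat : ℕ) : ℝ) = (t.num : ℝ) := by exact_mod_cast congrArg (Int.cast (R := ℝ)) hnat
    rw [h2]
    exact (Rat.cast_def t).symm
  have hden : (0 : ℝ) < (t.den : ℝ) := by exact_mod_cast t.den_pos
  have ha : 0 < t.num.toNat := by omega
  have ht1' : (t : ℝ) ≤ 1 := by linarith
  have hab : t.num.toNat ≤ t.den := by
    have h3 : ((t.num.toNat : ℕ) : ℝ) ≤ (t.den : ℝ) := by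
      rw [← hcast, div_le_one hden] at ht1'
      exact ht1'
    exact_mod_cast h3
  have h4 := low_aux2 D θ t.num.toNat t.den ha hab (by rw [hcast]; exact ht2.le)
  have h5 : ((t.den : ℝ)) / ((t.num.toNat : ℕ) : ℝ) = 1 / (t : ℝ) := by
    rw [← hcast, one_div_div]
  rw [h5] at h4
  refine h4.trans (Real.rpow_le_rpow_of_exponent_le (by linarith) ?_)
  exact one_div_le_one_div_of_le hr ht1.le

theorem core_low (D : ℕ) (θ : ℝ) (h0 : 0 < θ) (h1 : θ ≤ 1) :
    1 + eps allG ≤ (1 + eps (coreLe D θ)) ^ (1 / θ) := by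
  have he := eps_nonneg (coreLe D θ)
  have h2 : Tendsto (fun r : ℝ => (1 + eps (coreLe D θ)) ^ (1 / r)) (𝓝[<] θ)
      (𝓝 ((1 + eps (coreLe D θ)) ^ (1 / θ))) := by
    have h3 : ContinuousAt (fun r : ℝ => (1 + eps (coreLe D θ)) ^ (1 / r)) θ := by
      refine ContinuousAt.rpow continuousAt_const ?_ ?_
      · exact ContinuousAt.div continuousAt_const continuousAt_id h0.ne'
      · left
        have : (0 : ℝ) < 1 + eps (coreLe D θ) := by linarith
        exact this.ne'
    exact h3.tendsto.mono_left nhdsWithin_le_nhds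
  refine ge_of_tendsto h2 ?_
  filter_upwards [Ioo_mem_nhdsLT h0] with r hr
  exact low_aux3 D θ h1 r hr.1 hr.2

theorem core_up (θ : ℝ) (h0 : 0 ≤ θ) (η : ℝ) (hη : 0 < η) : ∃ D : ℕ, ∀ D', D ≤ D' →
    1 + eps (coreLe D' θ) ≤ (1 + η) * (1 + eps allG + η) ^ θ := by
  have he := eps_nonneg allG
  have hc1 : (1 : ℝ) ≤ 1 + eps allG + η := by linarith
  obtain ⟨D, p, K, hp⟩ := inst η hη
  refine ⟨D, fun D' hD' => ?_⟩
  have h1 : (1 : ℝ) ≤ (1 + eps allG + η) ^ θ := Real.one_le_rpow hc1 h0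
  have h2 : (1 : ℝ) ≤ (1 + η) * (1 + eps allG + η) ^ θ := by nlinarith
  refine eps_le h2 ⟨p, |K|, fun n G hG => ?_⟩
  have h3 := hp n G ⌊θ * n⌋₊ (fun C hC => Nat.le_floor (hG C fun v hv => (hC v hv).trans hD'))
  rw [runs_iff] at h3 ⊢
  refine h3.mono ?_
  have h4 : (1 + eps allG + η) ^ ⌊θ * n⌋₊ ≤ ((1 + eps allG + η) ^ θ) ^ n := by
    rw [← Real.rpow_natCast (1 + eps allG + η) ⌊θ * n⌋₊, ← Real.rpow_natCast _ n,
      ← Real.rpow_mul (by linarith)]
    exact Real.rpow_le_rpow_of_exponent_le hc1 (Nat.floor_le (by positivity))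
  have h5 : (0 : ℝ) ≤ (1 + η) ^ n := by positivity
  have h6 : (0 : ℝ) ≤ (1 + eps allG + η) ^ ⌊θ * n⌋₊ := by positivity
  calc K * (1 + η) ^ n * (1 + eps allG + η) ^ ⌊θ * n⌋₊
      ≤ |K| * (1 + η) ^ n * (1 + eps allG + η) ^ ⌊θ * n⌋₊ := by
        refine mul_le_mul_of_nonneg_right ?_ h6
        exact mul_le_mul_of_nonneg_right (le_abs_self K) h5
    _ ≤ |K| * (1 + η) ^ n * ((1 + eps allG + η) ^ θ) ^ n := by
        refine mul_le_mul_of_nonneg_left h4 ?_
        positivity
    _ = |K| * ((1 + η) * (1 + eps allG + η) ^ θ) ^ n := by rw [mul_pow]; ring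

theorem core_main (θ : ℝ) (h0 : 0 ≤ θ) (h1 : θ ≤ 1) :
    Tendsto (fun D : ℕ => 1 + eps (coreLe D θ)) atTop (𝓝 ((1 + eps allG) ^ θ)) := by
  have he := eps_nonneg allG
  have hlow : ∀ D : ℕ, (1 + eps allG) ^ θ ≤ 1 + eps (coreLe D θ) := by
    intro D
    have hD := eps_nonneg (coreLe D θ)
    rcases h0.eq_or_lt with h | h
    · rw [← h, Real.rpow_zero]
      rw [← h] at hD
      linarith
    · have h2 := core_low D θ h h1
      have h3 : (1 + eps allG) ^ θ ≤ ((1 + eps (coreLe D θ)) ^ (1 / θ)) ^ θ :=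
        Real.rpow_le_rpow (by linarith) h2 h.le
      rw [← Real.rpow_mul (by linarith), one_div_mul_cancel h.ne', Real.rpow_one] at h3
      exact h3
  refine tendsto_order.2 ⟨fun x hx => Eventually.of_forall fun D => lt_of_lt_of_le hx (hlow D),
    fun x hx => ?_⟩
  have h2 : Tendsto (fun η : ℝ => (1 + η) * (1 + eps allG + η) ^ θ) (𝓝[>] 0)
      (𝓝 ((1 + 0) * (1 + eps allG + 0) ^ θ)) := by
    have h3 : ContinuousAt (fun η : ℝ => (1 + η) * (1 + eps allG + η) ^ θ) 0 := by
      refine ContinuousAt.mul (by fun_prop) ?_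
      refine ContinuousAt.rpow_const (by fun_prop) ?_
      left
      have : (0 : ℝ) < 1 + eps allG + 0 := by linarith
      exact this.ne'
    exact h3.tendsto.mono_left nhdsWithin_le_nhds
  rw [add_zero, add_zero, one_mul] at h2
  have h3 := (h2.eventually_lt_const hx).and self_mem_nhdsWithin
  obtain ⟨η, hη1, hη2⟩ := h3.exists
  obtain ⟨D, hD⟩ := core_up θ h0 η hη2
  filter_upwards [eventually_ge_atTop D] with D' hD'
  exact lt_of_le_of_lt (hD D' hD') hη1

end Pool.Agent.H66.MB
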