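import Pool.Agent.H66.MB.CoreDef

/-!
# A graph and a disjoint clique

PROOFS. `cN_gt`: `a * cN ≥ b (k + D + 1)` (ceiling) and `a ≤ b` give `cN ≥ k + D + 1`.
`cN_le`: `a * cN ≤ b (k + D + 1) + a - 1`, so `cN ≤ (b / a) k + (b / a) (D + 1) + 1`.
`cliq_valid`: `valid_mk`.
`cliq_core`: a list `C` of distinct vertices of `cliq M n` with inner degrees at most `D` has at most
`M.length` elements below `M.length` and at most `D + 1` elements in the clique (each of them is
adjacent to all others), so `|C| ≤ M.length + D + 1` and
`b |C| ≤ b (k + D + 1) ≤ a cN`.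
`cliq_back`: as `gad_back` in `GadInd`: a maximum vector `c` of `cliq M n` (`n > M.length`) has at most
one `true` in the clique; for every independent `J` of `M`, `J ∪ {M.length}` is independent in
`cliq M n`, so `J.card + 1 ≤ c.count true ≤ (c.take M.length).count true + 1`
(`maxV_card`, `count_true`).
-/

set_option autoImplicit false

namespace Pool.Agent.H66.MB

theorem cN_gt {a b : ℕ} (ha : 0 < a) (hab : a ≤ b) (D k : ℕ) : k + D + 1 ≤ cN D a b k ∧
    b * (k + D + 1) ≤ a * cN D a b k := by
  have h2 : b * (k + D + 1) ≤ a * cN D a b k := by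
    unfold cN
    have h3 := Nat.div_add_mod (b * (k + D + 1) + a - 1) a
    have h4 := Nat.mod_lt (b * (k + D + 1) + a - 1) ha
    omega
  refine ⟨?_, h2⟩
  have h5 : a * (k + D + 1) ≤ a * cN D a b k := (Nat.mul_le_mul_right _ hab).trans h2
  exact Nat.le_of_mul_le_mul_left h5 ha

theorem cN_le {a b : ℕ} (ha : 0 < a) (D : ℕ) : ∃ K : ℕ, ∀ k : ℕ,
    (cN D a b k : ℝ) ≤ ((b : ℝ) / a) * k + K := by
  refine ⟨⌈(b : ℝ) / a * (D + 1) + 1⌉₊, fun k => ?_⟩
  have h1 := Nat.le_ceil ((b : ℝ) / a * (D + 1) + 1)
  have ha' : (0 : ℝ) < a := by exact_mod_cast ha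
  have h2 : a * cN D a b k ≤ b * (k + D + 1) + a := by
    unfold cN
    have h3 := Nat.mul_div_le (b * (k + D + 1) + a - 1) a
    omega
  have h3 : (a : ℝ) * (cN D a b k : ℝ) ≤ (b : ℝ) * (k + D + 1) + a := by exact_mod_cast h2
  have h4 : (cN D a b k : ℝ) ≤ ((b : ℝ) * (k + D + 1) + a) / a := by
    rw [le_div_iff₀ ha']
    linarith
  have h5 : ((b : ℝ) * (k + D + 1) + a) / a = (b : ℝ) / a * k + ((b : ℝ) / a * (D + 1) + 1) := by
    field_simp
    ring
  linarith

/-- the edges of `cliq` -/
private def ced (M : Mat) (i j : ℕ) : Bool :=
  if i < M.length then (if j < M.length then adj M i j else false)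
    else (if j < M.length then false else decide (i ≠ j))

private theorem adj_cliq (M : Mat) (n i j : ℕ) :
    adj (cliq M n) i j = (decide (i < n) && decide (j < n) && ced M i j) := by
  unfold cliq
  exact adj_mk _ _ _ _

theorem cliq_valid {M : Mat} (hM : Valid M) (n : ℕ) : Valid (cliq M n) := by
  unfold cliq
  apply valid_mk
  · intro i _ j _
    by_cases h1 : i < M.length
    · by_cases h2 : j < M.length
      · simp only [h1, h2, if_true]
        exact hM.2.1 i j
      · simp [h1, h2]
    · by_cases h2 : j < M.length
      · simp [h1, h2]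
      · simp only [h1, h2, if_false]
        exact decide_eq_decide.2 ne_comm
  · intro i _
    by_cases h1 : i < M.length
    · simp only [h1, if_true]
      exact hM.2.2 i
    · simp [h1]

theorem cliq_core {M : Mat} {a b : ℕ} (ha : 0 < a) (hab : a ≤ b) (D : ℕ) :
    HasCore D a b (cliq M (cN D a b M.length)) := by
  intro C hnd hlt hdg
  obtain ⟨_, h2⟩ := cN_gt ha hab D M.length
  have hlen : (cliq M (cN D a b M.length)).length = cN D a b M.length := by
    unfold cliq
    exact mk_length _ _
  rw [hlen]
  rw [hlen] at hlt
  have hcard : C.toFinset.card = C.length := List.toFinset_card_of_nodup hnd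
  have hA : (C.toFinset.filter (fun x => x < M.length)).card ≤ M.length := by
    have h3 : C.toFinset.filter (fun x => x < M.length) ⊆ Finset.range M.length := by
      intro x hx
      rw [Finset.mem_filter] at hx
      exact Finset.mem_range.2 hx.2
    have := Finset.card_le_card h3
    rwa [Finset.card_range] at this
  have hB : (C.toFinset.filter (fun x => ¬ x < M.length)).card ≤ D + 1 := by
    rcases (C.toFinset.filter (fun x => ¬ x < M.length)).eq_empty_or_nonempty with h0 | ⟨v, hv⟩
    · rw [h0]
      simp
    · have hv' := Finset.mem_filter.1 hv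
      have hvC : v ∈ C := List.mem_toFinset.1 hv'.1
      have h4 := hdg v hvC
      have h5 : (C.toFinset.filter (fun x => ¬ x < M.length)).erase v ⊆
          (C.filter (fun u => adj (cliq M (cN D a b M.length)) v u)).toFinset := by
        intro x hx
        rw [Finset.mem_erase, Finset.mem_filter, List.mem_toFinset] at hx
        rw [List.mem_toFinset, List.mem_filter]
        refine ⟨hx.2.1, ?_⟩
        rw [adj_cliq, decide_eq_true (hlt v hvC), decide_eq_true (hlt x hx.2.1)]
        unfold ced
        rw [if_neg hv'.2, if_neg hx.2.2]
        simp only [Bool.true_and, decide_eq_true_eq]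
        exact fun h => hx.1 h.symm
      have h6 := Finset.card_le_card h5
      rw [Finset.card_erase_of_mem hv] at h6
      have h7 := List.toFinset_card_le (C.filter (fun u => adj (cliq M (cN D a b M.length)) v u))
      unfold dg at h4
      omega
  have hsum := Finset.card_filter_add_card_filter_not (s := C.toFinset) (fun x => x < M.length)
  have h8 : C.length ≤ M.length + D + 1 := by omega
  exact (Nat.mul_le_mul_left _ h8).trans h2

theorem cliq_back {M : Mat} (hM : Valid M) {n : ℕ} (hn : M.length < n) (c : List Bool)
    (hc : MaxV (cliq M n) c) : MaxV M (c.take M.length) := by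
  have hlen : (cliq M n).length = n := by
    unfold cliq
    exact mk_length _ _
  have hcl : c.length = n := by rw [hc.1, hlen]
  have htl : (c.take M.length).length = M.length := by
    rw [List.length_take, hcl]
    omega
  have hgetD : ∀ i, (c.take M.length).getD i false = true ↔
      i < M.length ∧ c.getD i false = true := by
    intro i
    rw [List.getD_eq_getElem?_getD, List.getD_eq_getElem?_getD, List.getElem?_take]
    by_cases hi : i < M.length
    · rw [if_pos hi]
      exact ⟨fun h => ⟨hi, h⟩, fun h => h.2⟩
    · rw [if_neg hi]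
      constructor
      · intro h
        simp at h
      · intro h
        exact absurd h.1 hi
  obtain ⟨S, hS⟩ : ∃ S : Finset ℕ,
      S = (Finset.range c.length).filter (fun i => c.getD i false = true) := ⟨_, rfl⟩
  have hScard : S.card = c.count true := by
    rw [hS]
    exact (count_true c).symm
  have hSm : ∀ x ∈ S, x < n ∧ c.getD x false = true := by
    intro x hx
    rw [hS, Finset.mem_filter, Finset.mem_range, hcl] at hx
    exact hx
  have hup : (S.filter (fun x => ¬ x < M.length)).card ≤ 1 := by
    rw [Finset.card_le_one]
    intro x hx y hy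
    rw [Finset.mem_filter] at hx hy
    by_contra hne
    have h := hc.2.1 x y (hSm x hx.1).2 (hSm y hy.1).2
    rw [adj_cliq, decide_eq_true (hSm x hx.1).1, decide_eq_true (hSm y hy.1).1] at h
    unfold ced at h
    rw [if_neg hx.2, if_neg hy.2] at h
    simp [hne] at h
  have hIV : IndV M (c.take M.length) := by
    intro i j hi hj
    rw [hgetD] at hi hj
    have h := hc.2.1 i j hi.2 hj.2
    rw [adj_cliq] at h
    have h1 : i < n := by omega
    have h2 : j < n := by omega
    rw [decide_eq_true h1, decide_eq_true h2, Bool.true_and, Bool.true_and] at h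
    unfold ced at h
    rw [if_pos hi.1, if_pos hj.1] at h
    exact h
  refine ⟨htl, hIV, ?_⟩
  intro e he heI
  obtain ⟨J, hJ⟩ : ∃ J : Finset ℕ,
      J = (Finset.range e.length).filter (fun i => e.getD i false = true) := ⟨_, rfl⟩
  have hJcard : J.card = e.count true := by
    rw [hJ]
    exact (count_true e).symm
  have hJm : ∀ x ∈ J, x < M.length ∧ e.getD x false = true := by
    intro x hx
    rw [hJ, Finset.mem_filter, Finset.mem_range, he] at hx
    exact hx
  have hlow : Ind (cliq M n) (insert M.length J) := by
    intro x hx y hy
    rw [adj_cliq]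
    have hz : ced M x y = false := by
      unfold ced
      rw [Finset.mem_insert] at hx hy
      rcases hx with hx | hx
      · rw [if_neg (by omega)]
        rcases hy with hy | hy
        · rw [if_neg (by omega), hx, hy]
          simp
        · rw [if_pos (hJm y hy).1]
      · rw [if_pos (hJm x hx).1]
        rcases hy with hy | hy
        · rw [if_neg (by omega)]
        · rw [if_pos (hJm y hy).1]
          exact heI x y (hJm x hx).2 (hJm y hy).2
    rw [hz, Bool.and_false]
  have h1 : (insert M.length J).card ≤ c.count true := by
    apply maxV_card hc _ _ hlow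
    intro x hx
    rw [hlen]
    rw [Finset.mem_insert] at hx
    rcases hx with hx | hx
    · omega
    · have := (hJm x hx).1
      omega
  have h2 : (insert M.length J).card = J.card + 1 := by
    apply Finset.card_insert_of_notMem
    intro h
    have := (hJm _ h).1
    omega
  have h3 := Finset.card_filter_add_card_filter_not (s := S) (fun x => x < M.length)
  have h4 : (S.filter (fun x => x < M.length)).card = (c.take M.length).count true := by
    rw [count_true]
    congr 1
    ext x
    rw [Finset.mem_filter, Finset.mem_filter, hgetD, Finset.mem_range, htl, hS, Finset.mem_filter,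
      Finset.mem_range]
    constructor
    · rintro ⟨⟨_, h6⟩, h7⟩
      exact ⟨h7, h7, h6⟩
    · rintro ⟨h5, _, h7⟩
      exact ⟨⟨by omega, h7⟩, h5⟩
  omega

end Pool.Agent.H66.MB
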