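import Mathlib
import Pool.Agent.H80.Poly.More

/-!
# The exponential base of maximum independent set: definitions

Machine model: the structured programs `Prog` of `Pool.Agent.H80.Poly.Prog`
(finitely many stacks of bits; push, pop, test the top, sequence, if, while; each elementary
instruction costs 1), a standard sequential model equivalent up to constant factors to multitape
Turing machines.
-/

set_option autoImplicit false

namespace Pool.Agent.H66.MB

open Pool.Agent.H80.Poly

/-- The adjacency matrix of a graph with vertex set `{0, ..., n-1}`. -/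
noncomputable def mat {n : ℕ} (G : SimpleGraph (Fin n)) : List (List Bool) :=
  letI : DecidableRel G.Adj := Classical.decRel _
  List.ofFn fun i => List.ofFn fun j => decide (G.Adj i j)

/-- The 0/1 vector of a set of vertices. -/
def vec {n : ℕ} (S : Finset (Fin n)) : List Bool := List.ofFn fun i => decide (i ∈ S)

/-- Started with the adjacency matrix of `G` on stack 0, the program `p` stops within `t` steps
with a maximum independent set of `G` on stack 0. -/
def Runs (p : Prog) {n : ℕ} (G : SimpleGraph (Fin n)) (t : ℝ) : Prop :=
  ∃ (S : Finset (Fin n)) (T : Stt) (s : ℕ), G.IsMaximumIndepSet S ∧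
    Ex p (ini (enc (mat G))) T s ∧ T 0 = enc (vec S) ∧ (s : ℝ) ≤ t

/-- A class of (finite) graphs. -/
abbrev Cls : Type := ∀ n : ℕ, SimpleGraph (Fin n) → Prop

/-- Maximum independent set on the class `𝒢` can be solved in `O(c^n)` steps. -/
def InTime (𝒢 : Cls) (c : ℝ) : Prop :=
  ∃ (p : Prog) (C : ℝ), ∀ (n : ℕ) (G : SimpleGraph (Fin n)), 𝒢 n G → Runs p G (C * c ^ n)

/-- The infimum of the `e ≥ 0` such that maximum independent set on the class `𝒢` can be solved
in `O((1+e)^n)` steps. -/
noncomputable def eps (𝒢 : Cls) : ℝ := sInf {e : ℝ | 0 ≤ e ∧ InTime 𝒢 (1 + e)}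

/-- All graphs. -/
def allG : Cls := fun _ _ => True

/-- Graphs in which every degree lies between `d` and `κ d`. -/
def degIn (d : ℕ) (κ : ℝ) : Cls := fun _ G => ∀ v,
  d ≤ (G.neighborSet v).ncard ∧ ((G.neighborSet v).ncard : ℝ) ≤ κ * d

/-- Graphs of maximum degree at most `D`. -/
def degLe (D : ℕ) : Cls := fun _ G => ∀ v, (G.neighborSet v).ncard ≤ D

/-! ### matrices -/

/-- A square 0/1 matrix as a list of rows. -/
abbrev Mat : Type := List (List Bool)

/-- entry `(i,j)` (false outside of the matrix) -/
def adj (M : Mat) (i j : ℕ) : Bool := (M.getD i []).getD j false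

/-- `M` is the adjacency matrix of a graph with `M.length` vertices. -/
def Valid (M : Mat) : Prop := (∀ r ∈ M, r.length = M.length) ∧ (∀ i j, adj M i j = adj M j i) ∧
  ∀ i, adj M i i = false

/-- number of elements of the list `C` adjacent to `v` -/
def dg (M : Mat) (C : List ℕ) (v : ℕ) : ℕ := (C.filter (fun u => adj M v u)).length

/-- the 0/1 vector `b` describes an independent set -/
def IndV (M : Mat) (b : List Bool) : Prop :=
  ∀ i j, b.getD i false = true → b.getD j false = true → adj M i j = false

/-- the 0/1 vector `b` describes a maximum independent set -/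
def MaxV (M : Mat) (b : List Bool) : Prop := b.length = M.length ∧ IndV M b ∧
  ∀ b' : List Bool, b'.length = M.length → IndV M b' → b'.count true ≤ b.count true

/-- all degrees are at most `D` -/
def DegLe (M : Mat) (D : ℕ) : Prop := ∀ v < M.length, dg M (List.range M.length) v ≤ D

/-- all degrees lie between `d` and `Δ` -/
def DegIn (M : Mat) (d Δ : ℕ) : Prop := ∀ v < M.length,
  d ≤ dg M (List.range M.length) v ∧ dg M (List.range M.length) v ≤ Δ

/-- The program solves the instance `M` within `t` steps. -/
def SolM (p : Prog) (M : Mat) (t : ℝ) : Prop := ∃ (b : List Bool) (T : Stt) (s : ℕ), MaxV M b ∧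
  Ex p (ini (enc M)) T s ∧ T 0 = enc b ∧ (s : ℝ) ≤ t

/-- The program solves the instance `M` within `t` steps and leaves all other stacks empty. -/
def SolC (p : Prog) (M : Mat) (t : ℝ) : Prop := ∃ (b : List Bool) (s : ℕ), MaxV M b ∧
  Ex p (ini (enc M)) (ini (enc b)) s ∧ (s : ℝ) ≤ t

/-- the submatrix on the list `C` of vertices -/
def sub (M : Mat) (C : List ℕ) : Mat := C.map (fun i => C.map (fun j => adj M i j))

/-- the `n × n` matrix with entries `f i j` -/
def mk (n : ℕ) (f : ℕ → ℕ → Bool) : Mat :=
  (List.range n).map (fun i => (List.range n).map (fun j => f i j))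

end Pool.Agent.H66.MB
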