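import Pool.Agent.H66.MB.MatA

/-!
# Edge counting

PROOF of `edge_count`. Let `R = range n`, `n = M.length`, `C` a list of distinct vertices,
`C' = R.filter (· ∉ C)`. For every `v`, `dg M R v = dg M C v + dg M C' v` (`R` is a permutation
of `C ++ C'`; `List.Perm` and `dg` invariant under permutation; or turn everything into
cardinalities of finsets: `dg M L v = (L.toFinset.filter (adj M v ·)).card` for `L.Nodup`). For
`v ∈ C`: `dg M C' v = dg M R v - dg M C v ≥ d - D`. Double counting (`Finset.sum_comm`, `adj`
symmetric): `∑ v ∈ C, dg M C' v = ∑ u ∈ C', dg M C u ≤ |C'| Δ = (n - |C|) Δ`. So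
`|C| (d - D) ≤ (n - |C|) Δ`.
-/

set_option autoImplicit false

namespace Pool.Agent.H66.MB

open Pool.Agent.H80.Poly

private lemma edgec_dg (M : Mat) {L : List ℕ} (hL : L.Nodup) (v : ℕ) :
    dg M L v = (L.toFinset.filter fun u => adj M v u = true).card := by
  unfold dg
  rw [← List.toFinset_card_of_nodup (hL.filter _), List.toFinset_filter]

theorem edge_count {M : Mat} (hM : Valid M) {d Δ D : ℕ} (hd : DegIn M d Δ) (hD : D ≤ d)
    {C : List ℕ} (hC : C.Nodup) (hn : ∀ x ∈ C, x < M.length) (hdg : ∀ v ∈ C, dg M C v ≤ D) :
    C.length * (Δ + (d - D)) ≤ M.length * Δ := by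
  set n := M.length with hn0
  set A : Finset ℕ := C.toFinset with hA
  have hAc : A.card = C.length := List.toFinset_card_of_nodup hC
  have hAR : A ⊆ Finset.range n := by
    intro x hx
    rw [hA, List.mem_toFinset] at hx
    exact Finset.mem_range.2 (hn x hx)
  have hAn : A.card ≤ n := by simpa using Finset.card_le_card hAR
  set B : Finset ℕ := Finset.range n \ A with hB
  have hBc : B.card = n - A.card := by
    rw [hB, Finset.card_sdiff_of_subset hAR, Finset.card_range]
  have hRd : ∀ v, dg M (List.range n) v =
      ((Finset.range n).filter fun u => adj M v u = true).card := by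
    intro v
    rw [edgec_dg M List.nodup_range, List.toFinset_range]
  have hsplit : ∀ v, ((Finset.range n).filter fun u => adj M v u = true).card =
      (A.filter fun u => adj M v u = true).card + (B.filter fun u => adj M v u = true).card := by
    intro v
    rw [← Finset.card_union_of_disjoint, ← Finset.filter_union, hB,
      Finset.union_sdiff_of_subset hAR]
    exact Finset.disjoint_filter_filter (by rw [hB]; exact Finset.disjoint_sdiff)
  have h1 : ∀ v ∈ A, d - D ≤ (B.filter fun u => adj M v u = true).card := by
    intro v hv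
    have hvC : v ∈ C := by rwa [hA, List.mem_toFinset] at hv
    have e1 := (hd v (hn v hvC)).1
    have e2 := hdg v hvC
    rw [← hn0, hRd, hsplit] at e1
    rw [edgec_dg M hC] at e2
    rw [← hA] at e2
    omega
  have h2 : ∀ u ∈ B, (A.filter fun v => adj M v u = true).card ≤ Δ := by
    intro u hu
    have huR : u < M.length := by
      rw [hB, Finset.mem_sdiff, Finset.mem_range] at hu
      exact hu.1
    have e1 := (hd u huR).2
    rw [← hn0, hRd, hsplit] at e1
    have e2 : (A.filter fun v => adj M v u = true) = A.filter fun v => adj M u v = true := by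
      refine Finset.filter_congr fun v _ => ?_
      rw [hM.2.1 v u]
    rw [e2]
    omega
  have h3 : ∑ v ∈ A, (B.filter fun u => adj M v u = true).card =
      ∑ u ∈ B, (A.filter fun v => adj M v u = true).card := by
    simp only [Finset.card_filter]
    exact Finset.sum_comm
  have h4 : A.card * (d - D) ≤ (n - A.card) * Δ := by
    calc A.card * (d - D) = ∑ v ∈ A, (d - D) := by rw [Finset.sum_const, smul_eq_mul]
      _ ≤ ∑ v ∈ A, (B.filter fun u => adj M v u = true).card := Finset.sum_le_sum h1
      _ = ∑ u ∈ B, (A.filter fun v => adj M v u = true).card := h3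
      _ ≤ ∑ u ∈ B, Δ := Finset.sum_le_sum h2
      _ = (n - A.card) * Δ := by rw [Finset.sum_const, smul_eq_mul, hBc]
  rw [← hAc]
  calc A.card * (Δ + (d - D)) = A.card * Δ + A.card * (d - D) := by ring
    _ ≤ A.card * Δ + (n - A.card) * Δ := Nat.add_le_add_left h4 _
    _ = n * Δ := by rw [← Nat.add_mul, Nat.add_sub_cancel' hAn]

end Pool.Agent.H66.MB
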