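import Pool.Agent.H66.MB.Gad
import Pool.Agent.H66.MB.Leaf
import Pool.Agent.H66.MB.App

/-!
# Lower bound for graphs with degrees between `d` and `Δ`

PROOF of `low`. `gadget` and `reduce` give `ITM (DegLe D) (b ^ y (1 + η / 2))` with
`y = 1 + (r + 1) d / ((Δ + 1 - r) r - d) ≥ 0` (the denominator is positive, `cap_pos`). Put
`b' = max ρ (b ^ y * (1 + η / 2))`. Then `b' ≥ 1`, `ITM (DegLe D) b'` (monotone) and
`b' ^ (D + 1) + 1 ≤ b' ^ (D + 2)`, because `x ^ (D + 2) - x ^ (D + 1) = x ^ (D + 1) (x - 1)` is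
monotone for `x ≥ 1`. `appB` gives a program for all matrices with cost
`2 b' ^ n (2 C + P(n)) ≤ K (b' (1 + η / 3)) ^ n` (`poly_le`), and
`b' (1 + η / 3) ≤ max ρ (b ^ y) (1 + η / 2) (1 + η / 3) ≤ max ρ (b ^ y) (1 + η)` for
`η ≤ 1`; the case `η > 1` follows by monotonicity (use `min η 1`).
-/

set_option autoImplicit false

namespace Pool.Agent.H66.MB

open Pool.Agent.H80.Poly

private theorem lowm_mono {𝒜 : Mat → Prop} {b b' : ℝ} (h0 : 0 ≤ b) (hb : b ≤ b') (h : ITM 𝒜 b) :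
    ITM 𝒜 b' := by
  obtain ⟨p, C, hC, hp⟩ := h
  refine ⟨p, C, hC, fun M hM hA => ?_⟩
  obtain ⟨v, s, h1, h2, h3⟩ := hp M hM hA
  refine ⟨v, s, h1, h2, h3.trans ?_⟩
  exact mul_le_mul_of_nonneg_left (pow_le_pow_left₀ h0 hb _) hC

theorem low (D d Δ r : ℕ) (hD : D < d) (h1 : d ≤ Δ) (h3 : 3 ≤ r) (hr : r < d) (hodd : Odd r)
    (ρ : ℝ) (hρ1 : 1 ≤ ρ) (hρ : ρ ^ (D + 1) + 1 ≤ ρ ^ (D + 2)) (b : ℝ) (hb : 1 ≤ b)
    (h : ITM (fun M => DegIn M d Δ) b) (η : ℝ) (hη : 0 < η) :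
    ITM (fun _ => True)
      (max ρ (b ^ (1 + (r + 1) * d / (((Δ : ℝ) + 1 - r) * r - d))) * (1 + η)) := by
  set θ : ℝ := min η 1 with hθ
  have hθ0 : 0 < θ := lt_min hη one_pos
  have hθ1 : θ ≤ 1 := min_le_right _ _
  have hθη : θ ≤ η := min_le_left _ _
  obtain ⟨g, K, hg, hgM⟩ := gadget D d Δ r hD h1 h3 hr hodd
  have hden : 0 < ((Δ : ℝ) + 1 - r) * r - d := by
    have e1 := cap_pos h1 h3 hr
    have e2 := cap_add h1 h3 hr
    have e3 : ((Δ + 1 - r : ℕ) : ℝ) = (Δ : ℝ) + 1 - r := by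
      rw [Nat.cast_sub (by omega)]
      push_cast
      ring
    have e4 : ((cap d Δ r : ℕ) : ℝ) + d = ((Δ : ℝ) + 1 - r) * r := by
      rw [← e3]
      exact_mod_cast e2
    have e5 : (0 : ℝ) < (cap d Δ r : ℕ) := by exact_mod_cast e1
    linarith
  set y : ℝ := 1 + (r + 1) * d / (((Δ : ℝ) + 1 - r) * r - d) with hy
  have hy0 : 0 ≤ y := by
    rw [hy]
    positivity
  have hby : 1 ≤ b ^ y := Real.one_le_rpow hb hy0
  have hred := reduce (𝒜 := fun M => DegLe M D) (𝒬 := fun M => DegIn M d Δ) g hg y hy0 K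
    (fun M hM hA => hgM M hM hA) b hb h (θ / 2) (by linarith)
  set b' : ℝ := max ρ (b ^ y * (1 + θ / 2)) with hb'
  have hρb : ρ ≤ b' := le_max_left _ _
  have hb1 : 1 ≤ b' := hρ1.trans hρb
  have hI : ITM (fun M => DegLe M D) b' :=
    lowm_mono (by positivity) (le_max_right _ _) hred
  have hbD : b' ^ (D + 1) + 1 ≤ b' ^ (D + 2) := by
    have e1 : ρ ^ (D + 1) ≤ b' ^ (D + 1) := pow_le_pow_left₀ (by linarith) hρb _
    have e2 : ρ ^ (D + 1) * (ρ - 1) ≤ b' ^ (D + 1) * (b' - 1) :=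
      mul_le_mul e1 (by linarith) (by linarith) (by positivity)
    have e3 : 1 ≤ ρ ^ (D + 1) * (ρ - 1) := by
      rw [pow_succ ρ (D + 1)] at hρ
      linarith
    rw [pow_succ b' (D + 1)]
    linarith
  obtain ⟨A0, c, hc, hA⟩ := hI
  obtain ⟨p, P, hp⟩ := appB D b' hb1 hbD A0 c hc hA
  obtain ⟨a, ha, haP⟩ := poly_le P (1 + θ / 3) (by linarith)
  have hm : b' * (1 + θ / 3) ≤ max ρ (b ^ y) * (1 + η) := by
    have m0 : ρ ≤ max ρ (b ^ y) := le_max_left _ _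
    have m1 : b ^ y ≤ max ρ (b ^ y) := le_max_right _ _
    have m2 : 0 ≤ max ρ (b ^ y) := by linarith
    have e1 : b' ≤ max ρ (b ^ y) * (1 + θ / 2) := by
      apply max_le
      · nlinarith
      · exact mul_le_mul_of_nonneg_right m1 (by linarith)
    calc b' * (1 + θ / 3) ≤ max ρ (b ^ y) * (1 + θ / 2) * (1 + θ / 3) :=
          mul_le_mul_of_nonneg_right e1 (by linarith)
      _ = max ρ (b ^ y) * ((1 + θ / 2) * (1 + θ / 3)) := by ring
      _ ≤ max ρ (b ^ y) * (1 + η) := by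
          refine mul_le_mul_of_nonneg_left ?_ m2
          nlinarith
  refine ⟨p, 2 * (c + a + c), by positivity, fun M hM _ => ?_⟩
  obtain ⟨v, s, e1, e2, e3⟩ := hp M hM
  refine ⟨v, s, e1, e2, e3.trans ?_⟩
  set n := M.length with hn
  have hR : 1 ≤ (1 + θ / 3) ^ n := one_le_pow₀ (by linarith)
  have hB : 0 ≤ b' ^ n := by positivity
  have h7 := haP n
  have h8 : c ≤ c * (1 + θ / 3) ^ n := le_mul_of_one_le_right hc hR
  calc 2 * b' ^ n * (c + (P.eval n : ℕ) + c)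
      ≤ 2 * b' ^ n * (c * (1 + θ / 3) ^ n + a * (1 + θ / 3) ^ n + c * (1 + θ / 3) ^ n) := by
        refine mul_le_mul_of_nonneg_left ?_ (by positivity)
        linarith
    _ = 2 * (c + a + c) * (b' * (1 + θ / 3)) ^ n := by
        rw [mul_pow]
        ring
    _ ≤ 2 * (c + a + c) * (max ρ (b ^ y) * (1 + η)) ^ n := by
        refine mul_le_mul_of_nonneg_left ?_ (by positivity)
        exact pow_le_pow_left₀ (by positivity) hm n

end Pool.Agent.H66.MB
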