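import Pool.Agent.H66.MB.EdgeC
import Pool.Agent.H66.MB.Conv
import Pool.Agent.H66.MB.Base

/-!
# Upper bound for graphs with degrees between `d` and `Δ`

PROOF of `up`. `appA` gives `p`, `P` with cost `2 ρ ^ n (C c ^ h + P(n) + C)`. For a valid
matrix `M` with `DegIn M d Δ` the condition of `appA` holds with
`h = n Δ / (Δ + (d - D))` (natural number division, `edge_count`, `Nat.le_div_iff_mul_le`), and
`(h : ℝ) ≤ x n` with `x = Δ / (Δ + d - D)`, so `c ^ h ≤ (c ^ x) ^ n`. `P(n) ≤ a (1 + η) ^ n`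
(`poly_le`). So the cost is at most `K (ρ (1 + η) c ^ x) ^ n` (`c ^ x ≥ 1`).
-/

set_option autoImplicit false

namespace Pool.Agent.H66.MB

open Pool.Agent.H80.Poly

theorem up (d D Δ : ℕ) (hD : D < d) (ρ : ℝ) (h1 : 1 ≤ ρ) (hρ : ρ ^ (D + 1) + 1 ≤ ρ ^ (D + 2))
    (c : ℝ) (hc : 1 ≤ c) (h : ITM (fun _ => True) c) (η : ℝ) (hη : 0 < η) :
    ITM (fun M => DegIn M d Δ) (ρ * (1 + η) * c ^ ((Δ : ℝ) / (Δ + d - D))) := by
  obtain ⟨A0, C0, hC0, hA⟩ := h
  obtain ⟨p, P, hp⟩ := appA D ρ h1 hρ A0 C0 c hC0 hc (fun M hM => hA M hM trivial)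
  obtain ⟨a, ha, haP⟩ := poly_le P (1 + η) (by linarith)
  have hden : (0 : ℝ) < (Δ : ℝ) + d - D := by
    have h2 : (D : ℝ) < d := by exact_mod_cast hD
    have h3 : (0 : ℝ) ≤ Δ := Nat.cast_nonneg _
    linarith
  have hden' : 0 < Δ + (d - D) := by omega
  set x : ℝ := (Δ : ℝ) / (Δ + d - D) with hx
  have hx0 : 0 ≤ x := div_nonneg (Nat.cast_nonneg _) hden.le
  have hcx : 1 ≤ c ^ x := Real.one_le_rpow hc hx0
  refine ⟨p, 2 * (C0 + a + C0), by positivity, fun M hM hd => ?_⟩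
  have key := hp M hM (M.length * Δ / (Δ + (d - D))) (fun C hC hn hdg => by
    rw [Nat.le_div_iff_mul_le hden']
    exact edge_count hM hd hD.le hC hn hdg)
  have hle : 2 * ρ ^ M.length * (C0 * c ^ (M.length * Δ / (Δ + (d - D))) +
      (P.eval M.length : ℕ) + C0) ≤
      2 * (C0 + a + C0) * (ρ * (1 + η) * c ^ x) ^ M.length := by
    set n := M.length with hn
    have hR : 1 ≤ (1 + η) ^ n := one_le_pow₀ (by linarith)
    have hX : 1 ≤ (c ^ x) ^ n := one_le_pow₀ hcx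
    have hhx : ((n * Δ / (Δ + (d - D)) : ℕ) : ℝ) ≤ x * n := by
      refine (Nat.cast_div_le).trans (le_of_eq ?_)
      rw [hx]
      push_cast [Nat.cast_sub hD.le]
      have : (Δ : ℝ) + (d - D) = Δ + d - D := by ring
      rw [this]
      ring
    have h4 : c ^ (n * Δ / (Δ + (d - D))) ≤ (c ^ x) ^ n := by
      rw [← Real.rpow_natCast c, ← Real.rpow_natCast (c ^ x), ← Real.rpow_mul (by linarith)]
      exact Real.rpow_le_rpow_of_exponent_le hc hhx
    have hρn : 0 ≤ ρ ^ n := by positivity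
    have h5 : C0 * c ^ (n * Δ / (Δ + (d - D))) ≤ C0 * ((1 + η) ^ n * (c ^ x) ^ n) := by
      refine mul_le_mul_of_nonneg_left (h4.trans ?_) hC0
      nlinarith
    have h6 : ((P.eval n : ℕ) : ℝ) ≤ a * ((1 + η) ^ n * (c ^ x) ^ n) := by
      refine (haP n).trans (mul_le_mul_of_nonneg_left ?_ ha)
      nlinarith
    have h7 : C0 ≤ C0 * ((1 + η) ^ n * (c ^ x) ^ n) := by
      refine le_mul_of_one_le_right hC0 ?_
      nlinarith
    calc 2 * ρ ^ n * (C0 * c ^ (n * Δ / (Δ + (d - D))) + (P.eval n : ℕ) + C0)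
        ≤ 2 * ρ ^ n * (C0 * ((1 + η) ^ n * (c ^ x) ^ n) + a * ((1 + η) ^ n * (c ^ x) ^ n) +
          C0 * ((1 + η) ^ n * (c ^ x) ^ n)) := by
          refine mul_le_mul_of_nonneg_left ?_ (by positivity)
          linarith
      _ = 2 * (C0 + a + C0) * (ρ * (1 + η) * c ^ x) ^ n := by
          rw [mul_pow, mul_pow]
          ring
  obtain ⟨b, s, hb, hE, hs⟩ := key
  exact ⟨b, s, hb, hE, hs.trans hle⟩

end Pool.Agent.H66.MB
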