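import Pool.Agent.H66.MB.LimF
import Pool.Agent.H66.MB.EpsL
import Pool.Agent.H66.MB.UpM
import Pool.Agent.H66.MB.LowM

/-!
# Both bounds for the infima

PROOF of `hup`. Let `c = 1 + eps allG ≥ 1`. For every `η > 0`, `InTime allG (c + η)`
(`inTime_of_gt`), so `ITM (fun _ => True) (c + η)` (`inTime_all`) and by `up` (with
`Δ = ⌊κ d⌋₊`) and `inTime_degIn`, `InTime (degIn d κ) (ρ (1 + η) (c + η) ^ x)`, so
`1 + eps (degIn d κ) ≤ ρ (1 + η) (c + η) ^ x` (`eps_le`; the right side is at least 1 as `x ≥ 0`).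
Let `η → 0` (`ge_of_tendsto` or an epsilon argument).

PROOF of `hlow`. Let `u = 1 + eps (degIn d κ) ≥ 1`. For every `η > 0`, `InTime (degIn d κ) (u + η)`, so
by `low` (`d ≤ ⌊κ d⌋₊` as `κ ≥ 1`) `1 + eps allG ≤ max ρ ((u + η) ^ y) (1 + η)`. Let
`η → 0` (`y ≥ 0`; `x ↦ x ^ y` is continuous at `u > 0`).
-/

set_option autoImplicit false

namespace Pool.Agent.H66.MB

open Filter Topology

theorem hup (κ : ℝ) (hκ : 1 ≤ κ) (ρ : ℝ) (D d : ℕ) (h1 : 1 ≤ ρ)
    (hρ : ρ ^ (D + 1) + 1 ≤ ρ ^ (D + 2)) (hD : D < d) :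
    1 + eps (degIn d κ) ≤ ρ * (1 + eps allG) ^ xx κ D d := by
  have hκ0 : (0 : ℝ) ≤ κ := by linarith
  set c : ℝ := 1 + eps allG with hc
  have hc1 : 1 ≤ c := by
    have := eps_nonneg allG
    rw [hc]
    linarith
  have hDd : (D : ℝ) < d := by exact_mod_cast hD
  have hx0 : 0 ≤ xx κ D d := by
    unfold xx
    have h2 : (0 : ℝ) ≤ (⌊κ * d⌋₊ : ℝ) := Nat.cast_nonneg _
    exact div_nonneg h2 (by linarith)
  have hT : Tendsto (fun η : ℝ => ρ * (1 + η) * (c + η) ^ xx κ D d) (𝓝[>] 0)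
      (𝓝 (ρ * c ^ xx κ D d)) := by
    have h3 : ContinuousAt (fun η : ℝ => ρ * (1 + η) * (c + η) ^ xx κ D d) 0 := by
      refine ContinuousAt.mul ?_ ?_
      · exact continuousAt_const.mul (continuousAt_const.add continuousAt_id)
      · refine ContinuousAt.rpow_const (continuousAt_const.add continuousAt_id) (Or.inl ?_)
        simp only [add_zero]
        linarith
    have h4 := h3.tendsto.mono_left (nhdsWithin_le_nhds (s := Set.Ioi 0))
    simpa using h4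
  refine ge_of_tendsto hT ?_
  filter_upwards [self_mem_nhdsWithin] with η hη
  have hη' : (0 : ℝ) < η := hη
  have h5 : ITM (fun _ => True) (c + η) :=
    (inTime_all (by linarith)).1 (inTime_of_gt (by rw [← hc]; linarith))
  have h6 := up d D ⌊κ * d⌋₊ hD ρ h1 hρ (c + η) (by linarith) h5 η hη'
  have h7 : (1 : ℝ) ≤ ρ * (1 + η) * (c + η) ^ xx κ D d := by
    have e1 : (1 : ℝ) ≤ (c + η) ^ xx κ D d := Real.one_le_rpow (by linarith) hx0
    have e2 : (1 : ℝ) ≤ ρ * (1 + η) := one_le_mul_of_one_le_of_one_le h1 (by linarith)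
    exact one_le_mul_of_one_le_of_one_le e2 e1
  exact eps_le h7 ((inTime_degIn h7 d κ hκ0).2 h6)

theorem hlow (κ : ℝ) (hκ : 1 ≤ κ) (ρ : ℝ) (D r d : ℕ) (h1 : 1 ≤ ρ)
    (hρ : ρ ^ (D + 1) + 1 ≤ ρ ^ (D + 2)) (hD : D < d) (h3 : 3 ≤ r) (hodd : Odd r) (hr : r < d) :
    1 + eps allG ≤ max ρ ((1 + eps (degIn d κ)) ^ yy κ r d) := by
  have hκ0 : (0 : ℝ) ≤ κ := by linarith
  set u : ℝ := 1 + eps (degIn d κ) with hu
  have hu1 : 1 ≤ u := by
    have := eps_nonneg (degIn d κ)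
    rw [hu]
    linarith
  have hT : Tendsto (fun η : ℝ => max ρ ((u + η) ^ yy κ r d) * (1 + η)) (𝓝[>] 0)
      (𝓝 (max ρ (u ^ yy κ r d))) := by
    have h3 : Tendsto (fun η : ℝ => (u + η) ^ yy κ r d) (𝓝 0) (𝓝 (u ^ yy κ r d)) := by
      have : ContinuousAt (fun η : ℝ => (u + η) ^ yy κ r d) 0 := by
        refine ContinuousAt.rpow_const (continuousAt_const.add continuousAt_id) (Or.inl ?_)
        simp only [add_zero]
        linarith
      simpa using this.tendsto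
    have h4 : Tendsto (fun η : ℝ => (1 + η)) (𝓝 0) (𝓝 1) := by
      have : ContinuousAt (fun η : ℝ => (1 + η)) 0 := continuousAt_const.add continuousAt_id
      simpa using this.tendsto
    have h5 := ((tendsto_const_nhds (x := ρ)).max h3).mul h4
    rw [mul_one] at h5
    exact h5.mono_left nhdsWithin_le_nhds
  refine ge_of_tendsto hT ?_
  filter_upwards [self_mem_nhdsWithin] with η hη
  have hη' : (0 : ℝ) < η := hη
  have hu2 : 1 ≤ u + η := by linarith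
  have h5 : ITM (fun M => DegIn M d ⌊κ * d⌋₊) (u + η) :=
    (inTime_degIn hu2 d κ hκ0).1 (inTime_of_gt (by rw [← hu]; linarith))
  have hdd : d ≤ ⌊κ * d⌋₊ := by
    refine Nat.le_floor ?_
    exact le_mul_of_one_le_left (Nat.cast_nonneg _) hκ
  have h6 := low D d ⌊κ * d⌋₊ r hD hdd h3 hr hodd ρ h1 hρ (u + η) hu2 h5 η hη'
  have h7 : (1 : ℝ) ≤ max ρ ((u + η) ^ yy κ r d) * (1 + η) :=
    one_le_mul_of_one_le_of_one_le (h1.trans (le_max_left _ _)) (by linarith)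
  exact eps_le h7 ((inTime_all h7).2 h6)

theorem main (κ : ℝ) (hκ : 1 ≤ κ) :
    Tendsto (fun d : ℕ => 1 + eps (degIn d κ)) atTop (𝓝 ((1 + eps allG) ^ (κ / (κ + 1)))) := by
  refine lim κ hκ (1 + eps allG) ?_ (fun d => 1 + eps (degIn d κ)) ?_ ?_ ?_
  · have := eps_nonneg allG
    linarith
  · intro d
    have := eps_nonneg (degIn d κ)
    linarith
  · intro ρ D d h1 hρ hD
    exact hup κ hκ ρ D d h1 hρ hD
  · intro ρ D r d h1 hρ hD h3 hodd hr
    exact hlow κ hκ ρ D r d h1 hρ hD h3 hodd hr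

end Pool.Agent.H66.MB
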