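import Pool.Agent.H66.MB.GadDef
import Pool.Agent.H66.MB.VecB

/-!
# Independent sets in the gadget

PROOF of `gadm_valid`: `valid_mk`; `gedge` is symmetric (`adj` is symmetric, `bB` is symmetric, the
mixed cases are symmetric by definition) and irreflexive (`adj M i i = false`,
`bB m R F β β = false`).

PROOF of `ind_upper`. Let `J` be an independent set in `{0, ..., N+m+r m-1}`. Map every element
`p ≥ N` of `J` to `p - N` if `p < N + m` and to `(p - N - m) % m` otherwise (values below `m`). The map
is injective on `J ∩ [N, ∞)`: `i_j` and `β` with `β % m = j` are adjacent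
(`(β % m + m - j) % m = 0 < d / r`, here `r ≤ d` is used), and two different `β, β'` with
`β % m = β' % m` are adjacent (`bB`). So `J` has at most `m` elements `≥ N`.

PROOF of `ind_lower`: `J ∪ {N, ..., N + m - 1}` is independent: `i_j` is not adjacent to vertices
below `N + m`.

PROOF of `gad_back`. Let `b` be a maximum vector of the gadget, `b' = b.take M.length`,
`n0 = M.length`. `b'` has length `n0` and `IndV M b'`. Let `c` be any vector of length `n0` with
`IndV M c`, `J` its set of ones; `J ∪ {n0, ..., N - 1} ∪ {N, ..., N + m - 1}` is independent in the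
gadget (the vertices `n0 ≤ a < N` are isolated in `A`), so
`J.card + (N - n0) + m ≤ b.count true` (`maxV_card`). The set of ones of `b` has at most `m`
elements `≥ N` (`ind_upper`) and at most `N - n0` elements in `[n0, N)`, so it has at least
`J.card` elements below `n0`, which is `b'.count true` (`count_true`).
-/

set_option autoImplicit false

namespace Pool.Agent.H66.MB

theorem gedge_symm (M : Mat) (hM : Valid M) (f : ℕ → ℕ) (N m R F d r p q : ℕ) :
    gedge M f N m R F d r p q = gedge M f N m R F d r q p := by
  have hb : ∀ β β' : ℕ, bB m R F β β' = bB m R F β' β := by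
    intro β β'
    unfold bB
    apply decide_eq_decide.2
    constructor
    · rintro ⟨h1, h2⟩
      refine ⟨fun h => h1 h.symm, ?_⟩
      rcases h2 with h2 | ⟨h2, h3, h4⟩
      · exact Or.inl h2.symm
      · exact Or.inr ⟨h3, h2, h4.symm⟩
    · rintro ⟨h1, h2⟩
      refine ⟨fun h => h1 h.symm, ?_⟩
      rcases h2 with h2 | ⟨h2, h3, h4⟩
      · exact Or.inl h2.symm
      · exact Or.inr ⟨h3, h2, h4.symm⟩
  unfold gedge
  split_ifs <;> first | rfl | exact hM.2.1 _ _ | exact hb _ _

theorem gadm_valid (M : Mat) (hM : Valid M) (f : ℕ → ℕ) (N m r F d : ℕ) :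
    Valid (gadm M f N m (r * m) F d r) := by
  unfold gadm
  apply valid_mk
  · intro i _ j _
    exact gedge_symm M hM f N m (r * m) F d r i j
  · intro i _
    unfold gedge
    split_ifs
    · exact hM.2.2 i
    · rfl
    · unfold bB
      simp

theorem adj_gadm (M : Mat) (f : ℕ → ℕ) (N m r F d p q : ℕ) :
    adj (gadm M f N m (r * m) F d r) p q =
      (decide (p < N + m + r * m) && decide (q < N + m + r * m) &&
        gedge M f N m (r * m) F d r p q) := by
  unfold gadm
  exact adj_mk _ _ _ _

theorem ind_upper (M : Mat) (f : ℕ → ℕ) (N m r F d : ℕ) (hr : 0 < r) (hrd : r ≤ d)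
    (J : Finset ℕ) (hJ : ∀ x ∈ J, x < N + m + r * m)
    (hI : Ind (gadm M f N m (r * m) F d r) J) :
    (J.filter (fun x => N ≤ x)).card ≤ m := by
  rcases Nat.eq_zero_or_pos m with hm | hm
  · subst hm
    rw [Nat.le_zero, Finset.card_eq_zero, Finset.filter_eq_empty_iff]
    intro x hx
    have := hJ x hx
    omega
  · have hg : ∀ x ∈ J, ∀ y ∈ J, gedge M f N m (r * m) F d r x y = false := by
      intro x hx y hy
      have h := hI x hx y hy
      rw [adj_gadm] at h
      simpa [hJ x hx, hJ y hy] using h
    have hdr : 0 < d / r := Nat.div_pos hrd hr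
    have hIB : ∀ x y : ℕ, N ≤ x → x < N + m → N + m ≤ y → (y - N - m) % m = x - N →
        gedge M f N m (r * m) F d r x y = true := by
      intro x y h1 h2 h3 h4
      unfold gedge
      rw [if_neg (by omega), if_pos h2, if_neg (by omega), if_neg (by omega)]
      unfold iB
      rw [decide_eq_true_eq]
      left
      rw [h4]
      have : x - N + m - (x - N) = m := by omega
      rw [this, Nat.mod_self]
      exact hdr
    have hBB : ∀ x y : ℕ, N + m ≤ x → N + m ≤ y → x ≠ y → (x - N - m) % m = (y - N - m) % m →
        gedge M f N m (r * m) F d r x y = true := by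
      intro x y h1 h2 h3 h4
      unfold gedge
      rw [if_neg (by omega), if_neg (by omega), if_neg (by omega), if_neg (by omega)]
      unfold bB
      rw [decide_eq_true_eq]
      exact ⟨by omega, Or.inl h4⟩
    have hcard : (J.filter (fun x => N ≤ x)).card ≤ (Finset.range m).card := by
      apply Finset.card_le_card_of_injOn
        (fun x => if x < N + m then x - N else (x - N - m) % m)
      · intro x hx
        have hx' := Finset.mem_filter.1 (Finset.mem_coe.1 hx)
        rw [Finset.mem_coe, Finset.mem_range]
        dsimp only
        split_ifs with h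
        · omega
        · exact Nat.mod_lt _ hm
      · intro x hx y hy hxy
        have hx' := Finset.mem_filter.1 (Finset.mem_coe.1 hx)
        have hy' := Finset.mem_filter.1 (Finset.mem_coe.1 hy)
        dsimp only at hxy
        by_contra hne
        by_cases h1 : x < N + m
        · by_cases h2 : y < N + m
          · rw [if_pos h1, if_pos h2] at hxy
            have := hx'.2
            have := hy'.2
            omega
          · rw [if_pos h1, if_neg h2] at hxy
            have h3 := hIB x y hx'.2 h1 (by omega) hxy.symm
            rw [hg x hx'.1 y hy'.1] at h3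
            exact Bool.false_ne_true h3
        · by_cases h2 : y < N + m
          · rw [if_neg h1, if_pos h2] at hxy
            have h3 := hIB y x hy'.2 h2 (by omega) hxy
            rw [hg y hy'.1 x hx'.1] at h3
            exact Bool.false_ne_true h3
          · rw [if_neg h1, if_neg h2] at hxy
            have h3 := hBB x y (by omega) (by omega) hne hxy
            rw [hg x hx'.1 y hy'.1] at h3
            exact Bool.false_ne_true h3
    rwa [Finset.card_range] at hcard

theorem ind_lower (M : Mat) (hM : Valid M) (f : ℕ → ℕ) (N m r F d : ℕ) (hN : M.length ≤ N)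
    (J : Finset ℕ) (hJ : ∀ x ∈ J, x < M.length) (hI : Ind M J) :
    Ind (gadm M f N m (r * m) F d r) (J ∪ Finset.Ico M.length (N + m)) := by
  have hadj : ∀ x ∈ J ∪ Finset.Ico M.length (N + m), ∀ y ∈ J ∪ Finset.Ico M.length (N + m),
      adj M x y = false := by
    intro x hx y hy
    rw [Finset.mem_union, Finset.mem_Ico] at hx hy
    rcases hx with hx | hx
    · rcases hy with hy | hy
      · exact hI x hx y hy
      · by_contra h
        rw [Bool.not_eq_false] at h
        have := (adj_lt hM h).2
        omega
    · by_contra h
      rw [Bool.not_eq_false] at h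
      have := (adj_lt hM h).1
      omega
  have hlt : ∀ x ∈ J ∪ Finset.Ico M.length (N + m), x < N + m := by
    intro x hx
    rw [Finset.mem_union, Finset.mem_Ico] at hx
    rcases hx with hx | hx
    · have := hJ x hx
      omega
    · exact hx.2
  intro x hx y hy
  have h1 := hlt x hx
  have h2 := hlt y hy
  rw [adj_gadm]
  have hz : gedge M f N m (r * m) F d r x y = false := by
    unfold gedge
    by_cases h3 : x < N
    · rw [if_pos h3]
      by_cases h4 : y < N
      · rw [if_pos h4]
        exact hadj x hx y hy
      · rw [if_neg h4, if_pos h2]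
    · rw [if_neg h3, if_pos h1]
      by_cases h4 : y < N
      · rw [if_pos h4]
      · rw [if_neg h4, if_pos h2]
  rw [hz, Bool.and_false]

theorem gad_back (M : Mat) (hM : Valid M) (f : ℕ → ℕ) (N m r F d : ℕ) (hr : 0 < r) (hrd : r ≤ d)
    (hN : M.length ≤ N) (b : List Bool) (hb : MaxV (gadm M f N m (r * m) F d r) b) :
    MaxV M (b.take M.length) := by
  have hlen : (gadm M f N m (r * m) F d r).length = N + m + r * m := by
    unfold gadm
    exact mk_length _ _
  have hbl : b.length = N + m + r * m := by rw [hb.1, hlen]
  have htl : (b.take M.length).length = M.length := by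
    rw [List.length_take, hbl]
    omega
  have hgetD : ∀ i, (b.take M.length).getD i false = true ↔ i < M.length ∧ b.getD i false = true := by
    intro i
    rw [List.getD_eq_getElem?_getD, List.getD_eq_getElem?_getD, List.getElem?_take]
    by_cases hi : i < M.length
    · rw [if_pos hi]
      exact ⟨fun h => ⟨hi, h⟩, fun h => h.2⟩
    · rw [if_neg hi]
      constructor
      · intro h
        simp at h
      · intro h
        exact absurd h.1 hi
  -- the set of ones of `b`
  obtain ⟨S, hS⟩ : ∃ S : Finset ℕ,
      S = (Finset.range b.length).filter (fun i => b.getD i false = true) := ⟨_, rfl⟩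
  have hScard : S.card = b.count true := by
    rw [hS]
    exact (count_true b).symm
  have hSlt : ∀ x ∈ S, x < N + m + r * m := by
    intro x hx
    rw [hS, Finset.mem_filter, Finset.mem_range, hbl] at hx
    exact hx.1
  have hSI : Ind (gadm M f N m (r * m) F d r) S := by
    intro x hx y hy
    rw [hS, Finset.mem_filter] at hx hy
    exact hb.2.1 x y hx.2 hy.2
  have hup := ind_upper M f N m r F d hr hrd S hSlt hSI
  have hIV : IndV M (b.take M.length) := by
    intro i j hi hj
    rw [hgetD] at hi hj
    have h := hb.2.1 i j hi.2 hj.2
    rw [adj_gadm] at h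
    have h1 : i < N + m + r * m := by omega
    have h2 : j < N + m + r * m := by omega
    rw [decide_eq_true h1, decide_eq_true h2, Bool.true_and, Bool.true_and] at h
    unfold gedge at h
    rw [if_pos (by omega), if_pos (by omega)] at h
    exact h
  refine ⟨htl, hIV, ?_⟩
  intro c hc hcI
  obtain ⟨J, hJ⟩ : ∃ J : Finset ℕ,
      J = (Finset.range c.length).filter (fun i => c.getD i false = true) := ⟨_, rfl⟩
  have hJcard : J.card = c.count true := by
    rw [hJ]
    exact (count_true c).symm
  have hJlt : ∀ x ∈ J, x < M.length := by
    intro x hx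
    rw [hJ, Finset.mem_filter, Finset.mem_range, hc] at hx
    exact hx.1
  have hJI : Ind M J := by
    intro x hx y hy
    rw [hJ, Finset.mem_filter] at hx hy
    exact hcI x y hx.2 hy.2
  have hlow := ind_lower M hM f N m r F d hN J hJlt hJI
  have h1 : (J ∪ Finset.Ico M.length (N + m)).card ≤ b.count true := by
    apply maxV_card hb _ _ hlow
    intro x hx
    rw [hlen]
    rw [Finset.mem_union, Finset.mem_Ico] at hx
    rcases hx with hx | hx
    · have := hJlt x hx
      omega
    · omega
  have h2 : (J ∪ Finset.Ico M.length (N + m)).card = J.card + (N + m - M.length) := by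
    rw [Finset.card_union_of_disjoint, Nat.card_Ico]
    rw [Finset.disjoint_left]
    intro x hx hx2
    have := hJlt x hx
    rw [Finset.mem_Ico] at hx2
    omega
  -- split the ones of `b`
  have h3 : S.card ≤ (S.filter (fun x => x < M.length)).card + (N - M.length) +
      (S.filter (fun x => N ≤ x)).card := by
    have hsub : S ⊆ (S.filter (fun x => x < M.length) ∪ Finset.Ico M.length N) ∪
        S.filter (fun x => N ≤ x) := by
      intro x hx
      rw [Finset.mem_union, Finset.mem_union, Finset.mem_filter, Finset.mem_filter, Finset.mem_Ico]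
      by_cases h4 : x < M.length
      · exact Or.inl (Or.inl ⟨hx, h4⟩)
      · by_cases h5 : x < N
        · exact Or.inl (Or.inr ⟨by omega, h5⟩)
        · exact Or.inr ⟨hx, by omega⟩
    calc S.card ≤ _ := Finset.card_le_card hsub
      _ ≤ (S.filter (fun x => x < M.length) ∪ Finset.Ico M.length N).card +
          (S.filter (fun x => N ≤ x)).card := Finset.card_union_le _ _
      _ ≤ _ := by
          have := Finset.card_union_le (S.filter (fun x => x < M.length)) (Finset.Ico M.length N)
          rw [Nat.card_Ico] at this
          omega
  have h4 : (S.filter (fun x => x < M.length)).card = (b.take M.length).count true := by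
    rw [count_true]
    congr 1
    ext x
    rw [Finset.mem_filter, Finset.mem_filter, hgetD, Finset.mem_range, htl, hS, Finset.mem_filter,
      Finset.mem_range]
    constructor
    · rintro ⟨⟨_, h6⟩, h7⟩
      exact ⟨h7, h7, h6⟩
    · rintro ⟨h5, _, h7⟩
      exact ⟨⟨by omega, h7⟩, h5⟩
  omega

end Pool.Agent.H66.MB
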