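import Pool.Agent.H66.MB.GadDef
import Pool.Agent.H66.MB.BrPoly

/-!
# The gadget is computed in polynomial time

Here `d, Δ, r` are constants. PROOF: closure properties of `PolyTime` (see the header of
`BrPoly`). `dfc`: `polyTime_dg`, `PolyTime.sub`. `pre f a`: the sum of the list
`(List.range a).map f` (`PolyTime.range`, `PolyTime.map`, `PolyTime.sum`); `PolyTime.range` needs
that the number is at most a polynomial in the size of the input: restrict to `a ≤ gN` first, that is
write `pre f a` as the sum over `(List.range (gN M)).filter (· < a)` (true for `a ≤ gN M`), or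
prove the general lemma for bounded `a`. `gN ≤ M.length + 1 + const`, `M.length ≤ size M`
(`length_le_size`); `gm ≤ pre + cap ≤ gN * d + cap` (if `cap = 0` then `gm = 0`, as `x / 0 = 0`).
`mk n f`: two nested `PolyTime.map`s over `List.range n`. `gedge` is a combination of tests
(`PolyTime.ite`, `PolyTime.lt`, `PolyTime.eq`, `PolyTime.mod`, `PolyTime.div`, `PolyTime.sub`,
`PolyTime.add`, `PolyTime.mul`, `polyTime_adj`). It is convenient to prove first that the vector of
parameters `(N, m, R, F)` and the list of all `pre (dfc M d) a`, `a ≤ N`, are computed in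
polynomial time, and to work with the context `(M, N, m, R, F, list of pre)`.
-/

set_option autoImplicit false

namespace Pool.Agent.H66.MB

open Pool.Agent.H80.Poly

private theorem pt_off {α : Type} [BEnc α] {R X β : α → ℕ} (hR : PolyTime R) (hX : PolyTime X)
    (hβ : PolyTime β) : PolyTime (fun a => off (R a) (X a) (β a)) :=
  (hβ.add ((hR.sub (PolyTime.const 1)).mul hX)).mod hR

private theorem pt_iB {α : Type} [BEnc α] (d r : ℕ) {m j β : α → ℕ} (hm : PolyTime m)
    (hj : PolyTime j) (hβ : PolyTime β) : PolyTime (fun a => iB (m a) d r (j a) (β a)) := by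
  have h1 : PolyTime (fun a => (β a % m a + m a - j a) % m a) :=
    (((hβ.mod hm).add hm).sub hj).mod hm
  exact (PolyTime.decOr (P := fun a => (β a % m a + m a - j a) % m a < d / r)
    (Q := fun a => (β a % m a + m a - j a) % m a = d / r ∧ β a / m a < d % r)
    (PolyTime.lt h1 (PolyTime.const _))
    (PolyTime.decAnd (P := fun a => (β a % m a + m a - j a) % m a = d / r)
      (Q := fun a => β a / m a < d % r) (PolyTime.eq h1 (PolyTime.const _))
      (PolyTime.lt (hβ.div hm) (PolyTime.const _)))).congr (fun a => by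
        unfold iB
        congr)

private theorem pt_bB {α : Type} [BEnc α] {m R F β β' : α → ℕ} (hm : PolyTime m)
    (hR : PolyTime R) (hF : PolyTime F) (hβ : PolyTime β) (hβ' : PolyTime β') :
    PolyTime (fun a => bB (m a) (R a) (F a) (β a) (β' a)) := by
  have h1 : PolyTime (fun a => R a - F a) := hR.sub hF
  have h2 := PolyTime.decAnd (P := fun a => (R a - F a) ≤ β' a)
    (Q := fun a => (β a - (R a - F a)) / 2 = (β' a - (R a - F a)) / 2)
    (PolyTime.le h1 hβ')
    (PolyTime.eq ((hβ.sub h1).div (PolyTime.const 2)) ((hβ'.sub h1).div (PolyTime.const 2)))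
  have h3 := PolyTime.decAnd (P := fun a => (R a - F a) ≤ β a) (PolyTime.le h1 hβ) h2
  have h4 := PolyTime.decOr (P := fun a => β a % m a = β' a % m a)
    (PolyTime.eq (hβ.mod hm) (hβ'.mod hm)) h3
  have h5 : PolyTime (fun a => decide (β a ≠ β' a)) := polyTime_ne hβ hβ'
  exact (PolyTime.decAnd (P := fun a => β a ≠ β' a) h5 h4).congr (fun a => by
    unfold bB
    congr)

/-- `aB` with given values of the partial sum `x` and of the missing degree `y` -/
private def aB2 (x y m R d β : ℕ) : Bool := decide (off R (m * d + x) β < y)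

private theorem pt_aB2 {α : Type} [BEnc α] (d : ℕ) {x y m R β : α → ℕ} (hx : PolyTime x)
    (hy : PolyTime y) (hm : PolyTime m) (hR : PolyTime R) (hβ : PolyTime β) :
    PolyTime (fun a => aB2 (x a) (y a) (m a) (R a) d (β a)) :=
  PolyTime.lt (pt_off hR ((hm.mul (PolyTime.const d)).add hx) hβ) hy

private theorem pt_gN (d Δ r : ℕ) : PolyTime (fun M : Mat => gN d Δ r M) := by
  have h : PolyTime (fun M : Mat => M.length) := PolyTime.length PolyTime.id
  exact (h.add (h.mod (PolyTime.const 2))).max (PolyTime.const _)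

private theorem gN_bd (d Δ r : ℕ) (M : Mat) :
    gN d Δ r M ≤ size M + 1 + 2 * (cap d Δ r * (cap d Δ r + d)) := by
  unfold gN
  have h1 := length_le_size M
  have h2 : M.length % 2 ≤ 1 := by omega
  omega

/-- the list of the missing degrees -/
private def DL (d Δ r : ℕ) (M : Mat) : List ℕ := (List.range (gN d Δ r M)).map (dfc M d)

private theorem pt_DL (d Δ r : ℕ) : PolyTime (fun M : Mat => DL d Δ r M) := by
  have hw : PolyTime (fun w : Mat × ℕ => w) := PolyTime.id
  have h0 : PolyTime (fun M : Mat => List.range M.length) :=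
    PolyTime.rangeU (PolyTime.lengthU PolyTime.id)
  have h1 : PolyTime (fun M : Mat => List.range (gN d Δ r M)) :=
    PolyTime.range (pt_gN d Δ r) ⟨fun n => n + 1 + 2 * (cap d Δ r * (cap d Δ r + d)),
      (PB.id.add (PB.const 1)).add (PB.const _), fun M => gN_bd d Δ r M⟩
  exact PolyTime.map h1 (g := fun w : Mat × ℕ => dfc w.1 d w.2)
    ((PolyTime.const d).sub (polyTime_dg hw.fst (h0.comp hw.fst) hw.snd))

private theorem sum_range_list (f : ℕ → ℕ) (a : ℕ) :
    ((List.range a).map f).sum = pre f a := by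
  unfold pre
  induction a with
  | zero => simp
  | succ a ih =>
    rw [List.range_succ, List.map_append, List.sum_append, ih, Finset.sum_range_succ]
    simp

private theorem DL_sum (d Δ r : ℕ) (M : Mat) :
    (DL d Δ r M).sum = pre (dfc M d) (gN d Δ r M) := sum_range_list _ _

private theorem DL_take (d Δ r : ℕ) (M : Mat) {a : ℕ} (h : a < gN d Δ r M) :
    ((DL d Δ r M).take a).sum = pre (dfc M d) a := by
  unfold DL
  rw [← List.map_take, List.take_range, Nat.min_eq_left h.le, sum_range_list]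

private theorem DL_get (d Δ r : ℕ) (M : Mat) {a : ℕ} (h : a < gN d Δ r M) :
    (DL d Δ r M).getD a 0 = dfc M d a := by
  unfold DL
  rw [List.getD_eq_getElem?_getD, List.getElem?_map, List.getElem?_range h]
  rfl

private theorem pt_pre (d Δ r : ℕ) : PolyTime (fun M : Mat => pre (dfc M d) (gN d Δ r M)) :=
  (PolyTime.sum (pt_DL d Δ r)).congr (fun M => DL_sum d Δ r M)

private theorem pre_bd (M : Mat) (d a : ℕ) : pre (dfc M d) a ≤ a * d := by
  unfold pre
  calc ∑ i ∈ Finset.range a, dfc M d i ≤ ∑ _i ∈ Finset.range a, d :=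
        Finset.sum_le_sum fun i _ => Nat.sub_le _ _
    _ = a * d := by simp

private theorem pt_gm (d Δ r : ℕ) : PolyTime (fun M : Mat => gm d Δ r M) :=
  (((pt_pre d Δ r).add (PolyTime.const (cap d Δ r))).sub (PolyTime.const 1)).div
    (PolyTime.const (cap d Δ r))

private theorem gm_bd (d Δ r : ℕ) (M : Mat) :
    gm d Δ r M ≤ gN d Δ r M * d + cap d Δ r := by
  unfold gm
  have h1 := pre_bd M d (gN d Δ r M)
  have h2 := Nat.div_le_self (pre (dfc M d) (gN d Δ r M) + cap d Δ r - 1) (cap d Δ r)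
  omega

private theorem pt_gF (d Δ r : ℕ) : PolyTime (fun M : Mat => gF d Δ r M) :=
  ((pt_gm d Δ r).mul (PolyTime.const (cap d Δ r))).sub (pt_pre d Δ r)

private theorem pt_rg (d Δ r : ℕ) :
    PolyTime (fun M : Mat => List.range (gN d Δ r M + gm d Δ r M + r * gm d Δ r M)) := by
  set K := cap d Δ r with hK
  set K2 := 2 * (cap d Δ r * (cap d Δ r + d)) with hK2
  have hb : PB (fun n => n + 1 + K2) := (PB.id.add (PB.const 1)).add (PB.const _)
  have hb2 : PB (fun n => (n + 1 + K2) * d + K) := (hb.mul (PB.const d)).add (PB.const K)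
  apply PolyTime.range (((pt_gN d Δ r).add (pt_gm d Δ r)).add
    ((PolyTime.const r).mul (pt_gm d Δ r)))
  refine ⟨fun n => (n + 1 + K2) + ((n + 1 + K2) * d + K) + r * ((n + 1 + K2) * d + K),
    (hb.add hb2).add ((PB.const r).mul hb2), fun M => ?_⟩
  have h1 := gN_bd d Δ r M
  have h2 := gm_bd d Δ r M
  have h3 : gm d Δ r M ≤ (size M + 1 + K2) * d + K :=
    h2.trans (Nat.add_le_add_right (Nat.mul_le_mul_right d h1) _)
  exact Nat.add_le_add (Nat.add_le_add h1 h3) (Nat.mul_le_mul_left r h3)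

/-- the adjacency of the gadget, computed -/
private def ge2 (d Δ r : ℕ) (w : (Mat × ℕ) × ℕ) : Bool :=
  if w.1.2 < gN d Δ r w.1.1 then
    if w.2 < gN d Δ r w.1.1 then adj w.1.1 w.1.2 w.2
    else if w.2 < gN d Δ r w.1.1 + gm d Δ r w.1.1 then false
    else aB2 ((DL d Δ r w.1.1).take w.1.2).sum ((DL d Δ r w.1.1).getD w.1.2 0) (gm d Δ r w.1.1)
      (r * gm d Δ r w.1.1) d (w.2 - gN d Δ r w.1.1 - gm d Δ r w.1.1)
  else if w.1.2 < gN d Δ r w.1.1 + gm d Δ r w.1.1 then
    if w.2 < gN d Δ r w.1.1 then false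
    else if w.2 < gN d Δ r w.1.1 + gm d Δ r w.1.1 then false
    else iB (gm d Δ r w.1.1) d r (w.1.2 - gN d Δ r w.1.1)
      (w.2 - gN d Δ r w.1.1 - gm d Δ r w.1.1)
  else
    if w.2 < gN d Δ r w.1.1 then
      aB2 ((DL d Δ r w.1.1).take w.2).sum ((DL d Δ r w.1.1).getD w.2 0) (gm d Δ r w.1.1)
        (r * gm d Δ r w.1.1) d (w.1.2 - gN d Δ r w.1.1 - gm d Δ r w.1.1)
    else if w.2 < gN d Δ r w.1.1 + gm d Δ r w.1.1 then
      iB (gm d Δ r w.1.1) d r (w.2 - gN d Δ r w.1.1)
        (w.1.2 - gN d Δ r w.1.1 - gm d Δ r w.1.1)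
    else bB (gm d Δ r w.1.1) (r * gm d Δ r w.1.1) (gF d Δ r w.1.1)
      (w.1.2 - gN d Δ r w.1.1 - gm d Δ r w.1.1) (w.2 - gN d Δ r w.1.1 - gm d Δ r w.1.1)

private theorem ge2_eq (d Δ r : ℕ) (M : Mat) (p q : ℕ) : ge2 d Δ r ((M, p), q) =
    gedge M (dfc M d) (gN d Δ r M) (gm d Δ r M) (r * gm d Δ r M) (gF d Δ r M) d r p q := by
  unfold ge2 gedge aB aB2
  simp only
  by_cases h1 : p < gN d Δ r M
  · rw [if_pos h1, if_pos h1, DL_take d Δ r M h1, DL_get d Δ r M h1]
  · rw [if_neg h1, if_neg h1]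
    by_cases h2 : q < gN d Δ r M
    · rw [if_pos h2, if_pos h2, DL_take d Δ r M h2, DL_get d Δ r M h2]
      simp only [if_pos h2]
    · simp only [if_neg h2]

private theorem pt_ge2 (d Δ r : ℕ) : PolyTime (ge2 d Δ r) := by
  have hw : PolyTime (fun w : (Mat × ℕ) × ℕ => w) := PolyTime.id
  have hM : PolyTime (fun w : (Mat × ℕ) × ℕ => w.1.1) := hw.fst.fst
  have hp : PolyTime (fun w : (Mat × ℕ) × ℕ => w.1.2) := hw.fst.snd
  have hq : PolyTime (fun w : (Mat × ℕ) × ℕ => w.2) := hw.snd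
  have hN : PolyTime (fun w : (Mat × ℕ) × ℕ => gN d Δ r w.1.1) := (pt_gN d Δ r).comp hM
  have hm : PolyTime (fun w : (Mat × ℕ) × ℕ => gm d Δ r w.1.1) := (pt_gm d Δ r).comp hM
  have hF : PolyTime (fun w : (Mat × ℕ) × ℕ => gF d Δ r w.1.1) := (pt_gF d Δ r).comp hM
  have hD : PolyTime (fun w : (Mat × ℕ) × ℕ => DL d Δ r w.1.1) := (pt_DL d Δ r).comp hM
  have hR : PolyTime (fun w : (Mat × ℕ) × ℕ => r * gm d Δ r w.1.1) := (PolyTime.const r).mul hm
  have hNm : PolyTime (fun w : (Mat × ℕ) × ℕ => gN d Δ r w.1.1 + gm d Δ r w.1.1) := hN.add hm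
  have c1 := PolyTime.lt hp hN
  have c2 := PolyTime.lt hq hN
  have c3 := PolyTime.lt hp hNm
  have c4 := PolyTime.lt hq hNm
  have hp2 : PolyTime (fun w : (Mat × ℕ) × ℕ => w.1.2 - gN d Δ r w.1.1 - gm d Δ r w.1.1) :=
    (hp.sub hN).sub hm
  have hq2 : PolyTime (fun w : (Mat × ℕ) × ℕ => w.2 - gN d Δ r w.1.1 - gm d Δ r w.1.1) :=
    (hq.sub hN).sub hm
  unfold ge2
  refine PolyTime.ite (c := fun w : (Mat × ℕ) × ℕ => w.1.2 < gN d Δ r w.1.1) c1 ?_ ?_
  · refine PolyTime.ite (c := fun w : (Mat × ℕ) × ℕ => w.2 < gN d Δ r w.1.1) c2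
      (polyTime_adj hM hp hq) ?_
    refine PolyTime.ite (c := fun w : (Mat × ℕ) × ℕ => w.2 < gN d Δ r w.1.1 + gm d Δ r w.1.1)
      c4 (PolyTime.const false) ?_
    exact pt_aB2 d (PolyTime.sum (hD.take hp)) (hD.list_getD hp (PolyTime.const 0)) hm hR hq2
  · refine PolyTime.ite (c := fun w : (Mat × ℕ) × ℕ =>
      w.1.2 < gN d Δ r w.1.1 + gm d Δ r w.1.1) c3 ?_ ?_
    · refine PolyTime.ite (c := fun w : (Mat × ℕ) × ℕ => w.2 < gN d Δ r w.1.1) c2
        (PolyTime.const false) ?_
      refine PolyTime.ite (c := fun w : (Mat × ℕ) × ℕ =>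
        w.2 < gN d Δ r w.1.1 + gm d Δ r w.1.1) c4 (PolyTime.const false) ?_
      exact pt_iB d r hm (hp.sub hN) hq2
    · refine PolyTime.ite (c := fun w : (Mat × ℕ) × ℕ => w.2 < gN d Δ r w.1.1) c2 ?_ ?_
      · exact pt_aB2 d (PolyTime.sum (hD.take hq)) (hD.list_getD hq (PolyTime.const 0)) hm hR hp2
      · refine PolyTime.ite (c := fun w : (Mat × ℕ) × ℕ =>
          w.2 < gN d Δ r w.1.1 + gm d Δ r w.1.1) c4 ?_ ?_
        · exact pt_iB d r hm (hq.sub hN) hp2
        · exact pt_bB hm hR hF hp2 hq2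

theorem polyTime_gad (d Δ r : ℕ) : PolyTime (fun M : Mat => gad d Δ r M) := by
  have hw : PolyTime (fun w : Mat × ℕ => w) := PolyTime.id
  have hv : PolyTime (fun w : (Mat × ℕ) × ℕ => w) := PolyTime.id
  have hR := pt_rg d Δ r
  have h1 := PolyTime.map hR (g := fun w : Mat × ℕ =>
    (List.range (gN d Δ r w.1 + gm d Δ r w.1 + r * gm d Δ r w.1)).map
      (fun j => ge2 d Δ r (w, j)))
    (PolyTime.map (hR.comp hw.fst) (g := fun w : (Mat × ℕ) × ℕ => ge2 d Δ r w) (pt_ge2 d Δ r))
  refine h1.congr (fun M => ?_)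
  unfold gad gadm mk
  apply List.map_congr_left
  intro i _
  apply List.map_congr_left
  intro j _
  exact ge2_eq d Δ r M i j

end Pool.Agent.H66.MB
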