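import Pool.Agent.H66.MB.GadPar
import Pool.Agent.H66.MB.GadInd
import Pool.Agent.H66.MB.GadPoly

/-!
# The gadget: summary

PROOF of `gadget`. `g = gad d Δ r`, `w = cap d Δ r`. `Valid`: `gadm_valid`. Degrees: every vertex of
`gad` is below `N`, or `N + j`, or `N + m + β` (its length is `N + m + r m`, `mk_length`);
`deg_a`, `deg_i` give `d`; `deg_b` with `s = Δ + 1 - r` (`gm_tot`) gives
`s - [r m - F ≤ β] + (r - 1) + partners`, which is `Δ`, or `Δ - 1` in case `F` is odd and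
`β = r m - 1`; if `Δ = d` then `F` is even (`gF_even`), otherwise `Δ - 1 ≥ d`. Conditions:
`m ≥ w + d` (`gm_ge`) gives `d / r < m`, `2 ≤ m`, `F ≤ r m`, `d ≤ r m`, `f a ≤ d ≤ r m`.
Length: `N + m (r + 1)`, `m ≤ T / w + 1 ≤ N d / w + 1` (real numbers; `m w < T + w`),
`N ≤ n + 1 + 2 w (w + d)`. So the length is at most
`(n + 1 + 2 w (w + d)) (1 + (r + 1) d / w) + r + 1`; take
`K = ⌈(1 + 2 w (w + d)) (1 + (r + 1) d / w) + r + 1⌉₊`. Back: `gad_back`.
-/

set_option autoImplicit false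

namespace Pool.Agent.H66.MB

open Pool.Agent.H80.Poly

private theorem gad_dg_ge {M : Mat} {a : ℕ} (ha : M.length ≤ a) (C : List ℕ) : dg M C a = 0 := by
  unfold dg
  rw [List.length_eq_zero_iff, List.filter_eq_nil_iff]
  intro u _
  unfold adj
  rw [List.getD_eq_default _ _ ha]
  simp

theorem gadget (D d Δ r : ℕ) (hD : D < d) (h1 : d ≤ Δ) (h3 : 3 ≤ r) (hr : r < d)
    (hodd : Odd r) :
    ∃ (g : Mat → Mat) (K : ℕ), PolyTime g ∧ ∀ M, Valid M → DegLe M D →
      Valid (g M) ∧ DegIn (g M) d Δ ∧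
      ((g M).length : ℝ) ≤ (1 + (r + 1) * d / (((Δ : ℝ) + 1 - r) * r - d)) * M.length + K ∧
      ∀ b, MaxV (g M) b → MaxV M (b.take M.length) := by
  have hw0 : 0 < cap d Δ r := cap_pos h1 h3 hr
  have hcast : ((cap d Δ r : ℕ) : ℝ) = ((Δ : ℝ) + 1 - r) * r - d := by
    have h := cap_add h1 h3 hr
    have h' : ((cap d Δ r + d : ℕ) : ℝ) = (((Δ + 1 - r) * r : ℕ) : ℝ) := by rw [h]
    rw [Nat.cast_add, Nat.cast_mul, Nat.cast_sub (by omega)] at h'
    push_cast at h'
    linarith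
  set c : ℝ := 1 + 2 * ((cap d Δ r : ℝ) * ((cap d Δ r : ℝ) + d)) with hc
  refine ⟨fun M => gad d Δ r M,
    ⌈c * (1 + (r + 1) * d / (cap d Δ r : ℝ)) + (r + 1)⌉₊, polyTime_gad d Δ r, ?_⟩
  intro M hM hD'
  have hN : M.length ≤ gN d Δ r M := le_gN d Δ r M
  have hmge : cap d Δ r + d ≤ gm d Δ r M := gm_ge hM hD' hD h1 h3 hr
  obtain ⟨hF1, hF2⟩ := gF_add (M := M) h1 h3 hr
  have hlen : (gad d Δ r M).length = gN d Δ r M + gm d Δ r M + r * gm d Δ r M := by
    unfold gad gadm
    exact mk_length _ _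
  have hRm : gm d Δ r M ≤ r * gm d Δ r M := Nat.le_mul_of_pos_left _ (by omega)
  refine ⟨gadm_valid M hM _ _ _ _ _ _, ?_, ?_, ?_⟩
  · intro v hv
    rw [hlen] at hv ⊢
    have hdr : d / r < gm d Δ r M := by
      have := Nat.div_le_self d r
      omega
    by_cases h4 : v < gN d Δ r M
    · have h5 : dg M (List.range M.length) v ≤ d := by
        by_cases h6 : v < M.length
        · exact (hD' v h6).trans hD.le
        · rw [gad_dg_ge (by omega)]
          exact Nat.zero_le _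
      have h7 := deg_a M hM (gN d Δ r M) (gm d Δ r M) r (gF d Δ r M) d v hN h4 (by omega)
        (by omega) h5
      unfold gad
      rw [h7]
      exact ⟨le_rfl, h1⟩
    · by_cases h5 : v < gN d Δ r M + gm d Δ r M
      · have h7 := deg_i M (dfc M d) (gN d Δ r M) (gm d Δ r M) r (gF d Δ r M) d
          (v - gN d Δ r M) (by omega) hdr (by omega)
        rw [show gN d Δ r M + (v - gN d Δ r M) = v by omega] at h7
        unfold gad
        rw [h7]
        exact ⟨le_rfl, h1⟩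
      · have h7 := deg_b M (dfc M d) (gN d Δ r M) (gm d Δ r M) r (gF d Δ r M) d (Δ + 1 - r)
          (v - gN d Δ r M - gm d Δ r M) (by omega) hdr (by omega) (by omega)
          (fun a => (dfc_le M d a).trans (by omega)) (by omega) (by omega) (gm_tot h1 h3 hr)
        rw [show gN d Δ r M + gm d Δ r M + (v - gN d Δ r M - gm d Δ r M) = v by omega] at h7
        unfold gad
        rw [h7]
        have h8 : Δ = d → gF d Δ r M % 2 = 0 := by
          intro h9
          subst h9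
          exact Nat.even_iff.1 (gF_even hM hD' hD h3 hr hodd)
        unfold partners
        split_ifs <;> constructor <;> omega
  · rw [hlen]
    have hw : (0 : ℝ) < (cap d Δ r : ℝ) := by exact_mod_cast hw0
    have hT : (pre (dfc M d) (gN d Δ r M) : ℝ) ≤ (gN d Δ r M : ℝ) * d := by
      exact_mod_cast pre_le M d (gN d Δ r M)
    have hm1 : (gm d Δ r M : ℝ) * (cap d Δ r : ℝ) ≤
        (pre (dfc M d) (gN d Δ r M) : ℝ) + (cap d Δ r : ℝ) := by
      have : gm d Δ r M * cap d Δ r ≤ pre (dfc M d) (gN d Δ r M) + cap d Δ r := by omega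
      exact_mod_cast this
    have hm2 : (gm d Δ r M : ℝ) ≤ (gN d Δ r M : ℝ) * d / (cap d Δ r : ℝ) + 1 := by
      have h4 : (gm d Δ r M : ℝ) ≤
          ((gN d Δ r M : ℝ) * d + (cap d Δ r : ℝ)) / (cap d Δ r : ℝ) := by
        rw [le_div_iff₀ hw]
        linarith
      rw [add_div, div_self hw.ne'] at h4
      exact h4
    have hNle : (gN d Δ r M : ℝ) ≤ (M.length : ℝ) + c := by
      have h4 := gN_le d Δ r M
      have h5 : (gN d Δ r M : ℝ) ≤
          ((M.length + 1 + 2 * (cap d Δ r * (cap d Δ r + d)) : ℕ) : ℝ) := by exact_mod_cast h4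
      push_cast at h5
      rw [hc]
      linarith
    rw [← hcast]
    have hq0 : (0 : ℝ) ≤ (r + 1) * d / (cap d Δ r : ℝ) := by positivity
    have hr1 : (0 : ℝ) ≤ (r : ℝ) + 1 := by positivity
    have hceil := Nat.le_ceil (c * (1 + (r + 1) * d / (cap d Δ r : ℝ)) + (r + 1))
    push_cast
    calc (gN d Δ r M : ℝ) + (gm d Δ r M : ℝ) + (r : ℝ) * (gm d Δ r M : ℝ)
        = (gN d Δ r M : ℝ) + ((r : ℝ) + 1) * (gm d Δ r M : ℝ) := by ring
      _ ≤ (gN d Δ r M : ℝ) + ((r : ℝ) + 1) *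
            ((gN d Δ r M : ℝ) * d / (cap d Δ r : ℝ) + 1) := by
          have := mul_le_mul_of_nonneg_left hm2 hr1
          linarith
      _ = (gN d Δ r M : ℝ) * (1 + (r + 1) * d / (cap d Δ r : ℝ)) + (r + 1) := by ring
      _ ≤ ((M.length : ℝ) + c) * (1 + (r + 1) * d / (cap d Δ r : ℝ)) + (r + 1) := by
          have := mul_le_mul_of_nonneg_right hNle
            (show (0 : ℝ) ≤ 1 + (r + 1) * d / (cap d Δ r : ℝ) by linarith)
          linarith
      _ = (1 + (r + 1) * d / (cap d Δ r : ℝ)) * (M.length : ℝ) +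
            (c * (1 + (r + 1) * d / (cap d Δ r : ℝ)) + (r + 1)) := by ring
      _ ≤ _ := by linarith
  · intro b hb
    exact gad_back M hM _ _ _ r _ d (by omega) hr.le hN b hb

end Pool.Agent.H66.MB
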