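import Pool.Agent.H66.MB.MatA

/-!
# The gadget: definitions

Given a graph `H` on `{0, ..., n0 - 1}` (matrix `M`), the new graph has the vertex set
`A ∪ I ∪ B`, where
* `A = {0, ..., N - 1}` (`N ≥ n0`; the vertices of `H` and isolated vertices);
* `I = {N, ..., N + m - 1}`, the vertex `N + j` is called `i_j`;
* `B = {N + m, ..., N + m + R - 1}`, `R = r m`; the vertex `N + m + β` belongs to the clique number
  `β % m` (the `m` cliques have `r` vertices each).
Edges: those of `H`; `i_j` is joined to its own clique (number `j`) and to vertices of the next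
cliques, `d` in total; the vertex `a` of `A` is joined to `f a` vertices of `B` (its missing
degree), taken cyclically; `B` consists of `m` disjoint cliques plus a matching on the last
`F` vertices.
-/

set_option autoImplicit false

namespace Pool.Agent.H66.MB

/-- the missing degree -/
def dfc (M : Mat) (d a : ℕ) : ℕ := d - dg M (List.range M.length) a

/-- partial sums -/
def pre (f : ℕ → ℕ) (a : ℕ) : ℕ := ∑ i ∈ Finset.range a, f i

/-- `(β - X) mod R` -/
def off (R X β : ℕ) : ℕ := (β + (R - 1) * X) % R

/-- adjacency between `i_j` and `β ∈ B` -/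
def iB (m d r j β : ℕ) : Bool :=
  decide ((β % m + m - j) % m < d / r ∨ ((β % m + m - j) % m = d / r ∧ β / m < d % r))

/-- adjacency inside `B` -/
def bB (m R F β β' : ℕ) : Bool :=
  decide (β ≠ β' ∧ (β % m = β' % m ∨
    (R - F ≤ β ∧ R - F ≤ β' ∧ (β - (R - F)) / 2 = (β' - (R - F)) / 2)))

/-- adjacency between `a ∈ A` and `β ∈ B` -/
def aB (f : ℕ → ℕ) (m R d a β : ℕ) : Bool := decide (off R (m * d + pre f a) β < f a)

/-- the adjacency of the gadget -/
def gedge (M : Mat) (f : ℕ → ℕ) (N m R F d r p q : ℕ) : Bool :=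
  if p < N then
    if q < N then adj M p q
    else if q < N + m then false
    else aB f m R d p (q - N - m)
  else if p < N + m then
    if q < N then false
    else if q < N + m then false
    else iB m d r (p - N) (q - N - m)
  else
    if q < N then aB f m R d q (p - N - m)
    else if q < N + m then iB m d r (q - N) (p - N - m)
    else bB m R F (p - N - m) (q - N - m)

/-- the matrix of the gadget -/
def gadm (M : Mat) (f : ℕ → ℕ) (N m R F d r : ℕ) : Mat :=
  mk (N + m + R) (gedge M f N m R F d r)

/-! ### the parameters -/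

/-- capacity of a clique -/
def cap (d Δ r : ℕ) : ℕ := (Δ + 1 - r) * r - d

/-- number of vertices of `A` -/
def gN (d Δ r : ℕ) (M : Mat) : ℕ :=
  max (M.length + M.length % 2) (2 * (cap d Δ r * (cap d Δ r + d)))

/-- number of cliques -/
def gm (d Δ r : ℕ) (M : Mat) : ℕ :=
  (pre (dfc M d) (gN d Δ r M) + cap d Δ r - 1) / cap d Δ r

/-- unused capacity -/
def gF (d Δ r : ℕ) (M : Mat) : ℕ :=
  gm d Δ r M * cap d Δ r - pre (dfc M d) (gN d Δ r M)

/-- the gadget -/
def gad (d Δ r : ℕ) (M : Mat) : Mat :=
  gadm M (dfc M d) (gN d Δ r M) (gm d Δ r M) (r * gm d Δ r M) (gF d Δ r M) d r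

end Pool.Agent.H66.MB
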