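import Pool.Agent.H66.MB.GadDef

/-!
# Counting the neighbours inside the gadget

PROOFS.
`card_iB_i` (neighbours in `I` of `β`): `j ↦ (β % m + m - j) % m` is a bijection of `range m`; it takes
each of the `d / r < m` values below `d / r` once, and the value `d / r` once.
`card_iB_b` (neighbours in `B` of `i_j`): write `β = x + m y` with `x < m`, `y < r`
(bijection of `range (r m)` with pairs); for every `y` the number of `x` with
`(x + m - j) % m < d / r` is `d / r`, and there is exactly one `x` with
`(x + m - j) % m = d / r`. The total is `r (d / r) + d % r = d`.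
`card_clique`: the `β' < r m` with `β' % m = β % m` are the `β % m + m y` with `y < r`; remove `β`.
`card_pair`: the partner of `R - F + k` is `R - F + k + 1` for even `k` and `R - F + k - 1` for odd `k`;
it is below `R` unless `F` is odd and `k = F - 1`.
`card_bB`: `bB m R F β β'` is the disjoint union of the two cases, as numbers that differ by one are
not congruent modulo `m ≥ 2` (`(β - (R-F))/2 = (β' - (R-F))/2` and `β ≠ β'` give `β' = β ± 1`).
-/

set_option autoImplicit false

namespace Pool.Agent.H66.MB

/-- counting the values below `c` and the value `c` -/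
private lemma g2_cnt (m c : ℕ) (hc : c < m) (Q : Prop) [Decidable Q] :
    ((Finset.range m).filter (fun k => k < c ∨ (k = c ∧ Q))).card = c + (if Q then 1 else 0) := by
  by_cases hQ : Q
  · rw [if_pos hQ]
    have e : (Finset.range m).filter (fun k => k < c ∨ (k = c ∧ Q)) = Finset.range (c + 1) := by
      ext k
      simp only [Finset.mem_filter, Finset.mem_range]
      constructor
      · rintro ⟨_, h | ⟨h, _⟩⟩ <;> omega
      · intro h
        refine ⟨by omega, ?_⟩
        rcases Nat.lt_or_ge k c with h1 | h1
        · exact Or.inl h1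
        · exact Or.inr ⟨by omega, hQ⟩
    rw [e, Finset.card_range]
  · rw [if_neg hQ]
    have e : (Finset.range m).filter (fun k => k < c ∨ (k = c ∧ Q)) = Finset.range c := by
      ext k
      simp only [Finset.mem_filter, Finset.mem_range]
      constructor
      · rintro ⟨_, h | ⟨_, h⟩⟩
        · exact h
        · exact absurd h hQ
      · intro h
        exact ⟨by omega, Or.inl h⟩
    rw [e, Finset.card_range, Nat.add_zero]

private lemma g2_sub (m x j : ℕ) (hx : x < m) (hj : j < m) :
    (x + m - j) % m = if j ≤ x then x - j else x + m - j := by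
  split_ifs with h
  · have e : x + m - j = (x - j) + m := by omega
    rw [e, Nat.add_mod_right, Nat.mod_eq_of_lt (by omega)]
  · exact Nat.mod_eq_of_lt (by omega)

/-- `j ↦ (x - j) mod m` -/
private lemma g2_bij1 (m x : ℕ) (hx : x < m) (P : ℕ → Prop) [DecidablePred P] :
    ((Finset.range m).filter (fun j => P ((x + m - j) % m))).card =
      ((Finset.range m).filter P).card := by
  apply Finset.card_bij' (fun j _ => (x + m - j) % m) (fun j _ => (x + m - j) % m)
  · intro j hj
    simp only [Finset.mem_filter, Finset.mem_range] at hj ⊢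
    exact ⟨Nat.mod_lt _ (by omega), hj.2⟩
  · intro j hj
    simp only [Finset.mem_filter, Finset.mem_range] at hj ⊢
    refine ⟨Nat.mod_lt _ (by omega), ?_⟩
    have e : (x + m - (x + m - j) % m) % m = j := by
      rw [g2_sub m x j hx hj.1]
      split_ifs with h
      · rw [g2_sub m x _ hx (by omega)]
        rw [if_pos (by omega)]; omega
      · rw [g2_sub m x _ hx (by omega)]
        rw [if_neg (by omega)]; omega
    rw [e]
    exact hj.2
  · intro j hj
    simp only [Finset.mem_filter, Finset.mem_range] at hj
    rw [g2_sub m x j hx hj.1]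
    split_ifs with h
    · rw [g2_sub m x _ hx (by omega)]
      rw [if_pos (by omega)]; omega
    · rw [g2_sub m x _ hx (by omega)]
      rw [if_neg (by omega)]; omega
  · intro j hj
    simp only [Finset.mem_filter, Finset.mem_range] at hj
    rw [g2_sub m x j hx hj.1]
    split_ifs with h
    · rw [g2_sub m x _ hx (by omega)]
      rw [if_pos (by omega)]; omega
    · rw [g2_sub m x _ hx (by omega)]
      rw [if_neg (by omega)]; omega

private lemma g2_add (m k j : ℕ) (hk : k < m) (hj : j < m) :
    (k + j) % m = if k + j < m then k + j else k + j - m := by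
  split_ifs with h
  · exact Nat.mod_eq_of_lt h
  · rw [Nat.mod_eq_sub_mod (by omega), Nat.mod_eq_of_lt (by omega)]

/-- `x ↦ (x - j) mod m` -/
private lemma g2_bij2 (m j : ℕ) (hj : j < m) (P : ℕ → Prop) [DecidablePred P] :
    ((Finset.range m).filter (fun x => P ((x + m - j) % m))).card =
      ((Finset.range m).filter P).card := by
  have key1 : ∀ x < m, ((x + m - j) % m + j) % m = x := by
    intro x hx
    rw [g2_sub m x j hx hj]
    split_ifs with h
    · rw [g2_add m _ j (by omega) hj]; split_ifs <;> omega
    · rw [g2_add m _ j (by omega) hj]; split_ifs <;> omega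
  have key2 : ∀ k < m, ((k + j) % m + m - j) % m = k := by
    intro k hk
    have h1 : (k + j) % m < m := Nat.mod_lt _ (by omega)
    rw [g2_sub m _ j h1 hj]
    rw [g2_add m k j hk hj]
    split_ifs <;> omega
  apply Finset.card_bij' (fun x _ => (x + m - j) % m) (fun k _ => (k + j) % m)
  · intro x hx
    simp only [Finset.mem_filter, Finset.mem_range] at hx ⊢
    exact ⟨Nat.mod_lt _ (by omega), hx.2⟩
  · intro k hk
    simp only [Finset.mem_filter, Finset.mem_range] at hk ⊢
    refine ⟨Nat.mod_lt _ (by omega), ?_⟩
    rw [key2 k hk.1]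
    exact hk.2
  · intro x hx
    simp only [Finset.mem_filter, Finset.mem_range] at hx
    exact key1 x hx.1
  · intro k hk
    simp only [Finset.mem_filter, Finset.mem_range] at hk
    exact key2 k hk.1

/-- splitting `range (s m)` into rows -/
private lemma g2_rows (m : ℕ) (P : ℕ → Prop) [DecidablePred P] : ∀ s : ℕ,
    ((Finset.range (s * m)).filter P).card =
      ∑ y ∈ Finset.range s, ((Finset.range m).filter (fun x => P (x + m * y))).card
  | 0 => by simp
  | s + 1 => by
    have ih := g2_rows m P s
    rw [Finset.card_filter] at ih ⊢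
    rw [Finset.sum_range_succ, ← ih, Nat.succ_mul, Finset.sum_range_add, Finset.card_filter]
    congr 1
    apply Finset.sum_congr rfl
    intro x _
    rw [show x + m * s = s * m + x by ring]

theorem card_iB_i (m d r β : ℕ) (hm : d / r < m) :
    ((Finset.range m).filter (fun j => iB m d r j β = true)).card =
      d / r + (if β / m < d % r then 1 else 0) := by
  unfold iB
  simp only [decide_eq_true_eq]
  have h := g2_bij1 m (β % m) (Nat.mod_lt _ (Nat.lt_of_le_of_lt (Nat.zero_le _) hm))
    (fun k => k < d / r ∨ (k = d / r ∧ β / m < d % r))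
  rw [h]
  exact g2_cnt m (d / r) hm _

theorem card_iB_b (m d r j : ℕ) (hr : 0 < r) (hm : d / r < m) (hj : j < m) :
    ((Finset.range (r * m)).filter (fun β => iB m d r j β = true)).card = d := by
  rw [g2_rows]
  have h1 : ∀ y ∈ Finset.range r,
      ((Finset.range m).filter (fun x => iB m d r j (x + m * y) = true)).card =
        d / r + (if y < d % r then 1 else 0) := by
    intro y _
    unfold iB
    simp only [decide_eq_true_eq]
    have h := g2_bij2 m j hj (fun k => k < d / r ∨ (k = d / r ∧ y < d % r))
    rw [← g2_cnt m (d / r) hm (y < d % r), ← h]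
    congr 1
    apply Finset.filter_congr
    intro x hx
    have hx' := Finset.mem_range.1 hx
    rw [Nat.add_mul_mod_self_left, Nat.mod_eq_of_lt hx', Nat.add_mul_div_left _ _ (by omega),
      Nat.div_eq_of_lt hx', Nat.zero_add]
  rw [Finset.sum_congr rfl h1, Finset.sum_add_distrib, Finset.sum_const, Finset.card_range,
    smul_eq_mul, ← Finset.card_filter]
  have h2 : (Finset.range r).filter (fun y => y < d % r) = Finset.range (d % r) := by
    ext y
    simp only [Finset.mem_filter, Finset.mem_range]
    have := Nat.mod_lt d hr
    omega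
  rw [h2, Finset.card_range]
  exact Nat.div_add_mod d r

theorem card_clique (m r β : ℕ) (hβ : β < r * m) :
    ((Finset.range (r * m)).filter (fun β' => β ≠ β' ∧ β % m = β' % m)).card = r - 1 := by
  have hm : 0 < m := by
    rcases Nat.eq_zero_or_pos m with h | h
    · rw [h, Nat.mul_zero] at hβ
      omega
    · exact h
  have h1 : ((Finset.range (r * m)).filter (fun β' => β % m = β' % m)).card = r := by
    rw [g2_rows]
    have h2 : ∀ y ∈ Finset.range r,
        ((Finset.range m).filter (fun x => β % m = (x + m * y) % m)).card = 1 := by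
      intro y _
      rw [Finset.card_eq_one]
      refine ⟨β % m, ?_⟩
      ext x
      simp only [Finset.mem_filter, Finset.mem_range, Finset.mem_singleton]
      have hb := Nat.mod_lt β hm
      constructor
      · rintro ⟨hx, h⟩
        rw [Nat.add_mul_mod_self_left, Nat.mod_eq_of_lt hx] at h
        exact h.symm
      · rintro rfl
        refine ⟨hb, ?_⟩
        rw [Nat.add_mul_mod_self_left, Nat.mod_mod]
    rw [Finset.sum_congr rfl h2, Finset.sum_const, Finset.card_range, smul_eq_mul, Nat.mul_one]
  have h3 : (Finset.range (r * m)).filter (fun β' => β ≠ β' ∧ β % m = β' % m) =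
      ((Finset.range (r * m)).filter (fun β' => β % m = β' % m)).erase β := by
    ext x
    simp only [Finset.mem_filter, Finset.mem_range, Finset.mem_erase]
    constructor
    · rintro ⟨h4, h5, h6⟩
      exact ⟨fun h => h5 h.symm, h4, h6⟩
    · rintro ⟨h4, h5, h6⟩
      exact ⟨h5, fun h => h4 h.symm, h6⟩
  rw [h3, Finset.card_erase_of_mem, h1]
  simp only [Finset.mem_filter, Finset.mem_range]
  exact ⟨hβ, trivial⟩

/-- the number of partners of `β` -/
def partners (R F β : ℕ) : ℕ :=
  if R - F ≤ β ∧ ¬ (F % 2 = 1 ∧ β + 1 = R) then 1 else 0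

theorem card_pair (R F β : ℕ) (hF : F ≤ R) (hβ : β < R) :
    ((Finset.range R).filter (fun β' => β ≠ β' ∧ R - F ≤ β ∧ R - F ≤ β' ∧
      (β - (R - F)) / 2 = (β' - (R - F)) / 2)).card = partners R F β := by
  unfold partners
  split_ifs with h
  · obtain ⟨h1, h2⟩ := h
    rw [Finset.card_eq_one]
    rcases Nat.mod_two_eq_zero_or_one (β - (R - F)) with h3 | h3
    · refine ⟨β + 1, ?_⟩
      ext x
      simp only [Finset.mem_filter, Finset.mem_range, Finset.mem_singleton]
      constructor
      · rintro ⟨h4, h5, h6, h7, h8⟩
        omega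
      · intro hx
        have : β + 1 < R := by
          by_contra hcon
          apply h2
          constructor
          · omega
          · omega
        refine ⟨by omega, by omega, h1, by omega, by omega⟩
    · refine ⟨β - 1, ?_⟩
      ext x
      simp only [Finset.mem_filter, Finset.mem_range, Finset.mem_singleton]
      constructor
      · rintro ⟨h4, h5, h6, h7, h8⟩
        omega
      · intro hx
        refine ⟨by omega, by omega, h1, by omega, by omega⟩
  · rw [Finset.card_eq_zero]
    ext x
    simp only [Finset.mem_filter, Finset.mem_range, Finset.notMem_empty, iff_false]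
    rintro ⟨h4, h5, h6, h7, h8⟩
    apply h
    refine ⟨h6, ?_⟩
    rintro ⟨h9, h10⟩
    omega

theorem card_bB (m r F β : ℕ) (hm : 2 ≤ m) (hF : F ≤ r * m) (hβ : β < r * m) :
    ((Finset.range (r * m)).filter (fun β' => bB m (r * m) F β β' = true)).card =
      (r - 1) + partners (r * m) F β := by
  rw [← card_clique m r β hβ, ← card_pair (r * m) F β hF hβ, ← Finset.card_union_of_disjoint]
  · congr 1
    ext x
    unfold bB
    simp only [Finset.mem_filter, Finset.mem_range, Finset.mem_union, decide_eq_true_eq]
    tauto
  · rw [Finset.disjoint_left]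
    intro x hx hy
    simp only [Finset.mem_filter, Finset.mem_range] at hx hy
    obtain ⟨_, h1, h2⟩ := hx
    obtain ⟨_, _, h3, h4, h5⟩ := hy
    have h6 : x = β + 1 ∨ β = x + 1 := by omega
    rcases h6 with h6 | h6
    · rw [h6] at h2
      have h7 : (β + 1) ≡ β [MOD m] := h2.symm
      have h8 := (Nat.modEq_iff_dvd' (by omega : β ≤ β + 1)).1 h7.symm
      rw [Nat.add_sub_cancel_left] at h8
      have := Nat.le_of_dvd (by omega) h8
      omega
    · rw [h6] at h2
      have h7 : x ≡ x + 1 [MOD m] := h2.symm
      have h8 := (Nat.modEq_iff_dvd' (by omega : x ≤ x + 1)).1 h7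
      rw [Nat.add_sub_cancel_left] at h8
      have := Nat.le_of_dvd (by omega) h8
      omega

end Pool.Agent.H66.MB
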