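import Pool.Agent.H66.MB.GadIdx
import Pool.Agent.H66.MB.GadIdx2

/-!
# Degrees in the gadget

Put `W = N + m + R`, `R = r m`. By `dg_mk` the degree of `v` in `gadm` is the number of `u < W` with
`gedge ... v u = true`.

PROOF of `card_split`: `range (N + m + R)` is the disjoint union of `range N`, of the image of
`range m` under `j ↦ N + j` and of the image of `range R` under `β ↦ N + m + β`.

PROOF of `deg_a`: the three parts contribute `dg M (range M.length) a` (entries `q ≥ M.length` are
`false`, `adj_lt`), `0`, and `f a` (`card_off_lt`, `f a ≤ R`); the sum is `d` as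
`f a = d - dg M (range M.length) a` and the degree is at most `d`.
PROOF of `deg_i`: `0 + 0 + d` (`card_iB_b`).
PROOF of `deg_b`: from `A`: `sum_tokens` with `T = m d`; from `I`: `card_iB_i`, equal to the number of
tokens `P < m d` with `P % R = β` (`card_md`); together the number of `P < m d + pre f N = s R - F`
with `P % R = β`, that is `s` or `s - 1` (`card_full`); from `B`: `card_bB`.
-/

set_option autoImplicit false

namespace Pool.Agent.H66.MB

private theorem gaddeg_add (a b : ℕ) (P : ℕ → Bool) :
    ((Finset.range (a + b)).filter (fun u => P u = true)).card =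
      ((Finset.range a).filter (fun u => P u = true)).card +
      ((Finset.range b).filter (fun j => P (a + j) = true)).card := by
  rw [Finset.card_filter, Finset.card_filter, Finset.card_filter, Finset.sum_range_add]

theorem card_split (N m R : ℕ) (P : ℕ → Bool) :
    ((Finset.range (N + m + R)).filter (fun u => P u = true)).card =
      ((Finset.range N).filter (fun u => P u = true)).card +
      ((Finset.range m).filter (fun j => P (N + j) = true)).card +
      ((Finset.range R).filter (fun β => P (N + m + β) = true)).card := by
  rw [gaddeg_add, gaddeg_add]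

theorem deg_a (M : Mat) (hM : Valid M) (N m r F d a : ℕ) (hN : M.length ≤ N) (ha : a < N)
    (hR : d ≤ r * m) (hR0 : 0 < r * m) (hd : dg M (List.range M.length) a ≤ d) :
    dg (gadm M (dfc M d) N m (r * m) F d r) (List.range (N + m + r * m)) a = d := by
  unfold gadm
  rw [dg_mk _ _ _ (by omega), card_split]
  have h1 : ((Finset.range N).filter
      (fun u => gedge M (dfc M d) N m (r * m) F d r a u = true)).card =
      dg M (List.range M.length) a := by
    have e : dg M (List.range M.length) a =
        ((Finset.range M.length).filter (fun u => adj M a u = true)).card := by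
      unfold dg
      rw [← List.toFinset_card_of_nodup (List.nodup_range.filter _)]
      congr 1
      ext u
      simp
    rw [e]
    congr 1
    ext u
    simp only [Finset.mem_filter, Finset.mem_range]
    constructor
    · rintro ⟨h1, h2⟩
      unfold gedge at h2
      rw [if_pos ha, if_pos h1] at h2
      exact ⟨(adj_lt hM h2).2, h2⟩
    · rintro ⟨h1, h2⟩
      refine ⟨by omega, ?_⟩
      unfold gedge
      rw [if_pos ha, if_pos (by omega)]
      exact h2
  have h2 : ((Finset.range m).filter
      (fun j => gedge M (dfc M d) N m (r * m) F d r a (N + j) = true)).card = 0 := by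
    rw [Finset.card_eq_zero, Finset.filter_eq_empty_iff]
    intro j hj h
    rw [Finset.mem_range] at hj
    unfold gedge at h
    rw [if_pos ha, if_neg (by omega), if_pos (by omega)] at h
    exact Bool.noConfusion h
  have h3 : ((Finset.range (r * m)).filter
      (fun β => gedge M (dfc M d) N m (r * m) F d r a (N + m + β) = true)).card = dfc M d a := by
    rw [← card_off_lt (r * m) (m * d + pre (dfc M d) a) (dfc M d a) hR0
      (le_trans (Nat.sub_le _ _) hR)]
    congr 1
    apply Finset.filter_congr
    intro β _
    unfold gedge
    rw [if_pos ha, if_neg (by omega), if_neg (by omega)]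
    unfold aB
    rw [decide_eq_true_eq, show N + m + β - N - m = β by omega]
  rw [h1, h2, h3]
  unfold dfc
  omega

theorem deg_i (M : Mat) (f : ℕ → ℕ) (N m r F d j : ℕ) (hr : 0 < r) (hm : d / r < m)
    (hj : j < m) :
    dg (gadm M f N m (r * m) F d r) (List.range (N + m + r * m)) (N + j) = d := by
  unfold gadm
  rw [dg_mk _ _ _ (by omega), card_split]
  have h1 : ((Finset.range N).filter
      (fun u => gedge M f N m (r * m) F d r (N + j) u = true)).card = 0 := by
    rw [Finset.card_eq_zero, Finset.filter_eq_empty_iff]
    intro u hu h
    rw [Finset.mem_range] at hu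
    unfold gedge at h
    rw [if_neg (by omega), if_pos (by omega), if_pos hu] at h
    exact Bool.noConfusion h
  have h2 : ((Finset.range m).filter
      (fun k => gedge M f N m (r * m) F d r (N + j) (N + k) = true)).card = 0 := by
    rw [Finset.card_eq_zero, Finset.filter_eq_empty_iff]
    intro k hk h
    rw [Finset.mem_range] at hk
    unfold gedge at h
    rw [if_neg (by omega), if_pos (by omega), if_neg (by omega), if_pos (by omega)] at h
    exact Bool.noConfusion h
  have h3 : ((Finset.range (r * m)).filter
      (fun β => gedge M f N m (r * m) F d r (N + j) (N + m + β) = true)).card = d := by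
    rw [← card_iB_b m d r j hr hm hj]
    congr 1
    apply Finset.filter_congr
    intro β _
    unfold gedge
    rw [if_neg (by omega), if_pos (by omega), if_neg (by omega), if_neg (by omega)]
    rw [show N + m + β - N - m = β by omega, show N + j - N = j by omega]
    rw [card_iB_b m d r j hr hm hj]
  rw [h1, h2, h3]
  omega

theorem deg_b (M : Mat) (f : ℕ → ℕ) (N m r F d s β : ℕ) (hr : 0 < r) (hm : d / r < m)
    (hm2 : 2 ≤ m) (hβ : β < r * m) (hf : ∀ a, f a ≤ r * m) (hF : F ≤ r * m) (hs : 1 ≤ s)
    (htot : m * d + pre f N + F = s * (r * m)) :
    dg (gadm M f N m (r * m) F d r) (List.range (N + m + r * m)) (N + m + β) =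
      (s - (if r * m - F ≤ β then 1 else 0)) + ((r - 1) + partners (r * m) F β) := by
  unfold gadm
  rw [dg_mk _ _ _ (by omega), card_split]
  have h1 : ((Finset.range N).filter
      (fun u => gedge M f N m (r * m) F d r (N + m + β) u = true)).card =
      ((Finset.Ico (m * d) (m * d + pre f N)).filter (fun P => P % (r * m) = β)).card := by
    rw [← sum_tokens f (r * m) (m * d) β N hβ hf]
    congr 1
    apply Finset.filter_congr
    intro u hu
    rw [Finset.mem_range] at hu
    unfold gedge
    rw [if_neg (by omega), if_neg (by omega), if_pos hu]
    unfold aB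
    rw [decide_eq_true_eq, show N + m + β - N - m = β by omega]
  have h2 : ((Finset.range m).filter
      (fun k => gedge M f N m (r * m) F d r (N + m + β) (N + k) = true)).card =
      ((Finset.range (m * d)).filter (fun P => P % (r * m) = β)).card := by
    rw [card_md m d r β hr hβ, ← card_iB_i m d r β hm]
    congr 1
    apply Finset.filter_congr
    intro k hk
    rw [Finset.mem_range] at hk
    unfold gedge
    rw [if_neg (by omega), if_neg (by omega), if_neg (by omega), if_pos (by omega)]
    rw [show N + m + β - N - m = β by omega, show N + k - N = k by omega]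
  have h3 : ((Finset.range (r * m)).filter
      (fun β' => gedge M f N m (r * m) F d r (N + m + β) (N + m + β') = true)).card =
      (r - 1) + partners (r * m) F β := by
    rw [← card_bB m r F β hm2 hF hβ]
    congr 1
    apply Finset.filter_congr
    intro β' _
    unfold gedge
    rw [if_neg (by omega), if_neg (by omega), if_neg (by omega), if_neg (by omega)]
    rw [show N + m + β - N - m = β by omega, show N + m + β' - N - m = β' by omega]
  rw [h1, h2, h3, ← card_full (r * m) s F β hβ hF hs]
  have e : s * (r * m) - F = m * d + pre f N := by omega
  rw [e]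
  have h4 : Finset.range (m * d + pre f N) =
      Finset.range (m * d) ∪ Finset.Ico (m * d) (m * d + pre f N) := by
    rw [Finset.range_eq_Ico, Finset.range_eq_Ico]
    exact (Finset.Ico_union_Ico_eq_Ico (by omega) (by omega)).symm
  rw [h4, Finset.filter_union, Finset.card_union_of_disjoint]
  · omega
  · apply Finset.disjoint_filter_filter
    rw [Finset.range_eq_Ico]
    exact Finset.Ico_disjoint_Ico_consecutive _ _ _

end Pool.Agent.H66.MB
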