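import Pool.Agent.H66.MB.GadDef

/-!
# Counting modulo `R` and modulo `m`

PROOFS.
`card_off_lt`: `β ↦ off R X β` is a bijection of `range R` (inverse `o ↦ (o + X) % R`).
`card_tokens`: for `L ≤ R` the interval `[X, X + L)` contains at most one `P` with `P % R = β`, namely
`X + off R X β`, and it is in the interval iff `off R X β < L`.
`sum_tokens`: induction on `N`; `[T, T + pre f (N + 1))` is the disjoint union of
`[T, T + pre f N)` and `[T + pre f N, T + pre f N + f N)`; `card_tokens`.
`card_full`: the number of `P < s R` with `P % R = β` is `s` (induction on `s`, or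
`Nat.count_modEq_card`), and among `s R - F ≤ P < s R` there is one with `P % R = β` iff
`R - F ≤ β` (`F ≤ R`, `1 ≤ s`).
`card_md`: `m d = (d / r) R + (d % r) m` with `R = r m`; the first `(d / r) R` numbers contribute `d / r`,
the others are `(d / r) R + β'` with `β' < (d % r) m ≤ R`; and `β < (d % r) m ↔ β / m < d % r`.
-/

set_option autoImplicit false

namespace Pool.Agent.H66.MB

private theorem gadidx_e (R X : ℕ) (hR : 0 < R) : X + (R - 1) * X = R * X := by
  obtain ⟨r, rfl⟩ : ∃ r, R = r + 1 := ⟨R - 1, by omega⟩
  rw [Nat.add_sub_cancel]; ring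

private theorem gadidx_iff (R X β k : ℕ) (hβ : β < R) (hk : k < R) :
    (X + k) % R = β ↔ k = off R X β := by
  have hR : 0 < R := by omega
  have e := gadidx_e R X hR
  constructor
  · intro h
    unfold off
    rw [← h, Nat.mod_add_mod, show X + k + (R - 1) * X = k + R * X by rw [← e]; ring,
      Nat.add_mul_mod_self_left, Nat.mod_eq_of_lt hk]
  · intro h
    subst h
    unfold off
    rw [Nat.add_mod_mod, show X + (β + (R - 1) * X) = β + R * X by rw [← e]; ring,
      Nat.add_mul_mod_self_left, Nat.mod_eq_of_lt hβ]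

private theorem gadidx_cnt (R β : ℕ) (hβ : β < R) (n : ℕ) :
    ((Finset.range n).filter (fun P => P % R = β)).card =
      n / R + (if β < n % R then 1 else 0) := by
  have hR : 0 < R := by omega
  have h := Nat.count_modEq_card n hR β
  rw [Nat.count_eq_card_filter_range] at h
  rw [Nat.mod_eq_of_lt hβ] at h
  rw [← h]
  congr 1
  apply Finset.filter_congr
  intro P _
  unfold Nat.ModEq
  rw [Nat.mod_eq_of_lt hβ]

theorem card_off_lt (R X L : ℕ) (hR : 0 < R) (hL : L ≤ R) :
    ((Finset.range R).filter (fun β => off R X β < L)).card = L := by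
  have e := gadidx_e R X hR
  have h1 : ((Finset.range R).filter (fun β => off R X β < L)).card = (Finset.range L).card := by
    refine Finset.card_nbij' (fun β => off R X β) (fun o => (X + o) % R) ?_ ?_ ?_ ?_
    · intro β hβ
      simp only [Finset.coe_filter, Finset.mem_range, Set.mem_ofPred_eq] at hβ
      simpa using hβ.2
    · intro o ho
      simp only [Finset.coe_range, Set.mem_Iio] at ho
      simp only [Finset.coe_filter, Finset.mem_range, Set.mem_ofPred_eq]
      have h2 : (X + o) % R < R := Nat.mod_lt _ hR
      refine ⟨h2, ?_⟩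
      have h3 := (gadidx_iff R X ((X + o) % R) o h2 (by omega)).mp rfl
      rw [← h3]; exact ho
    · intro β hβ
      simp only [Finset.coe_filter, Finset.mem_range, Set.mem_ofPred_eq] at hβ
      exact (gadidx_iff R X β (off R X β) hβ.1 (Nat.mod_lt _ hR)).mpr rfl
    · intro o ho
      simp only [Finset.coe_range, Set.mem_Iio] at ho
      have h2 : (X + o) % R < R := Nat.mod_lt _ hR
      exact ((gadidx_iff R X ((X + o) % R) o h2 (by omega)).mp rfl).symm
  rw [h1, Finset.card_range]

theorem card_tokens (R X L β : ℕ) (hβ : β < R) (hL : L ≤ R) :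
    ((Finset.Ico X (X + L)).filter (fun P => P % R = β)).card =
      if off R X β < L then 1 else 0 := by
  have hR : 0 < R := by omega
  split_ifs with h
  · rw [Finset.card_eq_one]
    refine ⟨X + off R X β, ?_⟩
    ext P
    simp only [Finset.mem_filter, Finset.mem_Ico, Finset.mem_singleton]
    constructor
    · rintro ⟨⟨h1, h2⟩, h3⟩
      obtain ⟨k, rfl⟩ := Nat.exists_eq_add_of_le h1
      rw [(gadidx_iff R X β k hβ (by omega)).mp h3]
    · intro h1
      subst h1
      exact ⟨⟨by omega, by omega⟩,
        (gadidx_iff R X β (off R X β) hβ (Nat.mod_lt _ hR)).mpr rfl⟩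
  · rw [Finset.card_eq_zero, Finset.filter_eq_empty_iff]
    intro P hP h3
    rw [Finset.mem_Ico] at hP
    obtain ⟨k, rfl⟩ := Nat.exists_eq_add_of_le hP.1
    have h4 := (gadidx_iff R X β k hβ (by omega)).mp h3
    omega

theorem sum_tokens (f : ℕ → ℕ) (R T β N : ℕ) (hβ : β < R) (hf : ∀ a, f a ≤ R) :
    ((Finset.range N).filter (fun a => off R (T + pre f a) β < f a)).card =
      ((Finset.Ico T (T + pre f N)).filter (fun P => P % R = β)).card := by
  induction N with
  | zero => simp [pre]
  | succ N ih =>
    have e1 : pre f (N + 1) = pre f N + f N := by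
      unfold pre; rw [Finset.sum_range_succ]
    rw [e1, Finset.range_add_one, Finset.filter_insert]
    have h1 : Finset.Ico T (T + (pre f N + f N)) =
        Finset.Ico T (T + pre f N) ∪ Finset.Ico (T + pre f N) (T + pre f N + f N) := by
      rw [← Nat.add_assoc]
      exact (Finset.Ico_union_Ico_eq_Ico (by omega) (by omega)).symm
    rw [h1, Finset.filter_union, Finset.card_union_of_disjoint, ← ih,
      card_tokens R (T + pre f N) (f N) β hβ (hf N)]
    · split_ifs with h
      · rw [Finset.card_insert_of_notMem]
        simp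
      · simp
    · apply Finset.disjoint_filter_filter
      exact Finset.Ico_disjoint_Ico_consecutive _ _ _

theorem card_full (R s F β : ℕ) (hβ : β < R) (hF : F ≤ R) (hs : 1 ≤ s) :
    ((Finset.range (s * R - F)).filter (fun P => P % R = β)).card =
      s - (if R - F ≤ β then 1 else 0) := by
  rw [gadidx_cnt R β hβ]
  have hR : 0 < R := by omega
  obtain ⟨t, rfl⟩ : ∃ t, s = t + 1 := ⟨s - 1, by omega⟩
  rcases Nat.eq_zero_or_pos F with h0 | h0
  · subst h0
    have h1 : ((t + 1) * R - 0) / R = t + 1 := by
      rw [Nat.sub_zero, Nat.mul_div_cancel _ hR]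
    have h2 : ((t + 1) * R - 0) % R = 0 := by
      rw [Nat.sub_zero, Nat.mul_mod_left]
    rw [h1, h2, if_neg (by omega), if_neg (by omega)]; omega
  · have h3 : (t + 1) * R - F = (R - F) + R * t := by
      have : (t + 1) * R = R + R * t := by ring
      rw [this]; omega
    have h1 : ((t + 1) * R - F) / R = t := by
      rw [h3, Nat.add_mul_div_left _ _ hR, Nat.div_eq_of_lt (by omega), Nat.zero_add]
    have h2 : ((t + 1) * R - F) % R = R - F := by
      rw [h3, Nat.add_mul_mod_self_left, Nat.mod_eq_of_lt (by omega)]
    rw [h1, h2]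
    split_ifs <;> omega

theorem card_md (m d r β : ℕ) (hr : 0 < r) (hβ : β < r * m) :
    ((Finset.range (m * d)).filter (fun P => P % (r * m) = β)).card =
      d / r + (if β / m < d % r then 1 else 0) := by
  rw [gadidx_cnt (r * m) β hβ]
  have hm : 0 < m := by
    rcases Nat.eq_zero_or_pos m with h | h
    · subst h; simp at hβ
    · exact h
  have h1 : m * d / (r * m) = d / r := by
    rw [Nat.mul_comm r m, Nat.mul_div_mul_left _ _ hm]
  have h2 : m * d % (r * m) = m * (d % r) := by
    rw [Nat.mul_comm r m, Nat.mul_mod_mul_left]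
  have h3 : β < m * (d % r) ↔ β / m < d % r := by
    rw [Nat.div_lt_iff_lt_mul hm, Nat.mul_comm]
  rw [h1, h2]
  simp only [h3]

end Pool.Agent.H66.MB
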