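import Pool.Agent.H66.MB.GadDeg

/-!
# The parameters of the gadget

Assumptions: `D < d ≤ Δ`, `r` odd, `3 ≤ r < d`, `M` valid with all degrees `≤ D`. Put
`w = cap d Δ r`, `s = Δ + 1 - r`, `N = gN`, `T = pre (dfc M d) N`, `m = gm`, `F = gF`.

PROOFS.
`cap_pos`: `(Δ + 1 - r) r ≥ (d + 1 - r) r = d + (r - 1) (d - r) > d`.
`le_gN`: clear. `gN_even`: both arguments of the maximum are even.
`le_pre`: `dfc M d a ≥ 1` for every `a` (degrees at most `D < d`; for `a ≥ M.length` the degree is
`0`), so `T ≥ N`. `pre_le`: `dfc M d a ≤ d`, so `T ≤ N d`.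
`gm_ge`: `m w ≥ T ≥ N ≥ 2 w (w + d)`, so `m ≥ w + d`.
`gF_lt`: `m = ⌈T / w⌉` gives `T ≤ m w < T + w`, so `F + T = m w` and `F < w`.
`gm_tot`: `m d + T + F = m d + m w = m (s r) = s (r m)` (as `w = s r - d`, `d ≤ s r`).
`gF_even`: for `Δ = d`: `w = (d + 1 - r) r - d = (r - 1) (d - r)` is even; `T = N d - ∑ degrees` and the sum
of the degrees is even (handshake: `∑_{i<n} ∑_{j<n} [adj i j]` with `adj` symmetric and
irreflexive; pair `(i,j)` with `(j,i)`), `N` is even; so `F = m w - T` is even.
-/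

set_option autoImplicit false

namespace Pool.Agent.H66.MB

private theorem cap_aux {d Δ r : ℕ} (h1 : d ≤ Δ) (h3 : 3 ≤ r) (hr : r < d) :
    d < (Δ + 1 - r) * r := by
  obtain ⟨k, rfl⟩ : ∃ k, d = r + k + 1 := ⟨d - r - 1, by omega⟩
  have h2 : k + 2 ≤ Δ + 1 - r := by omega
  have h4 : (k + 2) * r ≤ (Δ + 1 - r) * r := Nat.mul_le_mul_right r h2
  nlinarith

theorem cap_pos {d Δ r : ℕ} (h1 : d ≤ Δ) (h3 : 3 ≤ r) (hr : r < d) : 0 < cap d Δ r := by
  have := cap_aux h1 h3 hr
  unfold cap
  omega

theorem cap_add {d Δ r : ℕ} (h1 : d ≤ Δ) (h3 : 3 ≤ r) (hr : r < d) :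
    cap d Δ r + d = (Δ + 1 - r) * r := by
  have := cap_aux h1 h3 hr
  unfold cap
  omega

theorem le_gN (d Δ r : ℕ) (M : Mat) : M.length ≤ gN d Δ r M := by
  unfold gN
  exact le_max_of_le_left (Nat.le_add_right _ _)

theorem gN_even (d Δ r : ℕ) (M : Mat) : Even (gN d Δ r M) := by
  unfold gN
  rcases max_choice (M.length + M.length % 2) (2 * (cap d Δ r * (cap d Δ r + d))) with h | h
  · rw [h, Nat.even_iff]
    omega
  · rw [h]
    exact even_two_mul _

theorem gN_le (d Δ r : ℕ) (M : Mat) :
    gN d Δ r M ≤ M.length + 1 + 2 * (cap d Δ r * (cap d Δ r + d)) := by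
  unfold gN
  apply max_le
  · omega
  · omega

theorem dfc_le (M : Mat) (d a : ℕ) : dfc M d a ≤ d := by
  unfold dfc
  exact Nat.sub_le _ _

theorem pre_le (M : Mat) (d N : ℕ) : pre (dfc M d) N ≤ N * d := by
  unfold pre
  calc ∑ i ∈ Finset.range N, dfc M d i ≤ ∑ _i ∈ Finset.range N, d :=
        Finset.sum_le_sum fun i _ => dfc_le M d i
    _ = N * d := by simp

private theorem dg_zero {M : Mat} (hM : Valid M) {a : ℕ} (ha : M.length ≤ a) (C : List ℕ) :
    dg M C a = 0 := by
  unfold dg
  rw [List.length_eq_zero_iff, List.filter_eq_nil_iff]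
  intro u _ hu
  have := (adj_lt hM hu).1
  omega

theorem le_pre {M : Mat} (hM : Valid M) {D d : ℕ} (hD : DegLe M D) (h : D < d) (N : ℕ) :
    N ≤ pre (dfc M d) N := by
  unfold pre
  calc N = ∑ _i ∈ Finset.range N, 1 := by simp
    _ ≤ ∑ i ∈ Finset.range N, dfc M d i := by
        refine Finset.sum_le_sum fun i _ => ?_
        unfold dfc
        by_cases hi : i < M.length
        · have := hD i hi
          omega
        · rw [dg_zero hM (by omega)]
          omega

theorem gF_add {M : Mat} {d Δ r : ℕ} (h1 : d ≤ Δ) (h3 : 3 ≤ r) (hr : r < d) :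
    gF d Δ r M + pre (dfc M d) (gN d Δ r M) = gm d Δ r M * cap d Δ r ∧
      gF d Δ r M < cap d Δ r := by
  have hw := cap_pos h1 h3 hr
  unfold gF gm
  set w := cap d Δ r with hwd
  set T := pre (dfc M d) (gN d Δ r M) with hT
  have h4 := Nat.div_add_mod (T + w - 1) w
  have h5 := Nat.mod_lt (T + w - 1) hw
  have h6 : w * ((T + w - 1) / w) = (T + w - 1) / w * w := Nat.mul_comm _ _
  omega

theorem gm_ge {M : Mat} (hM : Valid M) {D d Δ r : ℕ} (hD : DegLe M D) (h : D < d) (h1 : d ≤ Δ)
    (h3 : 3 ≤ r) (hr : r < d) : cap d Δ r + d ≤ gm d Δ r M := by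
  have hw := cap_pos h1 h3 hr
  have h4 := (gF_add (M := M) h1 h3 hr).1
  have h5 := le_pre hM hD h (gN d Δ r M)
  have h6 : 2 * (cap d Δ r * (cap d Δ r + d)) ≤ gN d Δ r M := by
    conv_rhs => unfold gN
    exact le_max_right _ _
  have h7 : cap d Δ r * (cap d Δ r + d) ≤ cap d Δ r * gm d Δ r M := by
    rw [Nat.mul_comm (cap d Δ r) (gm d Δ r M)]
    omega
  exact Nat.le_of_mul_le_mul_left h7 hw

theorem gm_tot {M : Mat} {d Δ r : ℕ} (h1 : d ≤ Δ) (h3 : 3 ≤ r) (hr : r < d) :
    gm d Δ r M * d + pre (dfc M d) (gN d Δ r M) + gF d Δ r M =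
      (Δ + 1 - r) * (r * gm d Δ r M) := by
  have h4 := (gF_add (M := M) h1 h3 hr).1
  have h5 := cap_add h1 h3 hr
  calc gm d Δ r M * d + pre (dfc M d) (gN d Δ r M) + gF d Δ r M
      = gm d Δ r M * d + (gF d Δ r M + pre (dfc M d) (gN d Δ r M)) := by ring
    _ = gm d Δ r M * (cap d Δ r + d) := by rw [h4]; ring
    _ = (Δ + 1 - r) * (r * gm d Δ r M) := by rw [h5]; ring

private theorem dg_range_succ (M : Mat) (n v : ℕ) :
    dg M (List.range (n + 1)) v = dg M (List.range n) v + (if adj M v n = true then 1 else 0) := by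
  unfold dg
  rw [List.range_succ, List.filter_append, List.length_append]
  congr 1
  by_cases h : adj M v n = true
  · simp [h]
  · simp [h]

private theorem dg_eq_sum (M : Mat) (n v : ℕ) :
    dg M (List.range n) v = ∑ i ∈ Finset.range n, (if adj M v i = true then 1 else 0) := by
  induction n with
  | zero => simp [dg]
  | succ n ih => rw [dg_range_succ, ih, Finset.sum_range_succ]

/-- handshake -/
theorem even_sum_dg {M : Mat} (hM : Valid M) (n : ℕ) :
    Even (∑ i ∈ Finset.range n, dg M (List.range n) i) := by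
  induction n with
  | zero => simp
  | succ n ih =>
    have h1 : ∑ i ∈ Finset.range (n + 1), dg M (List.range (n + 1)) i =
        ∑ i ∈ Finset.range n, dg M (List.range n) i + 2 * dg M (List.range n) n := by
      rw [Finset.sum_range_succ, Finset.sum_congr rfl (fun i _ => dg_range_succ M n i),
        Finset.sum_add_distrib, dg_range_succ, hM.2.2 n, dg_eq_sum M n n]
      have h2 : ∑ i ∈ Finset.range n, (if adj M i n = true then 1 else 0) =
          ∑ i ∈ Finset.range n, (if adj M n i = true then 1 else 0) :=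
        Finset.sum_congr rfl fun i _ => by rw [hM.2.1 i n]
      rw [h2]
      simp
      ring
    rw [h1]
    exact ih.add (even_two_mul _)

theorem gF_even {M : Mat} (hM : Valid M) {D d r : ℕ} (hD : DegLe M D) (h : D < d)
    (h3 : 3 ≤ r) (hr : r < d) (hodd : Odd r) : Even (gF d d r M) := by
  have h4 := (gF_add (M := M) (le_refl d) h3 hr).1
  have hw : Even (cap d d r) := by
    have h5 := cap_add (le_refl d) h3 hr
    obtain ⟨k, rfl⟩ : ∃ k, d = r + k := ⟨d - r, by omega⟩
    obtain ⟨l, rfl⟩ := hodd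
    have h6 : 2 * l + 1 + k + 1 - (2 * l + 1) = k + 1 := by omega
    rw [h6] at h5
    have h7 : cap (2 * l + 1 + k) (2 * l + 1 + k) (2 * l + 1) = 2 * (l * k) := by
      have h8 : (k + 1) * (2 * l + 1) = 2 * (l * k) + (2 * l + 1 + k) := by ring
      omega
    rw [h7]
    exact even_two_mul _
  set N := gN d d r M with hN
  have hNle : M.length ≤ N := le_gN d d r M
  have hsum : ∑ a ∈ Finset.range N, dg M (List.range M.length) a =
      ∑ a ∈ Finset.range M.length, dg M (List.range M.length) a := by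
    symm
    refine Finset.sum_subset (fun a ha => ?_) (fun a _ ha => ?_)
    · rw [Finset.mem_range] at ha ⊢
      omega
    · rw [Finset.mem_range] at ha
      exact dg_zero hM (by omega) _
  have hT : pre (dfc M d) N + ∑ a ∈ Finset.range N, dg M (List.range M.length) a = N * d := by
    unfold pre
    rw [← Finset.sum_add_distrib]
    calc ∑ a ∈ Finset.range N, (dfc M d a + dg M (List.range M.length) a)
        = ∑ _a ∈ Finset.range N, d := by
          refine Finset.sum_congr rfl fun a _ => ?_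
          unfold dfc
          by_cases ha : a < M.length
          · have := hD a ha
            omega
          · rw [dg_zero hM (by omega)]
            omega
      _ = N * d := by simp
  have hTe : Even (pre (dfc M d) N) := by
    have h5 : Even (N * d) := (gN_even d d r M).mul_right d
    rw [← hT, hsum] at h5
    exact (Nat.even_add.1 h5).2 (even_sum_dg hM M.length)
  have h6 : Even (gF d d r M + pre (dfc M d) N) := by
    rw [h4]
    exact hw.mul_left _
  exact (Nat.even_add.1 h6).2 hTe

end Pool.Agent.H66.MB
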