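import Pool.Agent.H66.MB.LimX

/-!
# The limit (plain real analysis)

PROOF of `lim`. Let `e = κ / (κ + 1)`, so `0 < e < 1` and `1 / e = (κ + 1) / κ`.

Upper bound: let `δ > 0`. Choose `η > 0` with `(1 + η) c ^ e < c ^ e + δ / 2`, and `D` with
`(1 + η) ^ (D + 1) + 1 ≤ (1 + η) ^ (D + 2)` (`exists_pow`). For `d > D`,
`u d ≤ (1 + η) c ^ (xx κ D d)`, which tends to `(1 + η) c ^ e` (`lim_x`, continuity of
`x ↦ c ^ x`, `c > 0`). So eventually `u d < c ^ e + δ`.

Lower bound: if `c = 1` then `c ^ e = 1 ≤ u d`. Let `c > 1` and `δ > 0`. As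
`c ^ (1 / y) → c ^ e` for `y → (κ + 1) / κ`, `lim_r` gives an odd `r ≥ 3` with
`c ^ (1 / y_r) > c ^ e - δ / 2`, `y_r = 1 + (r + 1) / (κ r - 1)`. Take `ρ` with `1 < ρ < c`
(`ρ = (1 + c) / 2`) and `D` from `exists_pow` with `η = ρ - 1`. For `d > max D r`:
`c ≤ max ρ (u d ^ (yy κ r d))` and `ρ < c`, so `c ≤ u d ^ (yy κ r d)` and
`u d ≥ c ^ (1 / yy κ r d)` (`yy κ r d > 0` eventually, as its limit `y_r` is positive), which tends to
`c ^ (1 / y_r)` by `lim_y`. So eventually `u d > c ^ e - δ`.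
-/

set_option autoImplicit false

namespace Pool.Agent.H66.MB

open Filter Topology

theorem lim (κ : ℝ) (hκ : 1 ≤ κ) (c : ℝ) (hc : 1 ≤ c) (u : ℕ → ℝ) (hu : ∀ d, 1 ≤ u d)
    (hup : ∀ (ρ : ℝ) (D d : ℕ), 1 ≤ ρ → ρ ^ (D + 1) + 1 ≤ ρ ^ (D + 2) → D < d →
      u d ≤ ρ * c ^ xx κ D d)
    (hlow : ∀ (ρ : ℝ) (D r d : ℕ), 1 ≤ ρ → ρ ^ (D + 1) + 1 ≤ ρ ^ (D + 2) → D < d → 3 ≤ r →
      Odd r → r < d → c ≤ max ρ (u d ^ yy κ r d)) :
    Tendsto u atTop (𝓝 (c ^ (κ / (κ + 1)))) := by
  have hc0 : 0 < c := by linarith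
  have hκ0 : 0 < κ := by linarith
  set L : ℝ := c ^ (κ / (κ + 1)) with hL
  have hL0 : 0 < L := Real.rpow_pos_of_pos hc0 _
  rw [tendsto_order]
  constructor
  · intro a ha
    rcases eq_or_lt_of_le hc with h1 | h1
    · have hL1 : L = 1 := by rw [hL, ← h1, Real.one_rpow]
      filter_upwards with d
      have := hu d
      linarith
    · -- an odd number
      have hlim1 : Tendsto (fun k : ℕ => c ^ (1 / (1 + ((2 * k + 3 : ℝ) + 1) /
          (κ * (2 * k + 3) - 1)))) atTop (𝓝 (c ^ (1 / ((κ + 1) / κ)))) := by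
        have h2 : Tendsto (fun k : ℕ => 1 / (1 + ((2 * k + 3 : ℝ) + 1) /
            (κ * (2 * k + 3) - 1))) atTop (𝓝 (1 / ((κ + 1) / κ))) := by
          apply Tendsto.div tendsto_const_nhds (lim_r κ hκ)
          positivity
        exact (Real.continuousAt_const_rpow hc0.ne').tendsto.comp h2
      have hLe : c ^ (1 / ((κ + 1) / κ)) = L := by
        rw [hL, one_div_div]
      rw [hLe] at hlim1
      obtain ⟨k, hk⟩ := ((tendsto_order.mp hlim1).1 a ha).exists
      set r : ℕ := 2 * k + 3 with hr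
      have hrR : (r : ℝ) = 2 * k + 3 := by rw [hr]; push_cast; ring
      have hr3 : 3 ≤ r := by omega
      have hrodd : Odd r := ⟨k + 1, by omega⟩
      rw [← hrR] at hk
      have hden : 0 < κ * r - 1 := by
        have : (3 : ℝ) ≤ r := by exact_mod_cast hr3
        nlinarith
      have hy0 : 0 < 1 + ((r : ℝ) + 1) / (κ * r - 1) := by positivity
      have hly := lim_y κ hκ r hr3
      have hlim2 : Tendsto (fun d : ℕ => c ^ (1 / yy κ r d)) atTop
          (𝓝 (c ^ (1 / (1 + ((r : ℝ) + 1) / (κ * r - 1))))) := by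
        have h2 : Tendsto (fun d : ℕ => 1 / yy κ r d) atTop
            (𝓝 (1 / (1 + ((r : ℝ) + 1) / (κ * r - 1)))) :=
          Tendsto.div tendsto_const_nhds hly hy0.ne'
        exact (Real.continuousAt_const_rpow hc0.ne').tendsto.comp h2
      have hρ : 1 < (1 + c) / 2 := by linarith
      have hρc : (1 + c) / 2 < c := by linarith
      obtain ⟨D, hD⟩ := exists_pow ((1 + c) / 2 - 1) (by linarith)
      have hD' : ((1 + c) / 2) ^ (D + 1) + 1 ≤ ((1 + c) / 2) ^ (D + 2) := by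
        have h3 : 1 + ((1 + c) / 2 - 1) = (1 + c) / 2 := by ring
        rwa [h3] at hD
      filter_upwards [(tendsto_order.mp hlim2).1 a hk, (tendsto_order.mp hly).1 0 hy0,
        eventually_gt_atTop D, eventually_gt_atTop r] with d h2 h3 h4 h5
      have h6 := hlow _ D r d hρ.le hD' h4 hr3 hrodd h5
      have h7 : c ≤ u d ^ yy κ r d := by
        rcases le_max_iff.mp h6 with h | h
        · linarith
        · exact h
      have hu0 : 0 ≤ u d := le_trans zero_le_one (hu d)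
      have h8 : c ^ (1 / yy κ r d) ≤ u d := by
        calc c ^ (1 / yy κ r d) ≤ (u d ^ yy κ r d) ^ (1 / yy κ r d) :=
              Real.rpow_le_rpow hc0.le h7 (by positivity)
          _ = u d := by rw [← Real.rpow_mul hu0, mul_one_div_cancel h3.ne', Real.rpow_one]
      linarith
  · intro a ha
    have hη : 0 < (a / L - 1) / 2 := by
      have : 1 < a / L := by rwa [one_lt_div hL0]
      linarith
    set η : ℝ := (a / L - 1) / 2 with hηd
    have h1 : (1 + η) * L < a := by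
      have h2 : (1 + η) < a / L := by
        rw [hηd]
        linarith
      rwa [lt_div_iff₀ hL0] at h2
    obtain ⟨D, hD⟩ := exists_pow η hη
    have hlim : Tendsto (fun d : ℕ => (1 + η) * c ^ xx κ D d) atTop (𝓝 ((1 + η) * L)) := by
      apply Tendsto.const_mul
      exact (Real.continuousAt_const_rpow hc0.ne').tendsto.comp (lim_x κ hκ D)
    filter_upwards [(tendsto_order.mp hlim).2 a h1, eventually_gt_atTop D] with d h2 h3
    exact lt_of_le_of_lt (hup (1 + η) D d (by linarith) hD h3) h2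

end Pool.Agent.H66.MB
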