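import Pool.Agent.H66.MB.Defs

/-!
# Iterating a program until it signals the end

`B` turns `enc s` into `enc (Sum.inl s')` (continue with `s'`) or into `enc (Sum.inr o)` (stop with
the result `o`). Recall `enc (Sum.inl s) = false :: enc s` and `enc (Sum.inr o) = true :: enc o`.

PROOF of `loop_spec`. `L = seq B (seq (loop 0 ff (seq (pop 0) B)) (pop 0))`, where `ff` tests whether
the top is `false` (`Pool.Agent.H80.Poly.ff` in `Nat.lean`; or use `fun o => o == some false`).
Put `W = loop 0 ff (seq (pop 0) B)`. Show by induction on `Steps B s s' T` that, if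
`Ex B (ini (enc s')) (ini (enc (Sum.inr o))) t`, then
`∃ t1 < T + t + 2 , ...`; a convenient form is:
for every `s`, `∃ t0 u, Ex B (ini (enc s)) (ini y) t0 ∧ Ex W (ini y) (ini (true :: enc o)) u ∧
t0 + u = T + t + 1` (with `y = enc (Sum.inl _)` or `enc (Sum.inr o)`).
`pop_ini` is in `Comb.lean`. A step costs the `t` of `B`, 1 for the test and 1 for the pop.
-/

set_option autoImplicit false

namespace Pool.Agent.H66.MB

open Pool.Agent.H80.Poly

/-- `Steps ω B s s' T`: iterating `B` leads from `s` to `s'` with cost `T` (each iteration is charged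
the cost of `B` plus 2). -/
inductive Steps {σ : Type} (ω : Type) [BEnc σ] [BEnc ω] (B : Prog) : σ → σ → ℕ → Prop
  | refl (s : σ) : Steps ω B s s 0
  | step {s s' s'' : σ} {t T : ℕ} :
      Ex B (ini (enc s)) (ini (enc (Sum.inl s' : σ ⊕ ω))) t → Steps ω B s' s'' T →
      Steps ω B s s'' (t + 2 + T)

theorem Steps.trans {σ ω : Type} [BEnc σ] [BEnc ω] {B : Prog} {s s' s'' : σ} {T T' : ℕ}
    (h : Steps ω B s s' T) (h' : Steps ω B s' s'' T') : Steps ω B s s'' (T + T') := by
  induction h with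
  | refl s => simpa using h'
  | step h1 _ ih =>
    have h3 := Steps.step h1 (ih h')
    rwa [← add_assoc] at h3

private theorem loop_aux {σ ω : Type} [BEnc σ] [BEnc ω] (B : Prog) {s s' : σ} {T : ℕ}
    (h : Steps ω B s s' T) (o : ω) (t : ℕ)
    (ht : Ex B (ini (enc s')) (ini (enc (Sum.inr o : σ ⊕ ω))) t) :
    ∃ (y : List Bool) (t0 u : ℕ), Ex B (ini (enc s)) (ini y) t0 ∧
      Ex (Prog.loop 0 ff (Prog.seq (Prog.pop 0) B)) (ini y) (ini (true :: enc o)) u ∧
      t0 + u = T + t + 1 := by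
  induction h with
  | refl s => exact ⟨_, t, 1, ht, Ex.loopF rfl, by omega⟩
  | @step s s1 s2 t1 T h1 _ ih =>
    obtain ⟨y, t0, u, h2, h3, h4⟩ := ih ht
    refine ⟨_, t1, (1 + t0) + u + 1, h1, ?_, by omega⟩
    exact Ex.loopT rfl (Ex.seq (pop_ini false (enc s1)) h2) h3

theorem loop_spec {σ ω : Type} [BEnc σ] [BEnc ω] (B : Prog) : ∃ L : Prog,
    ∀ (s s' : σ) (o : ω) (T t : ℕ), Steps ω B s s' T →
      Ex B (ini (enc s')) (ini (enc (Sum.inr o : σ ⊕ ω))) t →
      Ex L (ini (enc s)) (ini (enc o)) (T + t + 2) := by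
  refine ⟨Prog.seq B (Prog.seq (Prog.loop 0 ff (Prog.seq (Prog.pop 0) B)) (Prog.pop 0)), ?_⟩
  intro s s' o T t h ht
  obtain ⟨y, t0, u, h2, h3, h4⟩ := loop_aux B h o t ht
  have h5 := Ex.seq h2 (Ex.seq h3 (pop_ini true (enc o)))
  have e : t0 + (u + 1) = T + t + 2 := by omega
  rwa [e] at h5

end Pool.Agent.H66.MB
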