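import Pool.Agent.H66.MB.Defs

/-!
# Basic facts about matrices given as lists of rows
-/

set_option autoImplicit false

namespace Pool.Agent.H66.MB

open Pool.Agent.H80.Poly

theorem mk_length (n : ℕ) (f : ℕ → ℕ → Bool) : (mk n f).length = n := by
  simp [mk]

theorem adj_mk (n : ℕ) (f : ℕ → ℕ → Bool) (i j : ℕ) :
    adj (mk n f) i j = (decide (i < n) && decide (j < n) && f i j) := by
  unfold adj mk
  by_cases hi : i < n
  · by_cases hj : j < n
    · simp [List.getD_eq_getElem?_getD, hi, hj]
    · simp [List.getD_eq_getElem?_getD, hi, hj]
  · simp [List.getD_eq_getElem?_getD, hi]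

/-- entries outside of the matrix are false -/
theorem adj_lt {M : Mat} (hM : Valid M) {i j : ℕ} (h : adj M i j = true) :
    i < M.length ∧ j < M.length := by
  have key : ∀ i j : ℕ, adj M i j = true → i < M.length := by
    intro i j h
    by_contra hi
    unfold adj at h
    rw [List.getD_eq_getElem?_getD, List.getD_eq_getElem?_getD] at h
    rw [List.getElem?_eq_none (l := M) (by omega)] at h
    simp at h
  refine ⟨key i j h, key j i ?_⟩
  rw [← hM.2.1]
  exact h

theorem valid_mk (n : ℕ) (f : ℕ → ℕ → Bool) (hs : ∀ i < n, ∀ j < n, f i j = f j i)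
    (hi : ∀ i < n, f i i = false) : Valid (mk n f) := by
  refine ⟨?_, ?_, ?_⟩
  · intro r hr
    rw [mk_length]
    simp only [mk, List.mem_map, List.mem_range] at hr
    obtain ⟨i, _, rfl⟩ := hr
    simp
  · intro i j
    rw [adj_mk, adj_mk]
    by_cases h1 : i < n
    · by_cases h2 : j < n
      · simp [h1, h2, hs i h1 j h2]
      · simp [h2]
    · simp [h1]
  · intro i
    rw [adj_mk]
    by_cases h1 : i < n
    · simp [hi i h1]
    · simp [h1]

theorem mk_self {M : Mat} (hM : Valid M) : mk M.length (adj M) = M := by
  apply List.ext_getElem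
  · rw [mk_length]
  · intro i h1 h2
    simp only [mk, List.getElem_map, List.getElem_range]
    apply List.ext_getElem
    · simp [hM.1 _ (List.getElem_mem h2)]
    · intro j h3 h4
      simp only [List.getElem_map, List.getElem_range]
      unfold adj
      rw [List.getD_eq_getElem?_getD, List.getD_eq_getElem?_getD]
      simp [List.getElem?_eq_getElem h2, List.getElem?_eq_getElem h4]

theorem sub_length (M : Mat) (C : List ℕ) : (sub M C).length = C.length := by
  simp [sub]

theorem adj_sub (M : Mat) (C : List ℕ) {i j : ℕ} (hi : i < C.length) (hj : j < C.length) :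
    adj (sub M C) i j = adj M C[i] C[j] := by
  have : ∀ X : Mat, adj X i j = (X.getD i []).getD j false := fun _ => rfl
  rw [this (sub M C)]
  simp [sub, List.getD_eq_getElem?_getD, List.getElem?_eq_getElem hi, List.getElem?_eq_getElem hj]

theorem valid_sub {M : Mat} (hM : Valid M) (C : List ℕ) : Valid (sub M C) := by
  have hout1 : ∀ i j : ℕ, ¬ i < C.length → adj (sub M C) i j = false := by
    intro i j hi
    unfold adj
    rw [List.getD_eq_getElem?_getD, List.getD_eq_getElem?_getD,
      List.getElem?_eq_none (l := sub M C) (by rw [sub_length]; omega)]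
    simp
  have hout2 : ∀ i j : ℕ, i < C.length → ¬ j < C.length → adj (sub M C) i j = false := by
    intro i j hi hj
    have : ∀ X : Mat, adj X i j = (X.getD i []).getD j false := fun _ => rfl
    rw [this (sub M C)]
    simp [sub, List.getD_eq_getElem?_getD, List.getElem?_eq_getElem hi,
      List.getElem?_eq_none (not_lt.mp hj)]
  refine ⟨?_, ?_, ?_⟩
  · intro r hr
    rw [sub_length]
    simp only [sub, List.mem_map] at hr
    obtain ⟨i, _, rfl⟩ := hr
    simp
  · intro i j
    by_cases h1 : i < C.length
    · by_cases h2 : j < C.length
      · rw [adj_sub M C h1 h2, adj_sub M C h2 h1]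
        exact hM.2.1 _ _
      · rw [hout2 i j h1 h2, hout1 j i h2]
    · by_cases h2 : j < C.length
      · rw [hout1 i j h1, hout2 j i h2 h1]
      · rw [hout1 i j h1, hout1 j i h2]
  · intro i
    by_cases h1 : i < C.length
    · rw [adj_sub M C h1 h1]
      exact hM.2.2 _
    · exact hout1 i i h1

/-- degrees in the submatrix -/
theorem dg_sub (M : Mat) (C : List ℕ) {i : ℕ} (hi : i < C.length) :
    dg (sub M C) (List.range C.length) i = dg M C C[i] := by
  unfold dg
  have h1 : C = (List.range C.length).map (fun j => C.getD j 0) := by
    apply List.ext_getElem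
    · simp
    · intro k h1 h2
      simp [List.getD_eq_getElem?_getD, List.getElem?_eq_getElem h1]
  generalize hv : C[i] = v
  have h2 : (List.filter (fun u => adj M v u) C).length
      = (List.filter (fun u => adj M v u) ((List.range C.length).map (fun j => C.getD j 0))).length := by
    rw [← h1]
  rw [h2, List.filter_map, List.length_map]
  subst hv
  congr 1
  apply List.filter_congr
  intro j hj
  rw [List.mem_range] at hj
  rw [adj_sub M C hi hj]
  simp [List.getD_eq_getElem?_getD, List.getElem?_eq_getElem hj]

/-- the degree in `mk n f` as a cardinality -/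
theorem dg_mk (n : ℕ) (f : ℕ → ℕ → Bool) (v : ℕ) (hv : v < n) :
    dg (mk n f) (List.range n) v = ((Finset.range n).filter (fun u => f v u = true)).card := by
  unfold dg
  have h1 : (List.range n).filter (fun u => adj (mk n f) v u)
      = (List.range n).filter (fun u => f v u) := by
    apply List.filter_congr
    intro u hu
    rw [List.mem_range] at hu
    rw [adj_mk]
    simp [hv, hu]
  rw [h1]
  rw [← List.toFinset_card_of_nodup (List.nodup_range.filter _)]
  congr 1
  ext u
  simp

/-- a vector with a single `false` pattern: independent sets of smaller size give the bound on the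
length of a maximum vector -/
theorem maxV_length {M : Mat} {b : List Bool} (h : MaxV M b) : b.length = M.length := h.1

end Pool.Agent.H66.MB
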