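import Pool.Agent.H66.MB.BrDef

/-!
# Leaves and branchings

PROOF of `pick_spec`. `C.zip b` for lists of equal length; by induction on `C` (or with indices):
`pick C b` is a sublist of `C` (so `Nodup`), its length is `b.count true`, and its elements are the
`C[i]` with `b[i] = true`. Independence in `M` follows from `IndV (sub M C) b` and `adj_sub`.
For the maximality take a finite set `J` of elements of `C` which is independent, and let `b'` be
`C.map (fun u => decide (u ∈ J))`; then `b'.length = (sub M C).length`, `IndV (sub M C) b'`
(`adj_sub`; indices beyond the length have `getD = false`), and `b'.count true = J.card` as `C` has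
no repetitions and contains `J`.

PROOF of `leaf_ok`, `leaf_max`: clear from `pick_spec` and the definition of `better`.
PROOF of `del_ok`, `nbr_ok`: filters; `v :: I` is independent as `v` is not adjacent to the elements
of `I` (third clause of `OkI`, with `adj` symmetric by `Valid`) and not adjacent to the
elements of `nbr M v C`.
PROOF of `del_length`: exactly one element is removed (`C` has no repetitions, `v ∈ C`).
PROOF of `nbr_length`: `v` and its more than `D` neighbours in `C` are removed
(`adj M v v = false`).
PROOF of `branch_max`: if `v ∉ J` then `J ⊆ C \ v`, otherwise `J.erase v ⊆ nbr M v C`.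
-/

set_option autoImplicit false

namespace Pool.Agent.H66.MB

open Pool.Agent.H80.Poly

private theorem pick_cons (c : ℕ) (C : List ℕ) (x : Bool) (b : List Bool) :
    pick (c :: C) (x :: b) = if x = true then c :: pick C b else pick C b := by
  unfold pick
  rw [List.zip_cons_cons, List.filter_cons]
  cases x <;> simp

private theorem pick_length (C : List ℕ) (b : List Bool) (h : b.length = C.length) :
    (pick C b).length = b.count true := by
  induction C generalizing b with
  | nil =>
    rw [List.length_nil, List.length_eq_zero_iff] at h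
    subst h
    simp [pick]
  | cons c C ih =>
    cases b with
    | nil => simp at h
    | cons x b =>
      rw [pick_cons, List.count_cons]
      have h' : b.length = C.length := by simpa using h
      cases x
      · simpa using ih b h'
      · simpa using ih b h'

private theorem mem_pick {C : List ℕ} {b : List Bool} {x : ℕ} (h : x ∈ pick C b) :
    ∃ (i : ℕ) (hi : i < C.length), C[i] = x ∧ b.getD i false = true := by
  unfold pick at h
  rw [List.mem_map] at h
  obtain ⟨⟨c, t⟩, h1, h2⟩ := h
  rw [List.mem_filter] at h1
  obtain ⟨h1, h3⟩ := h1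
  rw [List.mem_iff_getElem] at h1
  obtain ⟨i, hi, h4⟩ := h1
  rw [List.length_zip] at hi
  rw [List.getElem_zip] at h4
  have hi1 : i < C.length := by omega
  have hi2 : i < b.length := by omega
  refine ⟨i, hi1, ?_, ?_⟩
  · have := congrArg Prod.fst h4
    simp only at this h2
    rw [this, h2]
  · have := congrArg Prod.snd h4
    simp only at this h3
    rw [List.getD_eq_getElem _ _ hi2, this]
    exact h3

theorem pick_spec {M : Mat} {C : List ℕ} {b : List Bool} (hC : C.Nodup)
    (hb : MaxV (sub M C) b) :
    (pick C b).Sublist C ∧ (∀ i ∈ pick C b, ∀ j ∈ pick C b, adj M i j = false) ∧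
      ∀ J : Finset ℕ, (∀ x ∈ J, x ∈ C) → Ind M J → J.card ≤ (pick C b).length := by
  have hlen : b.length = C.length := by rw [hb.1, sub_length]
  refine ⟨?_, ?_, ?_⟩
  · have h1 : (((C.zip b).filter (fun x => x.2)).map Prod.fst).Sublist ((C.zip b).map Prod.fst) :=
      List.filter_sublist.map _
    rw [List.map_fst_zip hlen.ge] at h1
    exact h1
  · intro i hi j hj
    obtain ⟨k, hk, rfl, hk2⟩ := mem_pick hi
    obtain ⟨l, hl, rfl, hl2⟩ := mem_pick hj
    rw [← adj_sub M C hk hl]
    exact hb.2.1 k l hk2 hl2
  · intro J hJ hI
    have hcnt : (C.map (fun u => decide (u ∈ J))).count true = J.card := by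
      rw [List.count, List.countP_map, List.countP_eq_length_filter]
      have e : (C.filter ((fun x => x == true) ∘ fun u => decide (u ∈ J))).toFinset = J := by
        ext x
        rw [List.mem_toFinset, List.mem_filter]
        simp only [Function.comp_apply, beq_true, decide_eq_true_eq]
        exact ⟨fun h => h.2, fun h => ⟨hJ x h, h⟩⟩
      rw [← List.toFinset_card_of_nodup (hC.filter _), e]
    have hget : ∀ i, (C.map (fun u => decide (u ∈ J))).getD i false = true →
        ∃ hi : i < C.length, C[i] ∈ J := by
      intro i hi
      rcases Nat.lt_or_ge i C.length with h | h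
      · refine ⟨h, ?_⟩
        rw [List.getD_eq_getElem _ _ (by simpa using h), List.getElem_map, decide_eq_true_eq] at hi
        exact hi
      · rw [List.getD_eq_default _ _ (by simpa using h)] at hi
        exact absurd hi (by simp)
    have h := hb.2.2 (C.map (fun u => decide (u ∈ J))) (by simp [sub_length]) (by
      intro i j hi hj
      obtain ⟨hi1, hi2⟩ := hget i hi
      obtain ⟨hj1, hj2⟩ := hget j hj
      rw [adj_sub M C hi1 hj1]
      exact hI _ hi2 _ hj2)
    rw [hcnt] at h
    rw [pick_length C b hlen]
    exact h

private theorem better_len (a b : List ℕ) :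
    a.length ≤ (better a b).length ∧ b.length ≤ (better a b).length := by
  unfold better
  split_ifs with h
  · exact ⟨h.le, le_rfl⟩
  · exact ⟨le_rfl, by omega⟩

theorem leaf_ok {M : Mat} (hM : Valid M) {C I best : List ℕ} {b : List Bool}
    (h : OkI M (C, I)) (hbest : OkB M best) (hb : MaxV (sub M C) b) :
    OkB M (better best (I ++ pick C b)) := by
  unfold better
  split_ifs with hc
  swap
  · exact hbest
  obtain ⟨h1, h2, h3⟩ := h
  simp only at h1 h2 h3
  have hC : C.Nodup := (List.nodup_append.1 h1).2.1
  obtain ⟨s1, s2, -⟩ := pick_spec hC hb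
  have hsub : (I ++ pick C b).Sublist (I ++ C) := s1.append_left I
  refine ⟨h1.sublist hsub, fun i hi => h2 i (hsub.subset hi), ?_⟩
  intro i hi j hj
  rw [List.mem_append] at hi
  rcases hi with hi | hi
  · exact h3 i hi j (hsub.subset hj)
  · rw [List.mem_append] at hj
    rcases hj with hj | hj
    · rw [hM.2.1 i j]
      exact h3 j hj i (List.mem_append_right _ (s1.subset hi))
    · exact s2 i hi j hj

theorem leaf_max {M : Mat} {C I best : List ℕ} {b : List Bool} (hC : C.Nodup)
    (hb : MaxV (sub M C) b) :
    best.length ≤ (better best (I ++ pick C b)).length ∧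
      ∀ J : Finset ℕ, (∀ x ∈ J, x ∈ C) → Ind M J →
        I.length + J.card ≤ (better best (I ++ pick C b)).length := by
  refine ⟨(better_len _ _).1, fun J hJ hI => ?_⟩
  have h1 := (pick_spec hC hb).2.2 J hJ hI
  have h2 := (better_len best (I ++ pick C b)).2
  rw [List.length_append] at h2
  omega

theorem del_ok {M : Mat} {C I : List ℕ} (v : ℕ) (h : OkI M (C, I)) : OkI M (del v C, I) := by
  obtain ⟨h1, h2, h3⟩ := h
  simp only at h1 h2 h3
  have hsub : (I ++ del v C).Sublist (I ++ C) := List.filter_sublist.append_left I
  exact ⟨h1.sublist hsub, fun i hi => h2 i (hsub.subset hi),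
    fun i hi j hj => h3 i hi j (hsub.subset hj)⟩

theorem nbr_ok {M : Mat} (hM : Valid M) {C I : List ℕ} {v : ℕ} (hv : v ∈ C)
    (h : OkI M (C, I)) : OkI M (nbr M v C, v :: I) := by
  obtain ⟨h1, h2, h3⟩ := h
  simp only at h1 h2 h3
  obtain ⟨hI, hC, hd⟩ := List.nodup_append.1 h1
  have hs : ∀ x ∈ nbr M v C, x ∈ C ∧ x ≠ v ∧ adj M v x = false := by
    intro x hx
    unfold nbr at hx
    rw [List.mem_filter] at hx
    simp only [Bool.and_eq_true, decide_eq_true_eq, Bool.not_eq_true'] at hx
    exact ⟨hx.1, hx.2.1, hx.2.2⟩
  refine ⟨?_, ?_, ?_⟩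
  · change (v :: (I ++ nbr M v C)).Nodup
    rw [List.nodup_cons]
    refine ⟨?_, h1.sublist (List.filter_sublist.append_left I)⟩
    rw [List.mem_append]
    rintro (hx | hx)
    · exact hd v hx v hv rfl
    · exact (hs v hx).2.1 rfl
  · intro i hi
    change i ∈ v :: (I ++ nbr M v C) at hi
    rw [List.mem_cons, List.mem_append] at hi
    rcases hi with rfl | hi | hi
    · exact h2 _ (List.mem_append_right _ hv)
    · exact h2 _ (List.mem_append_left _ hi)
    · exact h2 _ (List.mem_append_right _ (hs i hi).1)
  · intro i hi j hj
    change i ∈ v :: I at hi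
    change j ∈ v :: (I ++ nbr M v C) at hj
    rw [List.mem_cons] at hi
    rw [List.mem_cons, List.mem_append] at hj
    rcases hi with rfl | hi
    · rcases hj with rfl | hj | hj
      · exact hM.2.2 _
      · rw [hM.2.1]
        exact h3 j hj _ (List.mem_append_right _ hv)
      · exact (hs j hj).2.2
    · rcases hj with rfl | hj | hj
      · exact h3 i hi _ (List.mem_append_right _ hv)
      · exact h3 i hi j (List.mem_append_left _ hj)
      · exact h3 i hi j (List.mem_append_right _ (hs j hj).1)

theorem del_length {C : List ℕ} {v : ℕ} (hC : C.Nodup) (hv : v ∈ C) :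
    (del v C).length + 1 = C.length := by
  have h1 : del v C = C.erase v := by
    unfold del
    rw [hC.erase_eq_filter]
    apply List.filter_congr
    intro x _
    by_cases hx : x = v <;> simp [hx]
  rw [h1, List.length_erase_of_mem hv]
  have := List.length_pos_of_mem hv
  omega

theorem nbr_length {M : Mat} (hM : Valid M) {C : List ℕ} {v D : ℕ} (hC : C.Nodup)
    (hv : v ∈ C) (hD : D < dg M C v) : (nbr M v C).length + (D + 2) ≤ C.length := by
  have h1 := del_length hC hv
  have h2 : nbr M v C = (del v C).filter (fun u => !(adj M v u)) := by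
    unfold nbr del
    rw [List.filter_filter]
    apply List.filter_congr
    intro x _
    rw [Bool.and_comm]
  have h3 : C.filter (fun u => adj M v u) = (del v C).filter (fun u => adj M v u) := by
    unfold del
    rw [List.filter_filter]
    apply List.filter_congr
    intro x _
    by_cases hx : x = v
    · subst hx
      simp [hM.2.2 x]
    · simp [hx]
  have h4 : ((del v C).filter (fun u => adj M v u)).length +
      ((del v C).filter (fun u => !(adj M v u))).length = (del v C).length :=
    (List.length_eq_length_filter_add (fun u => adj M v u)).symm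
  unfold dg at hD
  rw [h3] at hD
  rw [h2]
  omega

theorem branch_max {M : Mat} {C I : List ℕ} {v m : ℕ}
    (h1 : ∀ J : Finset ℕ, (∀ x ∈ J, x ∈ del v C) → Ind M J → I.length + J.card ≤ m)
    (h2 : ∀ J : Finset ℕ, (∀ x ∈ J, x ∈ nbr M v C) → Ind M J → (v :: I).length + J.card ≤ m) :
    ∀ J : Finset ℕ, (∀ x ∈ J, x ∈ C) → Ind M J → I.length + J.card ≤ m := by
  intro J hJ hI
  by_cases hv : v ∈ J
  · have h3 := h2 (J.erase v) (by
      intro x hx
      rw [Finset.mem_erase] at hx
      unfold nbr
      rw [List.mem_filter]
      refine ⟨hJ x hx.2, ?_⟩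
      simp only [Bool.and_eq_true, decide_eq_true_eq, Bool.not_eq_true']
      exact ⟨hx.1, hI v hv x hx.2⟩) (fun x hx y hy =>
        hI x (Finset.mem_of_mem_erase hx) y (Finset.mem_of_mem_erase hy))
    have h4 := Finset.card_erase_add_one hv
    rw [List.length_cons] at h3
    omega
  · refine h1 J (fun x hx => ?_) hI
    unfold del
    rw [List.mem_filter, decide_eq_true_eq]
    exact ⟨hJ x hx, fun e => hv (e ▸ hx)⟩

end Pool.Agent.H66.MB
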