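import Pool.Agent.H66.MB.Pick
import Pool.Agent.H66.MB.BrSize
import Pool.Agent.H66.MB.Loop

/-!
# The branching tree

PROOF of `tree`, by induction on `k` (for all `C, I, rest, best`), following one item `(C, I)`.

Put `s = (M, (C, I) :: rest, best)`; `OkS s` holds and `query D s`, `next D (s, a)` unfold by
the value of `big D M C`.

Case `big D M C = none`. Then all inner degrees are at most `D` (`big_none`), so by `h1` there is an
answer `b` with `MaxV (sub M C) b`, computed by `A0` with cost `t`, `t + w ≤ Φ |C|`. Its length is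
`|C| ≤ n` (`length_le_of_nodup`). One step
(`hB`) leads to `(M, rest, better best (I ++ pick C b))`. Use `leaf_ok`, `leaf_max`.

Case `big D M C = some v`. The question is `[]`; `h0` gives an answer `a` (of length 0) with cost at
most `t0`. One step leads to `(M, (del v C, I) :: (nbr M v C, v :: I) :: rest, best)`, with cost
(including the 2 of `Steps`) at most `w + t0`. By `big_some`, `del_length`, `nbr_length` the two new
candidate lists have lengths `|C| - 1` and at most `|C| - (D + 2)`. Apply the induction hypothesis
to the first item with `(nbr M v C, v :: I) :: rest`, it gives `best1`; then to the second item with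
`rest` and `best1`, it gives `best2`. Costs: `Φ (|C| - 1) + Φ (|C| - (D + 2)) + w + t0 ≤ Φ |C|`
(`h2`, monotonicity of `Φ`). Conditions: `rest.length + 1 + (|C| - 1) ≤ n` and
`rest.length + |nbr| ≤ n`; number of items at most `n + 1` as `|C| ≥ D + 2 ≥ 2`. Tasks stay correct by
`del_ok`, `nbr_ok`. Maximality: `branch_max` with `m = best2.length` (the first hypothesis from
`best1.length ≤ best2.length`). `Steps.trans`.
-/

set_option autoImplicit false

namespace Pool.Agent.H66.MB

open Pool.Agent.H80.Poly

private theorem tree_leaf (D : ℕ) (A0 B : Prog) (w : ℝ) (M : Mat) (hM : Valid M)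
    (hB : ∀ (s : State) (a : List Bool) (t : ℕ), OkS s → s.1 = M → a.length ≤ M.length →
      Ex A0 (ini (enc (query D s))) (ini (enc a)) t →
      ∃ t' : ℕ, (t' : ℝ) + 2 ≤ w + t ∧ Ex B (ini (enc s)) (ini (enc (next D (s, a)))) t')
    (Φ : ℕ → ℝ)
    (h1 : ∀ C : List ℕ, C.Nodup → (∀ x ∈ C, x < M.length) → (∀ v ∈ C, dg M C v ≤ D) →
      ∃ t : ℝ, SolC A0 (sub M C) t ∧ t + w ≤ Φ C.length)
    (C I : List ℕ) (rest : List Item) (best : List ℕ)
    (hs : OkS (M, (C, I) :: rest, best)) (hlen : rest.length + C.length ≤ M.length)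
    (hbig : big D M C = none) :
      ∃ (best' : List ℕ) (T : ℕ),
        Steps (List Bool) B (M, (C, I) :: rest, best) (M, rest, best') T ∧
        (T : ℝ) ≤ Φ C.length ∧ OkB M best' ∧ best.length ≤ best'.length ∧
        ∀ J : Finset ℕ, (∀ x ∈ J, x ∈ C) → Ind M J → I.length + J.card ≤ best'.length := by
  have hOk : OkI M (C, I) := hs.2.1 (C, I) (by simp)
  have hCnd : C.Nodup := (List.nodup_append.mp hOk.1).2.1
  have hClt : ∀ x ∈ C, x < M.length := fun x hx => hOk.2.1 x (by simp [hx])
  obtain ⟨t, ⟨b, s0, hb, hex, hs0⟩, ht⟩ := h1 C hCnd hClt (big_none hbig)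
  have hblen : b.length = C.length := by
    have h := hb.1
    simpa [sub] using h
  have hquery : query D ((M, (C, I) :: rest, best) : State) = sub M C := by
    simp [query, hbig]
  have hnext : next D (((M, (C, I) :: rest, best) : State), b) =
      Sum.inl (M, rest, better best (I ++ pick C b)) := by
    simp [next, hbig]
  obtain ⟨t', ht', hexB⟩ := hB (M, (C, I) :: rest, best) b s0 hs rfl (by omega)
    (by rw [hquery]; exact hex)
  rw [hnext] at hexB
  have hmax := leaf_max (I := I) (best := best) hCnd hb
  refine ⟨better best (I ++ pick C b), t' + 2 + 0, Steps.step hexB (Steps.refl _), ?_,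
    leaf_ok hM hOk hs.2.2.1 hb, hmax.1, hmax.2⟩
  push_cast
  linarith

theorem tree (D : ℕ) (A0 B : Prog) (w : ℝ) (M : Mat) (hM : Valid M)
    (hB : ∀ (s : State) (a : List Bool) (t : ℕ), OkS s → s.1 = M → a.length ≤ M.length →
      Ex A0 (ini (enc (query D s))) (ini (enc a)) t →
      ∃ t' : ℕ, (t' : ℝ) + 2 ≤ w + t ∧ Ex B (ini (enc s)) (ini (enc (next D (s, a)))) t')
    (t0 : ℝ) (h0 : SolC A0 [] t0) (Φ : ℕ → ℝ) (hΦ : Monotone Φ)
    (h1 : ∀ C : List ℕ, C.Nodup → (∀ x ∈ C, x < M.length) → (∀ v ∈ C, dg M C v ≤ D) →
      ∃ t : ℝ, SolC A0 (sub M C) t ∧ t + w ≤ Φ C.length)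
    (h2 : ∀ k, D + 2 ≤ k → k ≤ M.length → Φ (k - 1) + Φ (k - (D + 2)) + w + t0 ≤ Φ k) :
    ∀ (k : ℕ) (C I : List ℕ) (rest : List Item) (best : List ℕ), C.length ≤ k →
      OkS (M, (C, I) :: rest, best) → rest.length + C.length ≤ M.length →
      ∃ (best' : List ℕ) (T : ℕ),
        Steps (List Bool) B (M, (C, I) :: rest, best) (M, rest, best') T ∧
        (T : ℝ) ≤ Φ C.length ∧ OkB M best' ∧ best.length ≤ best'.length ∧
        ∀ J : Finset ℕ, (∀ x ∈ J, x ∈ C) → Ind M J → I.length + J.card ≤ best'.length := by
  intro k
  induction k with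
  | zero =>
    intro C I rest best hk hs hlen
    have hC0 : C = [] := List.length_eq_zero_iff.mp (by omega)
    subst hC0
    exact tree_leaf D A0 B w M hM hB Φ h1 [] I rest best hs hlen (by simp [big])
  | succ k ih =>
    intro C I rest best hk hs hlen
    rcases hbig : big D M C with _ | v
    · exact tree_leaf D A0 B w M hM hB Φ h1 C I rest best hs hlen hbig
    · obtain ⟨hvC, hvD⟩ := big_some hbig
      have hOk : OkI M (C, I) := hs.2.1 (C, I) (by simp)
      have hCnd : C.Nodup := (List.nodup_append.mp hOk.1).2.1
      have hdel := del_length hCnd hvC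
      have hnbr := nbr_length hM hCnd hvC hvD
      obtain ⟨a, s0, ha, hex0, hs0⟩ := h0
      have halen : a.length = 0 := by simpa using ha.1
      have hquery : query D ((M, (C, I) :: rest, best) : State) = [] := by
        simp [query, hbig]
      have hnext : next D (((M, (C, I) :: rest, best) : State), a) =
          Sum.inl (M, (del v C, I) :: (nbr M v C, v :: I) :: rest, best) := by
        simp [next, hbig]
      obtain ⟨t', ht', hexB⟩ := hB (M, (C, I) :: rest, best) a s0 hs rfl (by omega)
        (by rw [hquery]; exact hex0)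
      rw [hnext] at hexB
      have hs1 : OkS (M, (del v C, I) :: (nbr M v C, v :: I) :: rest, best) := by
        refine ⟨hM, ?_, hs.2.2.1, ?_⟩
        · intro x hx
          simp only [List.mem_cons] at hx
          rcases hx with rfl | rfl | hx
          · exact del_ok v hOk
          · exact nbr_ok hM hvC hOk
          · exact hs.2.1 x (by simp [hx])
        · simp only [List.length_cons]
          omega
      obtain ⟨best1, T1, hst1, hT1, hb1, hl1, hm1⟩ := ih (del v C) I
        ((nbr M v C, v :: I) :: rest) best (by omega) hs1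
        (by simp only [List.length_cons]; omega)
      have hs2 : OkS (M, (nbr M v C, v :: I) :: rest, best1) := by
        refine ⟨hM, ?_, hb1, ?_⟩
        · intro x hx
          simp only [List.mem_cons] at hx
          rcases hx with rfl | hx
          · exact nbr_ok hM hvC hOk
          · exact hs.2.1 x (by simp [hx])
        · simp only [List.length_cons]
          omega
      obtain ⟨best2, T2, hst2, hT2, hb2, hl2, hm2⟩ := ih (nbr M v C) (v :: I) rest best1
        (by omega) hs2 (by omega)
      refine ⟨best2, t' + 2 + (T1 + T2), Steps.step hexB (hst1.trans hst2), ?_, hb2,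
        hl1.trans hl2, ?_⟩
      · have h3 := h2 C.length (by omega) (by omega)
        have h4 : Φ (del v C).length ≤ Φ (C.length - 1) := hΦ (by omega)
        have h5 : Φ (nbr M v C).length ≤ Φ (C.length - (D + 2)) := hΦ (by omega)
        push_cast
        linarith
      · exact branch_max (fun J hJ hI => (hm1 J hJ hI).trans hl2) hm2

end Pool.Agent.H66.MB
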